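import Pool.Agent.Lib.MP_44a246_ntNF.Tools

set_option autoImplicit false

open NumberField IsDedekindDomain Height
open Pool.Agent.Lib.MP_4d5ce1_nt (fa nv ordv)
open Pool.Agent.Lib.MP_44a246_ntNF

namespace Pool.Agent.Lib.MP_44a246_ntNG

/-- `F` can be divided into at most `M` parts, such that `Q` holds for any two elements of a part. -/
def Parts {X : Type*} (F : Finset X) (M : ℝ) (Q : X → X → Prop) : Prop :=
  ∃ cl : X → ℕ, ((F.image cl).card : ℝ) ≤ M ∧ ∀ x ∈ F, ∀ y ∈ F, cl x = cl y → Q x y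

variable {K : Type*} [Field K] [NumberField K] {n q : ℕ}

/-- Size of a vector at an infinite place. -/
noncomputable def szi (w : InfinitePlace K) (x : Fin (n + 1) → K) : ℝ := ⨆ i, w (x i)

/-- `log (|x|_v / |L_j(x)|_v)` at a finite place. -/
noncomputable def lf (L : Fin q → Fin (n + 1) → K) (x : Fin (n + 1) → K)
    (v : HeightOneSpectrum (𝓞 K)) (j : Fin q) : ℝ := Real.log (sz v x / fa v (lin (L j) x))

/-- `log (|x|_w / |L_j(x)|_w)` at an infinite place. -/
noncomputable def li (L : Fin q → Fin (n + 1) → K) (x : Fin (n + 1) → K)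
    (w : InfinitePlace K) (j : Fin q) : ℝ := Real.log (szi w x / w (lin (L j) x))

/-- The exponent of `L_j(x)` at a good prime. -/
noncomputable def ex (L : Fin q → Fin (n + 1) → K) (x : Fin (n + 1) → K) (j : Fin q)
    (v : HeightOneSpectrum (𝓞 K)) : ℕ := ⌊lf L x v j / Real.log (nv v)⌋₊

/-- The norm of `∏ v ^ (b v)`. -/
noncomputable def Nb (b : HeightOneSpectrum (𝓞 K) →₀ ℕ) : ℝ := ∏ v ∈ b.support, nv v ^ b v

/-- The norm of a code (a family of exponents at primes, labelled by the forms). -/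
noncomputable def Nc (c : Fin q → (HeightOneSpectrum (𝓞 K) →₀ ℕ)) : ℝ := ∏ j, Nb (c j)

/-- The cost of a code: the norm of the product of its primes. -/
noncomputable def Cc (c : Fin q → (HeightOneSpectrum (𝓞 K) →₀ ℕ)) : ℝ := ∏ j, NN (c j).support

/-- The primes of a code are good, belong to one form each, and the forms are not in `J`. -/
structure IsCode (S : Finset (HeightOneSpectrum (𝓞 K))) (J : Finset (Fin q))
    (c : Fin q → (HeightOneSpectrum (𝓞 K) →₀ ℕ)) : Prop where
  good : ∀ j v, c j v ≠ 0 → v ∉ S ∧ j ∉ J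
  disj : ∀ i j v, c i v ≠ 0 → c j v ≠ 0 → i = j

/-- `x` satisfies the congruences of the code `c`. -/
def Close (L : Fin q → Fin (n + 1) → K) (c : Fin q → (HeightOneSpectrum (𝓞 K) →₀ ℕ))
    (x : Fin (n + 1) → K) : Prop :=
  ∀ j v, c j v ≠ 0 → fa v (lin (L j) x) * nv v ^ (c j v) ≤ sz v x

/-- Two (normalised) vectors in one fibre class. -/
structure Fib (L : Fin q → Fin (n + 1) → K) (J : Finset (Fin q)) (x y : Fin (n + 1) → K) :
    Prop where
  eq : ∀ j ∈ J, lin (L j) x = lin (L j) y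
  fin : ∀ v, sz v x = sz v y
  inf : ∀ w, szi w x ≤ Real.exp 1 * szi w y

/-- The radical of the form `j` at `x` (logarithmic). -/
noncomputable def rad (L : Fin q → Fin (n + 1) → K) (S : Finset (HeightOneSpectrum (𝓞 K)))
    (x : Fin (n + 1) → K) (j : Fin q) : ℝ :=
  ∑ I ∈ (Finset.univ : Finset (Finset (Fin q))).filter (fun I => j ∈ I), Real.log (NN (RR L S x I))

/-- The primes which divide a form in `J` (logarithmic). -/
noncomputable def hc (L : Fin q → Fin (n + 1) → K) (S : Finset (HeightOneSpectrum (𝓞 K)))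
    (x : Fin (n + 1) → K) (J : Finset (Fin q)) : ℝ :=
  ∑ I ∈ (Finset.univ : Finset (Finset (Fin q))).filter (fun I => ∃ j ∈ J, j ∈ I),
    Real.log (NN (RR L S x I))

/-- The loss on the own primes of the forms outside `J`. -/
noncomputable def own (L : Fin q → Fin (n + 1) → K) (S : Finset (HeightOneSpectrum (𝓞 K)))
    (x : Fin (n + 1) → K) (J : Finset (Fin q)) : ℝ :=
  ∑ j ∈ Jᶜ, ∑ v ∈ RR L S x {j}, ((ex L x j v : ℝ) - 1) * Real.log (nv v)

open Classical in
/-- The free gain: shared primes, bad places; `jf`, `ji` choose the form. -/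
noncomputable def gain (L : Fin q → Fin (n + 1) → K) (S : Finset (HeightOneSpectrum (𝓞 K)))
    (x : Fin (n + 1) → K) (jf : HeightOneSpectrum (𝓞 K) → Fin q) (ji : InfinitePlace K → Fin q) :
    ℝ :=
  ∑ I ∈ (Finset.univ : Finset (Finset (Fin q))).filter (fun I => 2 ≤ I.card),
      ∑ v ∈ RR L S x I, (ex L x (jf v) v : ℝ) * Real.log (nv v) +
    ∑ v ∈ S, lf L x v (jf v) + ∑ w : InfinitePlace K, (w.mult : ℝ) * li L x w (ji w)

end Pool.Agent.Lib.MP_44a246_ntNG
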