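import Pool.Agent.Lib.MP_44a246_ntNF.Skel
import Pool.Agent.Lib.MP_44a246_ntNG.Defs

set_option autoImplicit false

open NumberField IsDedekindDomain Height
open Pool.Agent.Lib.MP_4d5ce1_nt (fa nv ordv)
open Pool.Agent.Lib.MP_44a246_ntNF

namespace Pool.Agent.Lib.MP_44a246_ntNG

/-! ### G1: parts -/

theorem Parts.of_image {X Y : Type*} [DecidableEq Y] (F : Finset X) (f : X → Y) (M : ℝ)
    (h : ((F.image f).card : ℝ) ≤ M) : Parts F M (fun x y => f x = f y) := by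
  sorry

theorem Parts.comp {X : Type*} {F : Finset X} {M₁ M₂ : ℝ} {Q₁ Q₂ : X → X → Prop}
    (h₁ : Parts F M₁ Q₁) (hM₂ : 0 ≤ M₂)
    (h₂ : ∀ G ⊆ F, (∀ x ∈ G, ∀ y ∈ G, Q₁ x y) → Parts G M₂ Q₂) :
    Parts F (M₁ * M₂) (fun x y => Q₁ x y ∧ Q₂ x y) := by
  sorry

theorem Parts.card_le {X : Type*} {F : Finset X} {M M' : ℝ} {Q : X → X → Prop}
    (h : Parts F M Q) (hM' : 0 ≤ M')
    (h' : ∀ G ⊆ F, (∀ x ∈ G, ∀ y ∈ G, Q x y) → (G.card : ℝ) ≤ M') : (F.card : ℝ) ≤ M * M' := by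
  sorry

theorem Parts.mono {X : Type*} {F : Finset X} {M M' : ℝ} {Q Q' : X → X → Prop}
    (h : Parts F M Q) (hM : M ≤ M') (hQ : ∀ x ∈ F, ∀ y ∈ F, Q x y → Q' x y) : Parts F M' Q' := by
  sorry

theorem Parts.all {X ι : Type*} [Fintype ι] {F : Finset X} {M : ℝ} {Q : ι → X → X → Prop}
    (hM : 0 ≤ M) (h : ∀ i, Parts F M (Q i)) :
    Parts F (M ^ Fintype.card ι) (fun x y => ∀ i, Q i x y) := by
  sorry

/-! ### G2: counting codes -/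

theorem card_codes_in (K : Type*) [Field K] [NumberField K] (η : ℝ) (hη : 0 < η) :
    ∃ C : ℝ, 0 < C ∧ ∀ T : ℝ, 1 ≤ T → ∀ W : Finset (HeightOneSpectrum (𝓞 K)), NN W ≤ T →
      ∀ F : Finset (HeightOneSpectrum (𝓞 K) →₀ ℕ), (∀ κ ∈ F, κ.support ⊆ W ∧ Nb κ ≤ T) →
        (F.card : ℝ) ≤ C * T ^ η := by
  sorry

theorem card_codes (K : Type*) [Field K] [NumberField K] (q : ℕ) (η : ℝ) (hη : 0 < η) :
    ∃ C : ℝ, 0 < C ∧ ∀ T : ℝ, 1 ≤ T → ∀ Y : ℝ, 1 ≤ Y →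
      ∀ F : Finset (Fin q → (HeightOneSpectrum (𝓞 K) →₀ ℕ)), (∀ c ∈ F, Cc c ≤ Y ∧ Nc c ≤ T) →
        (F.card : ℝ) ≤ C * Y ^ (1 + η) * T ^ η := by
  sorry

theorem card_Nb (K : Type*) [Field K] [NumberField K] (η : ℝ) (hη : 0 < η) :
    ∃ C : ℝ, 0 < C ∧ ∀ Y : ℝ, 1 ≤ Y → ∀ F : Finset (HeightOneSpectrum (𝓞 K) →₀ ℕ),
      (∀ b ∈ F, Nb b ≤ Y) → (F.card : ℝ) ≤ C * Y ^ (1 + η) := by
  sorry

theorem parts_int {X ι : Type*} [Fintype ι] (A η : ℝ) (hη : 0 < η) :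
    ∃ C : ℝ, 0 < C ∧ ∀ T : ℝ, 1 ≤ T → ∀ (F : Finset X) (f : X → ι → ℤ),
      (∀ x ∈ F, ∀ i, |(f x i : ℝ)| ≤ A * (1 + Real.log T)) →
        Parts F (C * T ^ η) (fun x y => f x = f y) := by
  sorry

variable {K : Type*} [Field K] [NumberField K] {n q : ℕ}

/-! ### G3: local facts -/

theorem exists_zpow_sz (v : HeightOneSpectrum (𝓞 K)) {x : Fin (n + 1) → K} (hx : x ≠ 0) :
    ∃ m : ℤ, sz v x = nv v ^ m := by
  sorry

theorem finite_sz_ne_one {x : Fin (n + 1) → K} (hx : x ≠ 0) :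
    {v : HeightOneSpectrum (𝓞 K) | sz v x ≠ 1}.Finite := by
  sorry

theorem logHeight_eq_sum {x : Fin (n + 1) → K} (hx : x ≠ 0) :
    logHeight x = ∑ w : InfinitePlace K, (w.mult : ℝ) * Real.log (szi w x) +
      ∑ᶠ v : HeightOneSpectrum (𝓞 K), Real.log (sz v x) := by
  sorry

theorem ex_spec {L : Fin q → Fin (n + 1) → K} {cc : Finset (Fin q) → Fin q → K}
    {S : Finset (HeightOneSpectrum (𝓞 K))} (hS : Good L cc S) {x : Fin (n + 1) → K} {j : Fin q}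
    (hx : lin (L j) x ≠ 0) {v : HeightOneSpectrum (𝓞 K)} (hv : v ∉ S) :
    fa v (lin (L j) x) * nv v ^ (ex L x j v) = sz v x ∧
      lf L x v j = ex L x j v * Real.log (nv v) ∧ (j ∈ IS L x v ↔ ex L x j v ≠ 0) := by
  sorry

theorem fmt_good {L : Fin q → Fin (n + 1) → K} {cc : Finset (Fin q) → Fin q → K}
    {S : Finset (HeightOneSpectrum (𝓞 K))} (hS : Good L cc S) {x : Fin (n + 1) → K}
    (hx : ∀ j, lin (L j) x ≠ 0) (j : Fin q) :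
    logHeight x = ∑ I ∈ (Finset.univ : Finset (Finset (Fin q))).filter (fun I => I.Nonempty),
        ∑ v ∈ RR L S x I, (ex L x j v : ℝ) * Real.log (nv v) +
      ∑ v ∈ S, lf L x v j + ∑ w : InfinitePlace K, (w.mult : ℝ) * li L x w j := by
  sorry

theorem bad_bounds (hq : n + 1 ≤ q) (L : Fin q → Fin (n + 1) → K)
    (hL : ∀ J : Fin (n + 1) → Fin q, Function.Injective J →
      LinearIndependent K (fun i => L (J i))) (S : Finset (HeightOneSpectrum (𝓞 K))) :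
    ∃ C : ℝ, 0 ≤ C ∧ ∀ x : Fin (n + 1) → K, (∀ j, lin (L j) x ≠ 0) →
      (∀ v ∈ S, ∀ j, -C ≤ lf L x v j) ∧ (∀ w j, -C ≤ li L x w j) ∧
      ∀ E : Finset (Fin q), E.card = n + 1 → (∀ v ∈ S, ∃ j ∈ E, lf L x v j ≤ C) ∧
        ∀ w, ∃ j ∈ E, li L x w j ≤ C := by
  sorry

/-! ### G4: the dichotomy -/

theorem dichotomy (hn : 1 ≤ n) (hq : n + 2 ≤ q) {L : Fin q → Fin (n + 1) → K}
    (hL : ∀ J : Fin (n + 1) → Fin q, Function.Injective J →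
      LinearIndependent K (fun i => L (J i)))
    {cc : Finset (Fin q) → Fin q → K} {S : Finset (HeightOneSpectrum (𝓞 K))}
    (hS : Good L cc S) {S₀ : Set (HeightOneSpectrum (𝓞 K))}
    (h0 : S₀ ⊆ (S : Set (HeightOneSpectrum (𝓞 K)))) (c : ℝ) :
    ∃ C : ℝ, 0 ≤ C ∧ ∀ x : Fin (n + 1) → K, (∀ j, lin (L j) x ≠ 0) →
      truncCount S₀ L x ≤ ((q : ℝ) - n - 1) * logHeight x + c →
      ∀ J : Finset (Fin q), J.card = n →
        (logHeight x - C ≤ own L S x J) ∨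
        ∃ (jf : HeightOneSpectrum (𝓞 K) → Fin q) (ji : InfinitePlace K → Fin q),
          (∀ v, jf v ∉ J) ∧ (∀ w, ji w ∉ J) ∧
          hc L S x J + logHeight x ≤ n * logHeight x + gain L S x jf ji + C := by
  sorry

theorem radical_bounds (hq : n + 1 ≤ q) {L : Fin q → Fin (n + 1) → K}
    (hL : ∀ J : Fin (n + 1) → Fin q, Function.Injective J →
      LinearIndependent K (fun i => L (J i)))
    {cc : Finset (Fin q) → Fin q → K} {S : Finset (HeightOneSpectrum (𝓞 K))}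
    (hS : Good L cc S) :
    ∃ C : ℝ, 0 ≤ C ∧ ∀ x : Fin (n + 1) → K, (∀ j, lin (L j) x ≠ 0) →
      (∀ j, rad L S x j ≤ logHeight x + C) ∧
      (∀ J : Finset (Fin q), hc L S x J ≤ ∑ j ∈ J, rad L S x j) ∧
      (∀ j, ∑ v ∈ RR L S x {j}, ((ex L x j v : ℝ) - 1) * Real.log (nv v) ≤
        logHeight x - rad L S x j + C) ∧
      ∀ j, ∑ v ∈ RR L S x {j}, (ex L x j v : ℝ) * Real.log (nv v) ≤ logHeight x + C := by
  sorry

/-! ### G5: classes -/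

theorem classes {L : Fin q → Fin (n + 1) → K} {cc : Finset (Fin q) → Fin q → K}
    {S : Finset (HeightOneSpectrum (𝓞 K))} (hq : n + 1 ≤ q)
    (hL : ∀ J : Fin (n + 1) → Fin q, Function.Injective J →
      LinearIndependent K (fun i => L (J i))) (hS : Good L cc S) (η : ℝ) (hη : 0 < η) :
    ∃ C : ℝ, 0 < C ∧ ∀ T : ℝ, 1 ≤ T → ∀ (J : Finset (Fin q)) (j₁ : Fin q), j₁ ∈ J →
      ∀ F : Finset (Fin (n + 1) → K),
      (∀ x ∈ F, (∀ j, lin (L j) x ≠ 0) ∧ mulHeight x ≤ T ∧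
        ∀ I, I.Nonempty → NN (RR L S x I) ≤ T) →
      (∀ x ∈ F, ∀ y ∈ F, ∀ I : Finset (Fin q), (∃ j ∈ J, j ∈ I) → RR L S x I = RR L S y I) →
      Parts F (C * T ^ η)
        (fun x y => Fib L J ((lin (L j₁) x)⁻¹ • x) ((lin (L j₁) y)⁻¹ • y)) := by
  sorry

/-- The relation of the finer classes, for `n` forms. -/
structure Fine (L : Fin q → Fin (n + 1) → K) (S : Finset (HeightOneSpectrum (𝓞 K)))
    (x y : Fin (n + 1) → K) : Prop where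
  sh : ∀ I : Finset (Fin q), 2 ≤ I.card → RR L S x I = RR L S y I
  e : ∀ I : Finset (Fin q), 2 ≤ I.card → ∀ v ∈ RR L S x I, ∀ j, ex L x j v = ex L y j v
  f : ∀ v ∈ S, ∀ j, lf L x v j = lf L y v j
  i : ∀ w j, |li L x w j - li L y w j| ≤ 1

theorem classes_fine {L : Fin q → Fin (n + 1) → K} {cc : Finset (Fin q) → Fin q → K}
    {S : Finset (HeightOneSpectrum (𝓞 K))} (hn : 2 ≤ n) (hq : n + 2 ≤ q)
    (hL : ∀ J : Fin (n + 1) → Fin q, Function.Injective J →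
      LinearIndependent K (fun i => L (J i))) (hcc : IsRel L cc) (hS : Good L cc S) (η : ℝ)
    (hη : 0 < η) :
    ∃ C : ℝ, 0 < C ∧ ∀ T : ℝ, 1 ≤ T → ∀ (J : Finset (Fin q)) (j₁ : Fin q), j₁ ∈ J → J.card = n →
      ∀ F : Finset (Fin (n + 1) → K),
      (∀ x ∈ F, (∀ j, lin (L j) x ≠ 0) ∧ ¬ VanishingSubsum L x ∧ mulHeight x ≤ T ∧
        ∀ I, I.Nonempty → NN (RR L S x I) ≤ T) →
      (∀ x ∈ F, ∀ y ∈ F, ∀ I : Finset (Fin q), (∃ j ∈ J, j ∈ I) → RR L S x I = RR L S y I) →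
      (∀ x ∈ F, ∀ y ∈ F, Fib L J ((lin (L j₁) x)⁻¹ • x) ((lin (L j₁) y)⁻¹ • y)) →
      Parts F (C * T ^ η) (Fine L S) := by
  sorry

/-! ### G6: packing in dimension one -/

theorem pack_one {L : Fin q → Fin (n + 1) → K} {cc : Finset (Fin q) → Fin q → K}
    {S : Finset (HeightOneSpectrum (𝓞 K))} (hq : n + 1 ≤ q)
    (hL : ∀ J : Fin (n + 1) → Fin q, Function.Injective J →
      LinearIndependent K (fun i => L (J i))) (hS : Good L cc S) :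
    ∃ C : ℝ, 0 < C ∧ ∀ J : Finset (Fin q), J.card = n → ∀ (X : Finset (Fin (n + 1) → K)),
      ∀ x₀ ∈ X, x₀ ≠ 0 → (∀ x ∈ X, ∀ y ∈ X, Fib L J x y) →
      ∀ (g : HeightOneSpectrum (𝓞 K) → ℝ) (gi : InfinitePlace K → ℝ)
        (U : Finset (HeightOneSpectrum (𝓞 K))), (∀ v, v ∉ U → g v = 0) →
      (∀ v, ∃ j, j ∉ J ∧ ∀ x ∈ X, fa v (lin (L j) x) ≤ Real.exp (-g v) * sz v x₀) →
      (∀ w, ∃ j, j ∉ J ∧ ∀ x ∈ X, w (lin (L j) x) ≤ Real.exp (-gi w) * szi w x₀) →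
      (X.card : ℝ) ≤ C * max 1 (Real.exp (logHeight x₀ - ∑ v ∈ U, g v -
        ∑ w : InfinitePlace K, (w.mult : ℝ) * gi w)) := by
  sorry

theorem fiber_one {L : Fin q → Fin (n + 1) → K} {cc : Finset (Fin q) → Fin q → K}
    {S : Finset (HeightOneSpectrum (𝓞 K))} (hq : n + 1 ≤ q)
    (hL : ∀ J : Fin (n + 1) → Fin q, Function.Injective J →
      LinearIndependent K (fun i => L (J i))) (hS : Good L cc S) :
    ∃ C : ℝ, 0 < C ∧ ∀ J : Finset (Fin q), J.card = n → ∀ j₁ ∈ J,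
      ∀ (G : Finset (Fin (n + 1) → K)), (∀ x ∈ G, ∀ j, lin (L j) x ≠ 0) →
      (∀ x ∈ G, ∀ y ∈ G, x ≠ y → ∀ t : K, x ≠ t • y) →
      (∀ x ∈ G, ∀ y ∈ G, Fib L J ((lin (L j₁) x)⁻¹ • x) ((lin (L j₁) y)⁻¹ • y) ∧ Fine L S x y) →
      ∀ x₀ ∈ G, ∀ (jf : HeightOneSpectrum (𝓞 K) → Fin q) (ji : InfinitePlace K → Fin q),
        (∀ v, jf v ∉ J) → (∀ w, ji w ∉ J) →
        (G.card : ℝ) ≤ C * max 1 (Real.exp (logHeight x₀ - gain L S x₀ jf ji)) := by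
  sorry

/-! ### G7: packing in dimension two -/

theorem arch_grid (w : InfinitePlace K) : ∃ C : ℝ, 0 < C ∧ ∀ A σ : ℝ, 0 < A → 0 < σ → σ ≤ 1 →
    ∃ N : ℕ, (N : ℝ) ≤ C / σ ^ w.mult ∧ ∃ f : K → Fin N, ∀ z z' : K, w z ≤ A → w z' ≤ A →
      f z = f z' → w (z - z') ≤ σ * A := by
  sorry

theorem pack_two {L : Fin q → Fin (n + 1) → K} {cc : Finset (Fin q) → Fin q → K}
    {S : Finset (HeightOneSpectrum (𝓞 K))} (hq : n + 1 ≤ q)
    (hL : ∀ J : Fin (n + 1) → Fin q, Function.Injective J →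
      LinearIndependent K (fun i => L (J i))) (hcc : IsRel L cc) (hS : Good L cc S) :
    ∃ C : ℝ, 0 < C ∧ ∀ J : Finset (Fin q), J.card + 1 = n → ∀ (X : Finset (Fin (n + 1) → K)),
      ∀ x₀ ∈ X, x₀ ≠ 0 → (∀ x ∈ X, ∀ y ∈ X, Fib L J x y) →
      ∀ c, IsCode S J c → (∀ x ∈ X, Close L c x) →
      (X.card : ℝ) ≤ C * max 1 (mulHeight x₀ ^ 2 / Nc c) ∨
      ∃ x ∈ X, ∃ y ∈ X, x ≠ y ∧
        (X.card : ℝ) * ∏ w : InfinitePlace K, (szi w (x - y) / szi w x₀) ^ w.mult ≤ C := by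
  sorry

theorem direction_unique {L : Fin q → Fin (n + 1) → K} {cc : Finset (Fin q) → Fin q → K}
    {S : Finset (HeightOneSpectrum (𝓞 K))} (hq : n + 1 ≤ q)
    (hL : ∀ J : Fin (n + 1) → Fin q, Function.Injective J →
      LinearIndependent K (fun i => L (J i))) (hcc : IsRel L cc) (hS : Good L cc S) :
    ∃ C : ℝ, 0 < C ∧ ∀ J : Finset (Fin q), J.card + 1 = n → ∀ u u' : Fin (n + 1) → K, u ≠ 0 →
      u' ≠ 0 → (∀ j ∈ J, lin (L j) u = 0) → (∀ j ∈ J, lin (L j) u' = 0) →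
      ∀ f, IsCode S J f → Close L f u → Close L f u' →
      C * (mulHeight u * mulHeight u') < Nc f → ∃ t : K, u' = t • u := by
  sorry

/-! ### G8: skew codes -/

theorem card_skew {L : Fin q → Fin (n + 1) → K} {cc : Finset (Fin q) → Fin q → K}
    {S : Finset (HeightOneSpectrum (𝓞 K))} (hq : n + 1 ≤ q)
    (hL : ∀ J : Fin (n + 1) → Fin q, Function.Injective J →
      LinearIndependent K (fun i => L (J i))) (hcc : IsRel L cc) (hS : Good L cc S) (η : ℝ)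
    (hη : 0 < η) :
    ∃ C C₂ : ℝ, 0 < C ∧ 0 < C₂ ∧ ∀ T : ℝ, 1 ≤ T → ∀ J : Finset (Fin q), J.card + 1 = n →
      ∀ m5 m6 D : ℝ, 0 ≤ m5 → 0 ≤ m6 → 0 ≤ D → Real.exp m5 ≤ T → Real.exp m6 ≤ T →
        Real.exp D ≤ T →
      ∀ F : Finset (Fin q → (HeightOneSpectrum (𝓞 K) →₀ ℕ)),
      (∀ c ∈ F, IsCode S J c ∧ (∀ j v, c j v ≠ 0 → 2 ≤ c j v) ∧ Nc c ≤ T ∧
        (∀ j, NN (c j).support ≤ Real.exp D) ∧
        ∃ (u : Fin (n + 1) → K) (b : HeightOneSpectrum (𝓞 K) →₀ ℕ), u ≠ 0 ∧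
          (∀ j ∈ J, lin (L j) u = 0) ∧ Close L (fun j => c j - b) u ∧ Nb b ≤ Real.exp m6 ∧
          mulHeight u ≤ Real.exp m5 ∧ C₂ * Real.exp (2 * m5) < Nc c / Nb b) →
      (F.card : ℝ) ≤ C * T ^ η * Real.exp (m5 + m6 + D) := by
  sorry

/-! ### G9: the fibre claim of case II -/

theorem fiber_two {L : Fin q → Fin (n + 1) → K} {cc : Finset (Fin q) → Fin q → K}
    {S : Finset (HeightOneSpectrum (𝓞 K))} (hq : n + 1 ≤ q)
    (hL : ∀ J : Fin (n + 1) → Fin q, Function.Injective J →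
      LinearIndependent K (fun i => L (J i))) (hcc : IsRel L cc) (hS : Good L cc S) (η : ℝ)
    (hη : 0 < η) :
    ∃ C : ℝ, 0 < C ∧ ∀ T : ℝ, 1 ≤ T → ∀ J : Finset (Fin q), J.card + 1 = n →
      ∀ b D : ℝ, 0 ≤ b → 0 ≤ D → Real.exp b ≤ T → Real.exp D ≤ T →
      ∀ X : Finset (Fin (n + 1) → K), (∀ x ∈ X, ∀ y ∈ X, Fib L J x y) →
      (∀ x ∈ X, x ≠ 0 ∧ logHeight x ≤ b) →
      ∀ code : (Fin (n + 1) → K) → Fin q → (HeightOneSpectrum (𝓞 K) →₀ ℕ),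
      (∀ x ∈ X, IsCode S J (code x) ∧ Close L (code x) x ∧
        (∀ j v, code x j v ≠ 0 → 2 ≤ code x j v) ∧ Nc (code x) ≤ T ∧
        (∀ j, NN (code x j).support ≤ Real.exp D) ∧
        Real.log (Cc (code x)) + max 0 (2 * b - Real.log (Nc (code x))) ≤ b + D) →
      (X.card : ℝ) ≤ C * T ^ η * Real.exp (b + D) := by
  sorry

/-! ### G10: choice of the own code -/

theorem exists_code (hn : 1 ≤ n) (hq : n + 1 ≤ q) {L : Fin q → Fin (n + 1) → K}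
    (hL : ∀ J : Fin (n + 1) → Fin q, Function.Injective J →
      LinearIndependent K (fun i => L (J i)))
    {cc : Finset (Fin q) → Fin q → K} {S : Finset (HeightOneSpectrum (𝓞 K))}
    (hS : Good L cc S) (C₀ : ℝ) :
    ∃ C : ℝ, 0 ≤ C ∧ ∀ x : Fin (n + 1) → K, (∀ j, lin (L j) x ≠ 0) → ∀ b : ℝ,
      b - 1 ≤ logHeight x → logHeight x ≤ b →
      ∀ J' : Finset (Fin q), logHeight x - C₀ ≤ own L S x J' → ∀ D : ℝ, 0 ≤ D →
        (∀ j, j ∉ J' → logHeight x - rad L S x j ≤ D) →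
        ∃ c : Fin q → (HeightOneSpectrum (𝓞 K) →₀ ℕ), IsCode S J' c ∧ Close L c x ∧
          (∀ j v, c j v ≠ 0 → 2 ≤ c j v) ∧ Real.log (Nc c) ≤ C * (b + 1) ∧
          (∀ j, NN (c j).support ≤ Real.exp (D + C)) ∧
          Real.log (Cc c) + max 0 (2 * b - Real.log (Nc c)) ≤ b + (D + C) := by
  sorry

/-! ### G11, G12: the two cases -/

theorem case_one {L : Fin q → Fin (n + 1) → K} {cc : Finset (Fin q) → Fin q → K}
    {S : Finset (HeightOneSpectrum (𝓞 K))} (hn : 2 ≤ n) (hq : n + 2 ≤ q)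
    (hL : ∀ J : Fin (n + 1) → Fin q, Function.Injective J →
      LinearIndependent K (fun i => L (J i))) (hcc : IsRel L cc) (hS : Good L cc S)
    (C₀ η : ℝ) (hC₀ : 0 ≤ C₀) (hη : 0 < η) :
    ∃ C : ℝ, ∀ b : ℝ, 0 ≤ b → ∀ J : Finset (Fin q), J.card = n →
      ∀ X : Finset (Fin (n + 1) → K), (∀ x ∈ X, ∀ y ∈ X, x ≠ y → ∀ t : K, x ≠ t • y) →
      (∀ x ∈ X, (∀ j, lin (L j) x ≠ 0) ∧ ¬ VanishingSubsum L x ∧ logHeight x ≤ b ∧
        (∀ I, I.Nonempty → Real.log (NN (RR L S x I)) ≤ C₀ * (b + 1)) ∧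
        ∃ (jf : HeightOneSpectrum (𝓞 K) → Fin q) (ji : InfinitePlace K → Fin q),
          (∀ v, jf v ∉ J) ∧ (∀ w, ji w ∉ J) ∧
          hc L S x J + logHeight x ≤ n * logHeight x + gain L S x jf ji + C₀) →
      (X.card : ℝ) ≤ C * Real.exp ((n + η) * b) := by
  sorry

theorem case_two {L : Fin q → Fin (n + 1) → K} {cc : Finset (Fin q) → Fin q → K}
    {S : Finset (HeightOneSpectrum (𝓞 K))} (hn : 2 ≤ n) (hq : n + 2 ≤ q)
    (hL : ∀ J : Fin (n + 1) → Fin q, Function.Injective J →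
      LinearIndependent K (fun i => L (J i))) (hcc : IsRel L cc) (hS : Good L cc S)
    (C₀ η : ℝ) (hC₀ : 0 ≤ C₀) (hη : 0 < η) :
    ∃ C : ℝ, ∀ b : ℝ, 0 ≤ b → ∀ J' : Finset (Fin q), J'.card = n →
      ∀ X : Finset (Fin (n + 1) → K), (∀ x ∈ X, ∀ y ∈ X, x ≠ y → ∀ t : K, x ≠ t • y) →
      (∀ x ∈ X, (∀ j, lin (L j) x ≠ 0) ∧ b - 1 ≤ logHeight x ∧ logHeight x ≤ b ∧
        (∀ I, I.Nonempty → Real.log (NN (RR L S x I)) ≤ C₀ * (b + 1)) ∧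
        (∀ i ∈ J', ∀ j, j ∉ J' → rad L S x i ≤ rad L S x j) ∧
        logHeight x - C₀ ≤ own L S x J') →
      (X.card : ℝ) ≤ C * Real.exp ((n + η) * b) := by
  sorry

/-! ### G13: trivial bounds -/

theorem card_all (K : Type*) [Field K] [NumberField K] (m : ℕ) (η : ℝ) (hη : 0 < η) :
    ∃ C : ℝ, ∀ B : ℝ, 1 ≤ B → ∀ X : Finset (Fin (m + 1) → K), (∀ x ∈ X, x ≠ 0 ∧ mulHeight x ≤ B) →
      (∀ x ∈ X, ∀ y ∈ X, x ≠ y → ∀ t : K, x ≠ t • y) →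
      (X.card : ℝ) ≤ C * B ^ ((m : ℝ) + 1 + η) := by
  sorry

theorem card_hyperplane (hn : 1 ≤ n) (a : Fin (n + 1) → K) (ha : a ≠ 0) (η : ℝ) (hη : 0 < η) :
    ∃ C : ℝ, ∀ B : ℝ, 1 ≤ B → ∀ X : Finset (Fin (n + 1) → K),
      (∀ x ∈ X, x ≠ 0 ∧ mulHeight x ≤ B ∧ lin a x = 0) →
      (∀ x ∈ X, ∀ y ∈ X, x ≠ y → ∀ t : K, x ≠ t • y) → (X.card : ℝ) ≤ C * B ^ ((n : ℝ) + η) := by
  sorry

theorem vanishing_finite {L : Fin q → Fin (n + 1) → K}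
    (hL : ∀ J : Fin (n + 1) → Fin q, Function.Injective J →
      LinearIndependent K (fun i => L (J i))) :
    ∃ A : Finset (Fin (n + 1) → K), (∀ a ∈ A, a ≠ 0) ∧
      ∀ x, VanishingSubsum L x → ∃ a ∈ A, lin a x = 0 := by
  sorry

end Pool.Agent.Lib.MP_44a246_ntNG
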