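import Pool.Agent.Lib.MP_44a246_ntNF.Count
import Pool.Agent.Lib.MP_44a246_ntNG.Skel

set_option autoImplicit false

open NumberField IsDedekindDomain Height
open Pool.Agent.Lib.MP_4d5ce1_nt (fa nv ordv)
open Pool.Agent.Lib.MP_44a246_ntNF

namespace Pool.Agent.Lib.MP_44a246_ntNG

set_option linter.unusedSectionVars false

/-- The `n` smallest values. -/
lemma exists_smallest {q : ℕ} (f : Fin q → ℝ) (n : ℕ) (hn : n ≤ q) :
    ∃ J : Finset (Fin q), J.card = n ∧ ∀ i ∈ J, ∀ j, j ∉ J → f i ≤ f j := by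
  classical
  induction n with
  | zero => exact ⟨∅, rfl, by simp⟩
  | succ n ih =>
    obtain ⟨J, hJ, hJ2⟩ := ih (by omega)
    have hne : (Jᶜ).Nonempty := by
      rw [← Finset.card_pos, Finset.card_compl, Fintype.card_fin, hJ]
      omega
    obtain ⟨j₀, hj₀, hmin⟩ := Finset.exists_min_image Jᶜ f hne
    rw [Finset.mem_compl] at hj₀
    refine ⟨insert j₀ J, by rw [Finset.card_insert_of_notMem hj₀, hJ], ?_⟩
    intro i hi j hj
    rw [Finset.mem_insert, not_or] at hj
    rcases Finset.mem_insert.mp hi with rfl | hi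
    · exact hmin j (Finset.mem_compl.mpr hj.2)
    · exact hJ2 i hi j hj.2

variable {K : Type*} [Field K] [NumberField K] {n q : ℕ}

/-- The points off the vanishing subsums. -/
theorem count_nondeg (hn : 2 ≤ n) (hq : n + 2 ≤ q) {S₀ : Set (HeightOneSpectrum (𝓞 K))}
    (hS₀ : S₀.Finite) (L : Fin q → Fin (n + 1) → K)
    (hL : ∀ J : Fin (n + 1) → Fin q, Function.Injective J →
      LinearIndependent K (fun i => L (J i))) (c η : ℝ) (hη : 0 < η) :
    ∃ C : ℝ, ∀ B : ℝ, 1 ≤ B → ∀ X : Finset (Fin (n + 1) → K),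
      (∀ x ∈ X, (∀ j, lin (L j) x ≠ 0) ∧ ¬ VanishingSubsum L x ∧ mulHeight x ≤ B ∧
        truncCount S₀ L x ≤ ((q : ℝ) - n - 1) * logHeight x + c) →
      (∀ x ∈ X, ∀ y ∈ X, x ≠ y → ∀ t : K, x ≠ t • y) →
      (X.card : ℝ) ≤ C * B ^ ((n : ℝ) + η) := by
  classical
  obtain ⟨cc, hcc, S, hSS, hS⟩ := exists_good (by omega) L hL hS₀.toFinset
  have h0 : S₀ ⊆ (S : Set (HeightOneSpectrum (𝓞 K))) := by
    intro v hv
    exact hSS (by simpa using hv)
  obtain ⟨Cd, hCd, hdich⟩ := dichotomy (by omega) hq hL hS h0 c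
  set C₀ : ℝ := (q : ℝ) + |c| + Cd with hC₀
  have hC₀n : 0 ≤ C₀ := by positivity
  obtain ⟨C1, hone⟩ := case_one hn hq hL hcc hS C₀ (η / 2) hC₀n (by positivity)
  obtain ⟨C2, htwo⟩ := case_two hn hq hL hcc hS C₀ (η / 2) hC₀n (by positivity)
  -- log B + 2 ≤ C3 * B ^ (η / 2)
  obtain ⟨C3, hC3, hlog⟩ : ∃ C3 : ℝ, 0 < C3 ∧ ∀ B : ℝ, 1 ≤ B → Real.log B + 3 ≤ C3 * B ^ (η / 2) := by
    refine ⟨2 / η + 3, by positivity, ?_⟩
    intro B hB
    have h1 := Real.log_le_rpow_div (by linarith : (0 : ℝ) ≤ B) (by positivity : 0 < η / 2)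
    have h2 : 1 ≤ B ^ (η / 2) := Real.one_le_rpow hB (by positivity)
    have h3 : B ^ (η / 2) / (η / 2) = 2 / η * B ^ (η / 2) := by field_simp
    rw [h3] at h1
    nlinarith
  set M : ℝ := (|C1| + |C2|) with hM
  refine ⟨C3 * (2 ^ q) * M * Real.exp (((n : ℝ) + η / 2)), ?_⟩
  intro B hB X hX hprop
  have hB0 : 0 < B := by linarith
  have hlB : 0 ≤ Real.log B := Real.log_nonneg hB
  have hh : ∀ x ∈ X, logHeight x ≤ Real.log B := by
    intro x hx
    rw [logHeight_eq_log_mulHeight]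
    exact Real.log_le_log (mulHeight_pos x) (hX x hx).2.2.1
  choose J hJc hJm using fun x : Fin (n + 1) → K => exists_smallest (rad L S x) n (by omega)
  set code : (Fin (n + 1) → K) → ℕ × Finset (Fin q) := fun x => (⌈logHeight x⌉₊, J x) with hcode
  set N : ℕ := ⌈Real.log B⌉₊ with hN
  have himg : X.image code ⊆ Finset.range (N + 1) ×ˢ (Finset.univ : Finset (Finset (Fin q))) := by
    intro z hz
    rw [Finset.mem_image] at hz
    obtain ⟨x, hx, rfl⟩ := hz
    rw [Finset.mem_product]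
    refine ⟨?_, Finset.mem_univ _⟩
    rw [Finset.mem_range]
    have : ⌈logHeight x⌉₊ ≤ N := Nat.ceil_le_ceil (hh x hx)
    exact Nat.lt_succ_of_le this
  have hfib : ∀ z ∈ X.image code, ((X.filter (fun x => code x = z)).card : ℝ) ≤
      M * Real.exp (((n : ℝ) + η / 2) * (Real.log B + 1)) := by
    intro z hz
    have hz2 := himg hz
    rw [Finset.mem_product, Finset.mem_range] at hz2
    obtain ⟨b, J₁⟩ := z
    simp only at hz2
    set G := X.filter (fun x => code x = (b, J₁)) with hG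
    have hGx : ∀ x ∈ G, x ∈ X ∧ ⌈logHeight x⌉₊ = b ∧ J x = J₁ := by
      intro x hx
      rw [hG, Finset.mem_filter] at hx
      simp only [hcode, Prod.mk.injEq] at hx
      exact hx
    have hb1 : ∀ x ∈ G, (b : ℝ) - 1 ≤ logHeight x ∧ logHeight x ≤ b := by
      intro x hx
      obtain ⟨_, h2, _⟩ := hGx x hx
      constructor
      · have := Nat.ceil_lt_add_one (logHeight_nonneg x)
        rw [h2] at this
        linarith
      · have := Nat.le_ceil (logHeight x)
        rwa [h2] at this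
    have hw : ∀ x ∈ G, ∀ I : Finset (Fin q), I.Nonempty →
        Real.log (NN (RR L S x I)) ≤ C₀ * (b + 1) := by
      intro x hx I hI
      obtain ⟨h1, _, h3, h4⟩ := hX x (hGx x hx).1
      have e1 := sum_log_NN_le hS h0 h1 (by omega)
      have e2 : Real.log (NN (RR L S x I)) ≤
          ∑ I ∈ (Finset.univ : Finset (Finset (Fin q))).filter (fun I => I.Nonempty),
            Real.log (NN (RR L S x I)) := by
        apply Finset.single_le_sum (f := fun I => Real.log (NN (RR L S x I)))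
          (fun I _ => Real.log_nonneg (one_le_NN _))
        simp [hI]
      have e3 := (hb1 x hx).2
      have e4 : ((q : ℝ) - n - 1) * logHeight x ≤ q * b := by
        have q1 : (0 : ℝ) ≤ (q : ℝ) - n - 1 := by
          have : ((n + 2 : ℕ) : ℝ) ≤ q := by exact_mod_cast hq
          push_cast at this
          linarith
        have q2 : ((q : ℝ) - n - 1) ≤ q := by
          have : (0 : ℝ) ≤ n := Nat.cast_nonneg n
          linarith
        exact mul_le_mul q2 e3 (logHeight_nonneg x) (Nat.cast_nonneg _)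
      have e5 := le_abs_self c
      have e6 : (q : ℝ) * b + |c| ≤ C₀ * (b + 1) := by
        rw [hC₀]
        have r1 : (0 : ℝ) ≤ q := Nat.cast_nonneg _
        have r2 : (0 : ℝ) ≤ b := Nat.cast_nonneg _
        have r3 := abs_nonneg c
        have r4 : 0 ≤ |c| * b := by positivity
        have r5 : 0 ≤ Cd * b := by positivity
        nlinarith
      linarith
    have hpropG : ∀ H ⊆ G, ∀ x ∈ H, ∀ y ∈ H, x ≠ y → ∀ t : K, x ≠ t • y :=
      fun H hH x hx y hy => hprop x (hGx x (hH hx)).1 y (hGx y (hH hy)).1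
    have hbn : (0 : ℝ) ≤ b := Nat.cast_nonneg _
    rcases G.eq_empty_or_nonempty with hGe | ⟨x₁, hx₁⟩
    · rw [hGe]
      simp only [Finset.card_empty, Nat.cast_zero]
      positivity
    have hJ₁c : J₁.card = n := by
      rw [← (hGx x₁ hx₁).2.2]
      exact hJc x₁
    have hd : ∀ x ∈ G, (logHeight x - Cd ≤ own L S x J₁) ∨
        ∃ (jf : HeightOneSpectrum (𝓞 K) → Fin q) (ji : InfinitePlace K → Fin q),
          (∀ v, jf v ∉ J₁) ∧ (∀ w, ji w ∉ J₁) ∧
          hc L S x J₁ + logHeight x ≤ n * logHeight x + gain L S x jf ji + Cd := by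
      intro x hx
      obtain ⟨h1, _, h3, h4⟩ := hX x (hGx x hx).1
      exact hdich x h1 h4 J₁ hJ₁c
    set G2 := G.filter (fun x => logHeight x - Cd ≤ own L S x J₁) with hG2
    set G1 := G.filter (fun x => ¬ (logHeight x - Cd ≤ own L S x J₁)) with hG1
    have hcard : (G.card : ℝ) = G2.card + G1.card := by
      rw [hG2, hG1, ← Nat.cast_add, Finset.card_filter_add_card_filter_not]
    have hCdC₀ : Cd ≤ C₀ := by
      rw [hC₀]
      have : (0 : ℝ) ≤ q := Nat.cast_nonneg _
      have := abs_nonneg c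
      linarith
    have k1 : (G1.card : ℝ) ≤ C1 * Real.exp (((n : ℝ) + η / 2) * b) := by
      refine hone b hbn J₁ hJ₁c G1 (hpropG G1 (Finset.filter_subset _ _)) ?_
      intro x hx
      rw [hG1, Finset.mem_filter] at hx
      obtain ⟨h1, h2, _, _⟩ := hX x (hGx x hx.1).1
      rcases hd x hx.1 with h | ⟨jf, ji, a1, a2, a3⟩
      · exact absurd h hx.2
      · exact ⟨h1, h2, (hb1 x hx.1).2, hw x hx.1, jf, ji, a1, a2, by linarith⟩
    have k2 : (G2.card : ℝ) ≤ C2 * Real.exp (((n : ℝ) + η / 2) * b) := by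
      refine htwo b hbn J₁ hJ₁c G2 (hpropG G2 (Finset.filter_subset _ _)) ?_
      intro x hx
      rw [hG2, Finset.mem_filter] at hx
      obtain ⟨h1, h2, _, _⟩ := hX x (hGx x hx.1).1
      refine ⟨h1, (hb1 x hx.1).1, (hb1 x hx.1).2, hw x hx.1, ?_, by linarith [hx.2]⟩
      intro i hi j hj
      have := hJm x
      rw [(hGx x hx.1).2.2] at this
      exact this i hi j hj
    have hbB : (b : ℝ) ≤ Real.log B + 1 := by
      have h1 : b ≤ N := Nat.lt_succ_iff.mp hz2.1
      have h2 : (N : ℝ) < Real.log B + 1 := Nat.ceil_lt_add_one hlB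
      have h3 : (b : ℝ) ≤ N := by exact_mod_cast h1
      linarith
    have hexp : Real.exp (((n : ℝ) + η / 2) * b) ≤
        Real.exp (((n : ℝ) + η / 2) * (Real.log B + 1)) := by
      apply Real.exp_le_exp.mpr
      apply mul_le_mul_of_nonneg_left hbB
      positivity
    have hep : 0 < Real.exp (((n : ℝ) + η / 2) * b) := Real.exp_pos _
    rw [hcard]
    calc (G2.card : ℝ) + G1.card ≤ C2 * Real.exp (((n : ℝ) + η / 2) * b) +
          C1 * Real.exp (((n : ℝ) + η / 2) * b) := add_le_add k2 k1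
      _ = (C2 + C1) * Real.exp (((n : ℝ) + η / 2) * b) := by ring
      _ ≤ M * Real.exp (((n : ℝ) + η / 2) * b) := by
          apply mul_le_mul_of_nonneg_right _ hep.le
          rw [hM]
          have := le_abs_self C1
          have := le_abs_self C2
          linarith
      _ ≤ _ := by
          apply mul_le_mul_of_nonneg_left hexp
          rw [hM]
          positivity
  have hcard1 : (X.card : ℝ) ≤ ((X.image code).card : ℝ) *
      (M * Real.exp (((n : ℝ) + η / 2) * (Real.log B + 1))) := by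
    have h1 : X.card = ∑ z ∈ X.image code, (X.filter (fun x => code x = z)).card :=
      Finset.card_eq_sum_card_image code X
    rw [h1, Nat.cast_sum, ← nsmul_eq_mul]
    exact Finset.sum_le_card_nsmul _ _ _ hfib
  have hM0 : 0 ≤ M := by rw [hM]; positivity
  have hcard2 : ((X.image code).card : ℝ) ≤ (Real.log B + 3) * 2 ^ q := by
    have h1 := Finset.card_le_card himg
    rw [Finset.card_product, Finset.card_range, Finset.card_univ, Fintype.card_finset,
      Fintype.card_fin] at h1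
    have h2 : (N : ℝ) < Real.log B + 1 := Nat.ceil_lt_add_one hlB
    calc ((X.image code).card : ℝ) ≤ (((N + 1) * 2 ^ q : ℕ) : ℝ) := by exact_mod_cast h1
      _ = ((N : ℝ) + 1) * 2 ^ q := by push_cast; ring
      _ ≤ _ := by
          apply mul_le_mul_of_nonneg_right _ (by positivity)
          linarith
  calc (X.card : ℝ) ≤ ((X.image code).card : ℝ) *
      (M * Real.exp (((n : ℝ) + η / 2) * (Real.log B + 1))) := hcard1
    _ ≤ ((Real.log B + 3) * 2 ^ q) * (M * Real.exp (((n : ℝ) + η / 2) * (Real.log B + 1))) :=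
        mul_le_mul_of_nonneg_right hcard2 (by positivity)
    _ ≤ ((C3 * B ^ (η / 2)) * 2 ^ q) *
        (M * Real.exp (((n : ℝ) + η / 2) * (Real.log B + 1))) := by
        apply mul_le_mul_of_nonneg_right _ (by positivity)
        apply mul_le_mul_of_nonneg_right (hlog B hB) (by positivity)
    _ = C3 * 2 ^ q * M * Real.exp (((n : ℝ) + η / 2)) * B ^ ((n : ℝ) + η) := by
        have e1 : Real.exp (((n : ℝ) + η / 2) * (Real.log B + 1)) =
            B ^ ((n : ℝ) + η / 2) * Real.exp ((n : ℝ) + η / 2) := by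
          rw [Real.rpow_def_of_pos hB0, ← Real.exp_add]
          congr 1
          ring
        have e2 : B ^ ((n : ℝ) + η) = B ^ (η / 2) * B ^ ((n : ℝ) + η / 2) := by
          rw [← Real.rpow_add hB0]
          congr 1
          ring
        rw [e1, e2]
        ring

/-- All points. -/
theorem count_codim (hn : 2 ≤ n) (hq : n + 2 ≤ q) {S₀ : Set (HeightOneSpectrum (𝓞 K))}
    (hS₀ : S₀.Finite) (L : Fin q → Fin (n + 1) → K)
    (hL : ∀ J : Fin (n + 1) → Fin q, Function.Injective J →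
      LinearIndependent K (fun i => L (J i))) (c η : ℝ) (hη : 0 < η) :
    ∃ C : ℝ, ∀ B : ℝ, 1 ≤ B → ∀ X : Finset (Fin (n + 1) → K),
      (∀ x ∈ X, (∀ j, lin (L j) x ≠ 0) ∧ mulHeight x ≤ B ∧
        truncCount S₀ L x ≤ ((q : ℝ) - n - 1) * logHeight x + c) →
      (∀ x ∈ X, ∀ y ∈ X, x ≠ y → ∀ t : K, x ≠ t • y) →
      (X.card : ℝ) ≤ C * B ^ ((n : ℝ) + η) := by
  classical
  obtain ⟨C1, h1⟩ := count_nondeg hn hq hS₀ L hL c η hη
  obtain ⟨A, hA0, hA⟩ := vanishing_finite hL
  choose! Ca hCa using fun (a : Fin (n + 1) → K) (ha : a ≠ 0) =>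
    card_hyperplane (K := K) (n := n) (by omega) a ha η hη
  refine ⟨|C1| + ∑ a ∈ A, |Ca a|, ?_⟩
  intro B hB X hX hprop
  have hB0 : 0 < B := by linarith
  have hBp : 0 < B ^ ((n : ℝ) + η) := Real.rpow_pos_of_pos hB0 _
  have hx0 : ∀ x ∈ X, x ≠ 0 := by
    intro x hx h
    have := (hX x hx).1 ⟨0, by omega⟩
    apply this
    rw [h]
    unfold lin
    simp
  set X1 := X.filter (fun x => ¬ VanishingSubsum L x) with hX1
  set XA : (Fin (n + 1) → K) → Finset (Fin (n + 1) → K) :=
    fun a => X.filter (fun x => lin a x = 0) with hXA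
  have hsub : X ⊆ X1 ∪ A.biUnion XA := by
    intro x hx
    by_cases hv : VanishingSubsum L x
    · obtain ⟨a, ha, hax⟩ := hA x hv
      apply Finset.mem_union_right
      rw [Finset.mem_biUnion]
      exact ⟨a, ha, by rw [hXA]; simp only [Finset.mem_filter]; exact ⟨hx, hax⟩⟩
    · apply Finset.mem_union_left
      rw [hX1, Finset.mem_filter]
      exact ⟨hx, hv⟩
  have k1 : (X1.card : ℝ) ≤ |C1| * B ^ ((n : ℝ) + η) := by
    refine (h1 B hB X1 ?_ ?_).trans ?_
    · intro x hx
      rw [hX1, Finset.mem_filter] at hx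
      obtain ⟨a1, a2, a3⟩ := hX x hx.1
      exact ⟨a1, hx.2, a2, a3⟩
    · intro x hx y hy
      rw [hX1, Finset.mem_filter] at hx hy
      exact hprop x hx.1 y hy.1
    · exact mul_le_mul_of_nonneg_right (le_abs_self _) hBp.le
  have k2 : ∀ a ∈ A, ((XA a).card : ℝ) ≤ |Ca a| * B ^ ((n : ℝ) + η) := by
    intro a ha
    refine (hCa a (hA0 a ha) B hB (XA a) ?_ ?_).trans ?_
    · intro x hx
      simp only [hXA, Finset.mem_filter] at hx
      exact ⟨hx0 x hx.1, (hX x hx.1).2.1, hx.2⟩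
    · intro x hx y hy
      simp only [hXA, Finset.mem_filter] at hx hy
      exact hprop x hx.1 y hy.1
    · exact mul_le_mul_of_nonneg_right (le_abs_self _) hBp.le
  have h3 : (X.card : ℝ) ≤ X1.card + ∑ a ∈ A, ((XA a).card : ℝ) := by
    have e1 := Finset.card_le_card hsub
    have e2 := Finset.card_union_le X1 (A.biUnion XA)
    have e3 := Finset.card_biUnion_le (s := A) (t := XA)
    have e4 : X.card ≤ X1.card + ∑ a ∈ A, (XA a).card := by omega
    exact_mod_cast e4
  calc (X.card : ℝ) ≤ X1.card + ∑ a ∈ A, ((XA a).card : ℝ) := h3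
    _ ≤ |C1| * B ^ ((n : ℝ) + η) + ∑ a ∈ A, |Ca a| * B ^ ((n : ℝ) + η) :=
        add_le_add k1 (Finset.sum_le_sum k2)
    _ = _ := by rw [← Finset.sum_mul]; ring

end Pool.Agent.Lib.MP_44a246_ntNG
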