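import Pool.Agent.Lib.MP_44a246_ntNG.Defs

/-!
# MP_44a246_nt: the calculus of parts
-/

set_option autoImplicit false

open NumberField IsDedekindDomain Height
open Pool.Agent.Lib.MP_4d5ce1_nt (fa nv ordv)
open Pool.Agent.Lib.MP_44a246_ntNF

namespace Pool.Agent.Lib.MP_44a246_ntNG

theorem Parts.of_image {X Y : Type*} [DecidableEq Y] (F : Finset X) (f : X → Y) (M : ℝ)
    (h : ((F.image f).card : ℝ) ≤ M) : Parts F M (fun x y => f x = f y) := by
  classical
  let e := (F.image f).equivFin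
  let g : Y → ℕ := fun y => if hy : y ∈ F.image f then ((e ⟨y, hy⟩ : Fin _) : ℕ) else 0
  refine ⟨fun x => g (f x), ?_, fun x hx y hy hxy => ?_⟩
  · have h1 : F.image (fun x => g (f x)) = (F.image f).image g := by
      rw [Finset.image_image]; rfl
    rw [h1]
    refine le_trans ?_ h
    exact_mod_cast Finset.card_image_le
  · have hx' : f x ∈ F.image f := Finset.mem_image_of_mem f hx
    have hy' : f y ∈ F.image f := Finset.mem_image_of_mem f hy
    have h1 : g (f x) = ((e ⟨f x, hx'⟩ : Fin _) : ℕ) := dif_pos hx'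
    have h2 : g (f y) = ((e ⟨f y, hy'⟩ : Fin _) : ℕ) := dif_pos hy'
    have h3 : g (f x) = g (f y) := hxy
    rw [h1, h2] at h3
    have h4 := e.injective (Fin.ext h3)
    exact congrArg Subtype.val h4

theorem Parts.comp {X : Type*} {F : Finset X} {M₁ M₂ : ℝ} {Q₁ Q₂ : X → X → Prop}
    (h₁ : Parts F M₁ Q₁) (hM₂ : 0 ≤ M₂)
    (h₂ : ∀ G ⊆ F, (∀ x ∈ G, ∀ y ∈ G, Q₁ x y) → Parts G M₂ Q₂) :
    Parts F (M₁ * M₂) (fun x y => Q₁ x y ∧ Q₂ x y) := by
  classical
  obtain ⟨c₁, hc₁, hq₁⟩ := h₁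
  have h3 : ∀ a : ℕ, Parts (F.filter (fun x => c₁ x = a)) M₂ Q₂ := fun a => by
    refine h₂ _ (Finset.filter_subset _ _) fun x hx y hy => ?_
    rw [Finset.mem_filter] at hx hy
    exact hq₁ x hx.1 y hy.1 (hx.2.trans hy.2.symm)
  choose c₂ hc₂ hq₂ using h3
  refine ⟨fun x => Nat.pair (c₁ x) (c₂ (c₁ x) x), ?_, fun x hx y hy hxy => ?_⟩
  · have hsub : F.image (fun x => Nat.pair (c₁ x) (c₂ (c₁ x) x)) ⊆
        (F.image c₁).biUnion fun a =>
          ((F.filter (fun x => c₁ x = a)).image (c₂ a)).image (Nat.pair a) := by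
      intro z hz
      obtain ⟨x, hx, rfl⟩ := Finset.mem_image.1 hz
      refine Finset.mem_biUnion.2 ⟨c₁ x, Finset.mem_image_of_mem _ hx, ?_⟩
      refine Finset.mem_image_of_mem _ (Finset.mem_image_of_mem _ ?_)
      exact Finset.mem_filter.2 ⟨hx, rfl⟩
    have h4 : ((F.image (fun x => Nat.pair (c₁ x) (c₂ (c₁ x) x))).card : ℝ) ≤
        ∑ _a ∈ F.image c₁, M₂ := by
      have h5 : ((F.image (fun x => Nat.pair (c₁ x) (c₂ (c₁ x) x))).card : ℝ) ≤
          ((∑ a ∈ F.image c₁,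
            (((F.filter (fun x => c₁ x = a)).image (c₂ a)).image (Nat.pair a)).card : ℕ) : ℝ) := by
        exact_mod_cast (Finset.card_le_card hsub).trans Finset.card_biUnion_le
      rw [Nat.cast_sum] at h5
      refine h5.trans (Finset.sum_le_sum fun a _ => ?_)
      refine le_trans ?_ (hc₂ a)
      exact_mod_cast Finset.card_image_le
    rw [Finset.sum_const, nsmul_eq_mul] at h4
    exact h4.trans (mul_le_mul_of_nonneg_right hc₁ hM₂)
  · obtain ⟨h4, h5⟩ := Nat.pair_eq_pair.1 hxy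
    refine ⟨hq₁ x hx y hy h4, ?_⟩
    rw [← h4] at h5
    exact hq₂ (c₁ x) x (Finset.mem_filter.2 ⟨hx, rfl⟩) y (Finset.mem_filter.2 ⟨hy, h4.symm⟩) h5

theorem Parts.card_le {X : Type*} {F : Finset X} {M M' : ℝ} {Q : X → X → Prop}
    (h : Parts F M Q) (hM' : 0 ≤ M')
    (h' : ∀ G ⊆ F, (∀ x ∈ G, ∀ y ∈ G, Q x y) → (G.card : ℝ) ≤ M') : (F.card : ℝ) ≤ M * M' := by
  classical
  obtain ⟨c, hc, hq⟩ := h
  have h1 : (F.card : ℝ) = ∑ a ∈ F.image c, ((F.filter (fun x => c x = a)).card : ℝ) := by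
    have := Finset.card_eq_sum_card_image c F
    exact_mod_cast this
  have h2 : (F.card : ℝ) ≤ ∑ _a ∈ F.image c, M' := by
    rw [h1]
    refine Finset.sum_le_sum fun a _ => h' _ (Finset.filter_subset _ _) fun x hx y hy => ?_
    rw [Finset.mem_filter] at hx hy
    exact hq x hx.1 y hy.1 (hx.2.trans hy.2.symm)
  rw [Finset.sum_const, nsmul_eq_mul] at h2
  exact h2.trans (mul_le_mul_of_nonneg_right hc hM')

theorem Parts.mono {X : Type*} {F : Finset X} {M M' : ℝ} {Q Q' : X → X → Prop}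
    (h : Parts F M Q) (hM : M ≤ M') (hQ : ∀ x ∈ F, ∀ y ∈ F, Q x y → Q' x y) : Parts F M' Q' := by
  obtain ⟨c, hc, hq⟩ := h
  exact ⟨c, hc.trans hM, fun x hx y hy hxy => hQ x hx y hy (hq x hx y hy hxy)⟩

theorem Parts.all {X ι : Type*} [Fintype ι] {F : Finset X} {M : ℝ} {Q : ι → X → X → Prop}
    (hM : 0 ≤ M) (h : ∀ i, Parts F M (Q i)) :
    Parts F (M ^ Fintype.card ι) (fun x y => ∀ i, Q i x y) := by
  classical
  choose c hc hq using h
  have h1 : Parts F (M ^ Fintype.card ι)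
      (fun x y => (fun i => c i x) = (fun i => c i y)) := by
    refine Parts.of_image F (fun x i => c i x) _ ?_
    have hsub : F.image (fun x i => c i x) ⊆ Fintype.piFinset fun i => F.image (c i) := by
      intro z hz
      obtain ⟨x, hx, rfl⟩ := Finset.mem_image.1 hz
      exact Fintype.mem_piFinset.2 fun i => Finset.mem_image_of_mem _ hx
    have h2 := Finset.card_le_card hsub
    rw [Fintype.card_piFinset] at h2
    have h3 : ((F.image (fun x i => c i x)).card : ℝ) ≤ ∏ i, ((F.image (c i)).card : ℝ) := by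
      exact_mod_cast h2
    refine h3.trans ?_
    calc ∏ i, ((F.image (c i)).card : ℝ) ≤ ∏ _i : ι, M :=
          Finset.prod_le_prod (fun i _ => Nat.cast_nonneg _) fun i _ => hc i
      _ = M ^ Fintype.card ι := by rw [Finset.prod_const, Finset.card_univ]
  exact h1.mono le_rfl fun x hx y hy hxy i => hq i x hx y hy (congrFun hxy i)

end Pool.Agent.Lib.MP_44a246_ntNG
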