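import Pool.Agent.Lib.MP_44a246_ntNG.Defs
import Pool.Agent.Lib.MP_44a246_ntNF.NF1
import Pool.Agent.Lib.MP_44a246_ntNF.NF3
import Pool.Agent.Lib.MP_44a246_ntNF.NF8

/-!
# Trivial bounds for the number of points of bounded height
-/

set_option autoImplicit false

open NumberField IsDedekindDomain Height
open Pool.Agent.Lib.MP_4d5ce1_nt (fa nv ordv)
open Pool.Agent.Lib.MP_44a246_ntNF

namespace Pool.Agent.Lib.MP_44a246_ntNG

set_option linter.unusedSectionVars false

variable {K : Type*} [Field K] [NumberField K] {n q : ℕ}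

private lemma g13_one_le_prod {ι : Type*} (s : Finset ι) (f : ι → ℝ) (h : ∀ i ∈ s, 1 ≤ f i) :
    1 ≤ ∏ i ∈ s, f i := by
  calc (1 : ℝ) = ∏ i ∈ s, (1 : ℝ) := by simp
    _ ≤ ∏ i ∈ s, f i := Finset.prod_le_prod (fun _ _ => zero_le_one) h

private lemma g13_one_le_NN (R : Finset (HeightOneSpectrum (𝓞 K))) : 1 ≤ NN R := by
  unfold NN
  refine g13_one_le_prod _ _ (fun v _ => ?_)
  have := Pool.Agent.Lib.MP_4d5ce1_nt.two_le_nv v
  linarith

private lemma g13_le_sz (v : HeightOneSpectrum (𝓞 K)) (x : Fin (n + 1) → K) (i : Fin (n + 1)) :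
    fa v (x i) ≤ sz v x :=
  Finite.le_ciSup (fun i => fa v (x i)) i

private lemma g13_exists_sz (v : HeightOneSpectrum (𝓞 K)) (x : Fin (n + 1) → K) :
    ∃ i, fa v (x i) = sz v x := exists_eq_ciSup_of_finite (f := fun i => fa v (x i))

/-- The norm of the primes at which a coordinate is small is at most the height. -/
private lemma g13_NN_le {x : Fin (n + 1) → K} {i : Fin (n + 1)} (hi : x i ≠ 0)
    (R : Finset (HeightOneSpectrum (𝓞 K))) (hR : ∀ v ∈ R, fa v (x i) < sz v x) :
    NN R ≤ mulHeight x := by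
  classical
  set y : Fin (n + 1) → K := (x i)⁻¹ • x with hy
  have hyk : ∀ k, y k = (x i)⁻¹ * x k := fun k => rfl
  have hyi : y i = 1 := by rw [hyk, inv_mul_cancel₀ hi]
  have hy0 : y ≠ 0 := by
    intro h
    have := congrFun h i
    rw [hyi] at this
    exact one_ne_zero this
  have hH : mulHeight x = mulHeight y := (mulHeight_smul_eq_mulHeight x (inv_ne_zero hi)).symm
  rw [hH, NumberField.mulHeight_eq hy0]
  have h1 : (1 : ℝ) ≤ ∏ w : InfinitePlace K, (⨆ k, w (y k)) ^ w.mult := by
    refine g13_one_le_prod _ _ ?_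
    intro w _
    refine one_le_pow₀ ?_
    calc (1 : ℝ) = w (y i) := by rw [hyi, map_one]
      _ ≤ ⨆ k, w (y k) := Finite.le_ciSup (fun k => w (y k)) i
  have hfin : ∏ᶠ w : FinitePlace K, (⨆ k, w (y k)) =
      ∏ᶠ v : HeightOneSpectrum (𝓞 K), sz v y := by
    rw [← finprod_comp_equiv (FinitePlace.equivHeightOneSpectrum (K := K)).symm]
    rfl
  have hone : ∀ v : HeightOneSpectrum (𝓞 K), 1 ≤ sz v y := by
    intro v
    calc (1 : ℝ) = fa v (y i) := by rw [hyi]; simp
      _ ≤ sz v y := g13_le_sz v y i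
  have hsup : (Function.mulSupport fun v : HeightOneSpectrum (𝓞 K) => sz v y).Finite := by
    have hU : (⋃ k : Fin (n + 1), {v : HeightOneSpectrum (𝓞 K) | y k ≠ 0 ∧ fa v (y k) ≠ 1}).Finite := by
      refine Set.finite_iUnion (fun k => ?_)
      by_cases hk : y k = 0
      · simp [hk]
      · refine (Pool.Agent.Lib.MP_4d5ce1_nt.finite_fa_ne_one hk).subset ?_
        intro v hv
        exact hv.2
    refine hU.subset ?_
    intro v hv
    obtain ⟨k, hk⟩ := g13_exists_sz v y
    refine Set.mem_iUnion.2 ⟨k, ?_, ?_⟩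
    · intro h0
      rw [h0, Pool.Agent.Lib.MP_4d5ce1_nt.fa_zero] at hk
      have := hone v
      linarith
    · rw [hk]
      exact hv
  have h2 : NN R ≤ ∏ᶠ v : HeightOneSpectrum (𝓞 K), sz v y := by
    rw [finprod_eq_prod_of_mulSupport_subset (s := hsup.toFinset ∪ R) _ (by
      intro v hv
      rw [Finset.coe_union, Set.mem_union]
      left
      exact hsup.mem_toFinset.2 hv)]
    calc NN R ≤ ∏ v ∈ R, sz v y := by
          unfold NN
          refine Finset.prod_le_prod (fun v _ => (Pool.Agent.Lib.MP_4d5ce1_nt.nv_pos v).le) ?_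
          intro v hv
          have h3 := hR v hv
          obtain ⟨k, hk⟩ := g13_exists_sz v x
          refine le_trans ?_ (g13_le_sz v y k)
          have hv0 := Pool.Agent.Lib.MP_4d5ce1_nt.nv_pos v
          have hv1 := Pool.Agent.Lib.MP_4d5ce1_nt.one_lt_nv v
          have hi0 := Pool.Agent.Lib.MP_4d5ce1_nt.fa_pos v hi
          have h4 : 1 < fa v (y k) := by
            rw [hyk, Pool.Agent.Lib.MP_4d5ce1_nt.fa_mul, Pool.Agent.Lib.MP_4d5ce1_nt.fa_inv,
              inv_mul_eq_div, one_lt_div hi0, hk]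
            exact h3
          have hk0 : y k ≠ 0 := by
            intro h0
            rw [h0, Pool.Agent.Lib.MP_4d5ce1_nt.fa_zero] at h4
            linarith
          rw [Pool.Agent.Lib.MP_4d5ce1_nt.fa_eq v hk0] at h4 ⊢
          have h5 : 1 ≤ -ordv v (y k) := by
            by_contra h6
            push Not at h6
            have h7 : nv v ^ (-ordv v (y k)) ≤ 1 := zpow_le_one_of_nonpos₀ hv1.le (by omega)
            linarith
          calc nv v = nv v ^ (1 : ℤ) := (zpow_one _).symm
            _ ≤ nv v ^ (-ordv v (y k)) := zpow_le_zpow_right₀ hv1.le h5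
      _ ≤ ∏ v ∈ hsup.toFinset ∪ R, sz v y := by
          rw [← Finset.prod_sdiff (Finset.subset_union_right (s₁ := hsup.toFinset) (s₂ := R))]
          have h7 : (1 : ℝ) ≤ ∏ v ∈ (hsup.toFinset ∪ R) \ R, sz v y :=
            g13_one_le_prod _ _ (fun v _ => hone v)
          have h8 : (0 : ℝ) ≤ ∏ v ∈ R, sz v y :=
            Finset.prod_nonneg (fun v _ => le_trans zero_le_one (hone v))
          calc ∏ v ∈ R, sz v y = 1 * ∏ v ∈ R, sz v y := (one_mul _).symm
            _ ≤ _ := mul_le_mul_of_nonneg_right h7 h8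
  rw [hfin]
  calc NN R ≤ 1 * ∏ᶠ v : HeightOneSpectrum (𝓞 K), sz v y := by rw [one_mul]; exact h2
    _ ≤ (∏ w : InfinitePlace K, (⨆ k, w (y k)) ^ w.mult) *
        ∏ᶠ v : HeightOneSpectrum (𝓞 K), sz v y := by
        refine mul_le_mul_of_nonneg_right h1 ?_
        exact finprod_nonneg fun v => le_trans zero_le_one (hone v)

private lemma g13_finite {x : Fin (n + 1) → K} {i : Fin (n + 1)} (hi : x i ≠ 0) :
    {v : HeightOneSpectrum (𝓞 K) | fa v (x i) < sz v x}.Finite := by
  have hU : (⋃ k : Fin (n + 1),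
      {v : HeightOneSpectrum (𝓞 K) | x k / x i ≠ 0 ∧ fa v (x k / x i) ≠ 1}).Finite := by
    refine Set.finite_iUnion (fun k => ?_)
    by_cases hk : x k / x i = 0
    · simp [hk]
    · refine (Pool.Agent.Lib.MP_4d5ce1_nt.finite_fa_ne_one hk).subset ?_
      intro v hv
      exact hv.2
  refine hU.subset ?_
  intro v hv
  obtain ⟨k, hk⟩ := g13_exists_sz v x
  have hi0 := Pool.Agent.Lib.MP_4d5ce1_nt.fa_pos v hi
  have hv' : fa v (x i) < fa v (x k) := by rw [hk]; exact hv
  refine Set.mem_iUnion.2 ⟨k, ?_, ?_⟩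
  · intro h0
    rw [div_eq_zero_iff] at h0
    rcases h0 with h0 | h0
    · rw [h0, Pool.Agent.Lib.MP_4d5ce1_nt.fa_zero] at hv'
      linarith
    · exact hi h0
  · rw [Pool.Agent.Lib.MP_4d5ce1_nt.fa_div]
    exact ((one_lt_div hi0).2 hv').ne'

private lemma g13_ratio (x : Fin (n + 1) → K) (i k : Fin (n + 1)) :
    mulHeight₁ (x k / x i) ≤ mulHeight x := by
  rw [mulHeight₁_div_eq_mulHeight]
  have h : ![x k, x i] = x ∘ ![k, i] := by
    funext j
    fin_cases j <;> rfl
  rw [h]
  exact mulHeight_comp_le _ _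

theorem card_all (K : Type*) [Field K] [NumberField K] (m : ℕ) (η : ℝ) (hη : 0 < η) :
    ∃ C : ℝ, ∀ B : ℝ, 1 ≤ B → ∀ X : Finset (Fin (m + 1) → K), (∀ x ∈ X, x ≠ 0 ∧ mulHeight x ≤ B) →
      (∀ x ∈ X, ∀ y ∈ X, x ≠ y → ∀ t : K, x ≠ t • y) →
      (X.card : ℝ) ≤ C * B ^ ((m : ℝ) + 1 + η) := by
  classical
  set e : ℝ := η / (3 * ((m : ℝ) + 1)) with he
  have hm : (0 : ℝ) < (m : ℝ) + 1 := by positivity
  have he0 : 0 < e := by positivity
  obtain ⟨C1, hC1, hfam⟩ := card_families K (Fin (m + 1)) e he0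
  obtain ⟨C2, hC2, helt⟩ := card_elements (K := K) ∅ e he0
  set C3 : ℝ := max C2 1 with hC3
  have hC31 : 1 ≤ C3 := le_max_right _ _
  refine ⟨2 ^ (m + 1) * C1 * C3 ^ (m + 1), ?_⟩
  intro B hB X hX hprop
  have hB0 : 0 < B := by linarith
  -- the code
  set supp : (Fin (m + 1) → K) → Finset (Fin (m + 1)) :=
    fun x => Finset.univ.filter (fun i => x i ≠ 0) with hsupp
  set W : (Fin (m + 1) → K) → Fin (m + 1) → Finset (HeightOneSpectrum (𝓞 K)) :=
    fun x i => if h : x i ≠ 0 then (g13_finite h).toFinset else ∅ with hW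
  have hWmem : ∀ x i, x i ≠ 0 → ∀ v, v ∈ W x i ↔ fa v (x i) < sz v x := by
    intro x i h v
    simp only [hW, dif_pos h, Set.Finite.mem_toFinset, Set.mem_ofPred_eq]
  have hWN : ∀ x ∈ X, ∀ i, NN (W x i) ≤ B := by
    intro x hx i
    by_cases h : x i = 0
    · have : W x i = ∅ := by simp only [hW, h, ne_eq, not_true_eq_false, dite_false]
      rw [this]
      simpa [NN] using hB
    · exact (g13_NN_le h _ (fun v hv => (hWmem x i h v).1 hv)).trans (hX x hx).2
  set code : (Fin (m + 1) → K) → Finset (Fin (m + 1)) ×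
      (Fin (m + 1) → Finset (HeightOneSpectrum (𝓞 K))) := fun x => (supp x, W x) with hcode
  set T : ℝ := B * B with hT
  have hT1 : 1 ≤ T := by rw [hT]; nlinarith
  have hT0 : 0 < T := by linarith
  have hBT : B ≤ T := by rw [hT]; nlinarith
  have hTe : 1 ≤ T ^ e := Real.one_le_rpow hT1 he0.le
  have hM1 : 1 ≤ C3 * T ^ e := by nlinarith
  have hfib : ∀ z ∈ X.image code, ((X.filter (fun x => code x = z)).card : ℝ) ≤
      (C3 * T ^ e) ^ (m + 1) := by
    intro z hz
    rw [Finset.mem_image] at hz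
    obtain ⟨x0, hx0, hz0⟩ := hz
    obtain ⟨i, hi⟩ := Function.ne_iff.1 (hX x0 hx0).1
    have hi : x0 i ≠ 0 := hi
    have hsup : ∀ x ∈ X.filter (fun x => code x = z), supp x = supp x0 ∧ W x = W x0 := by
      intro x hx
      rw [Finset.mem_filter] at hx
      have h2 : code x = code x0 := hx.2.trans hz0.symm
      simpa only [hcode, Prod.mk.injEq] using h2
    have hne : ∀ x ∈ X.filter (fun x => code x = z), ∀ k, x k ≠ 0 ↔ x0 k ≠ 0 := by
      intro x hx k
      have h1 := (hsup x hx).1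
      have h2 : k ∈ supp x ↔ k ∈ supp x0 := by rw [h1]
      simpa [hsupp] using h2
    refine card_le_pow_tree (m + 1) (fun (x : Fin (m + 1) → K) (k : Fin (m + 1)) => x k / x i)
      (C3 * T ^ e) (by linarith) _ ?_ ?_
    · intro x hx y hy hxy
      by_contra hne'
      have hxi : x i ≠ 0 := (hne x hx i).2 hi
      have hyi : y i ≠ 0 := (hne y hy i).2 hi
      refine hprop x (Finset.mem_filter.1 hx).1 y (Finset.mem_filter.1 hy).1 hne' (x i / y i) ?_
      funext k
      have h1 := congrFun hxy k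
      simp only at h1
      rw [div_eq_div_iff hxi hyi] at h1
      rw [Pi.smul_apply, smul_eq_mul, div_mul_eq_mul_div, eq_div_iff hyi, h1]
      ring
    · intro k G hG _
      by_cases hk : x0 k = 0
      · have h1 : G.image (fun x => x k / x i) ⊆ {0} := by
          intro y hy
          rw [Finset.mem_image] at hy
          obtain ⟨x, hx, rfl⟩ := hy
          have h2 : x k = 0 := by
            by_contra h3
            exact (hne x (hG hx) k).1 h3 hk
          simp [h2]
        have h2 := Finset.card_le_card h1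
        rw [Finset.card_singleton] at h2
        have h3 : ((G.image (fun x => x k / x i)).card : ℝ) ≤ 1 := by exact_mod_cast h2
        exact h3.trans hM1
      · have hV : NN (W x0 i ∪ W x0 k) ≤ T := by
          have h1 := hWN x0 hx0 i
          have h2 := hWN x0 hx0 k
          have h3 : NN (W x0 i ∪ W x0 k) ≤ NN (W x0 i) * NN (W x0 k) := by
            have h4 : NN (W x0 i ∪ W x0 k) * NN (W x0 i ∩ W x0 k) = NN (W x0 i) * NN (W x0 k) := by
              unfold NN
              exact Finset.prod_union_inter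
            have h5 := g13_one_le_NN (W x0 i ∩ W x0 k)
            have h6 := g13_one_le_NN (W x0 i ∪ W x0 k)
            nlinarith
          have h4 := g13_one_le_NN (W x0 i)
          have h5 := g13_one_le_NN (W x0 k)
          calc NN (W x0 i ∪ W x0 k) ≤ NN (W x0 i) * NN (W x0 k) := h3
            _ ≤ B * B := mul_le_mul h1 h2 (by linarith) hB0.le
        have h6 := helt T hT1 (W x0 i ∪ W x0 k) hV (G.image (fun x => x k / x i)) ?_
        · refine h6.trans ?_
          exact mul_le_mul_of_nonneg_right (le_max_left _ _) (by linarith)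
        · intro y hy
          rw [Finset.mem_image] at hy
          obtain ⟨x, hx, rfl⟩ := hy
          have hxi : x i ≠ 0 := (hne x (hG hx) i).2 hi
          have hxk : x k ≠ 0 := (hne x (hG hx) k).2 hk
          have hxX : x ∈ X := (Finset.mem_filter.1 (hG hx)).1
          have hWx := (hsup x (hG hx)).2
          refine ⟨div_ne_zero hxk hxi, (g13_ratio x i k).trans ((hX x hxX).2.trans hBT), ?_⟩
          intro v _ hv
          rw [Finset.mem_union, not_or, ← hWx, hWmem x i hxi, hWmem x k hxk, not_lt, not_lt] at hv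
          have e1 : fa v (x i) = sz v x := le_antisymm (g13_le_sz v x i) hv.1
          have e2 : fa v (x k) = sz v x := le_antisymm (g13_le_sz v x k) hv.2
          rw [Pool.Agent.Lib.MP_4d5ce1_nt.fa_div, e1, e2, ← e1]
          exact div_self (Pool.Agent.Lib.MP_4d5ce1_nt.fa_pos v hxi).ne'
  have hcard1 : (X.card : ℝ) ≤ ((X.image code).card : ℝ) * (C3 * T ^ e) ^ (m + 1) := by
    have h1 : X.card = ∑ z ∈ X.image code, (X.filter (fun x => code x = z)).card :=
      Finset.card_eq_sum_card_image code X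
    rw [h1, Nat.cast_sum, ← nsmul_eq_mul]
    exact Finset.sum_le_card_nsmul _ _ _ hfib
  have hcard2 : ((X.image code).card : ℝ) ≤ 2 ^ (m + 1) * (C1 * (B ^ (m + 1)) ^ (1 + e)) := by
    have h1 : X.image code ⊆ (Finset.univ : Finset (Finset (Fin (m + 1)))) ×ˢ (X.image W) := by
      intro z hz
      rw [Finset.mem_image] at hz
      obtain ⟨x, hx, rfl⟩ := hz
      rw [Finset.mem_product]
      exact ⟨Finset.mem_univ _, Finset.mem_image_of_mem _ hx⟩
    have h2 := Finset.card_le_card h1
    rw [Finset.card_product, Finset.card_univ, Fintype.card_finset, Fintype.card_fin] at h2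
    have h3 := hfam (B ^ (m + 1)) (one_le_pow₀ hB) (X.image W) (by
      intro r hr
      rw [Finset.mem_image] at hr
      obtain ⟨x, hx, rfl⟩ := hr
      calc ∏ i, NN (W x i) ≤ ∏ _i : Fin (m + 1), B :=
            Finset.prod_le_prod (fun i _ => le_trans zero_le_one (g13_one_le_NN _))
              (fun i _ => hWN x hx i)
        _ = B ^ (m + 1) := by simp)
    calc ((X.image code).card : ℝ) ≤ ((2 ^ (m + 1) * (X.image W).card : ℕ) : ℝ) := by
          exact_mod_cast h2
      _ = 2 ^ (m + 1) * ((X.image W).card : ℝ) := by push_cast; ring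
      _ ≤ _ := mul_le_mul_of_nonneg_left h3 (by positivity)
  refine hcard1.trans ((mul_le_mul_of_nonneg_right hcard2 (by positivity)).trans (le_of_eq ?_))
  have p1 : (B ^ (m + 1)) ^ (1 + e) = B ^ (((m : ℝ) + 1) * (1 + e)) := by
    rw [← Real.rpow_natCast B (m + 1), ← Real.rpow_mul hB0.le]
    push_cast
    ring_nf
  have p2 : (T ^ e) ^ (m + 1) = B ^ (2 * e * ((m : ℝ) + 1)) := by
    rw [hT, ← Real.rpow_natCast ((B * B) ^ e) (m + 1), ← Real.rpow_mul (by positivity),
      Real.mul_rpow hB0.le hB0.le, ← Real.rpow_add hB0]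
    congr 1
    push_cast
    ring
  have p3 : (m : ℝ) + 1 + η = ((m : ℝ) + 1) * (1 + e) + 2 * e * ((m : ℝ) + 1) := by
    have : η = e * (3 * ((m : ℝ) + 1)) := by
      rw [he]
      field_simp
    rw [this]
    ring
  rw [mul_pow, p1, p2, p3, Real.rpow_add hB0]
  ring

theorem card_hyperplane (hn : 1 ≤ n) (a : Fin (n + 1) → K) (ha : a ≠ 0) (η : ℝ) (hη : 0 < η) :
    ∃ C : ℝ, ∀ B : ℝ, 1 ≤ B → ∀ X : Finset (Fin (n + 1) → K),
      (∀ x ∈ X, x ≠ 0 ∧ mulHeight x ≤ B ∧ lin a x = 0) →
      (∀ x ∈ X, ∀ y ∈ X, x ≠ y → ∀ t : K, x ≠ t • y) → (X.card : ℝ) ≤ C * B ^ ((n : ℝ) + η) := by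
  classical
  obtain ⟨m, rfl⟩ : ∃ m, n = m + 1 := ⟨n - 1, by omega⟩
  obtain ⟨k, hk⟩ := Function.ne_iff.1 ha
  have hk : a k ≠ 0 := hk
  obtain ⟨C, hC⟩ := card_all K m η hη
  refine ⟨C, ?_⟩
  intro B hB X hX hprop
  -- the coordinate `k` is determined by the others
  have hdet : ∀ x : Fin (m + 1 + 1) → K, lin a x = 0 →
      x k = -(∑ i, a (k.succAbove i) * x (k.succAbove i)) / a k := by
    intro x hx
    unfold lin at hx
    rw [Fin.sum_univ_succAbove _ k] at hx
    rw [eq_div_iff hk]
    linear_combination hx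
  have hprop' : ∀ x : Fin (m + 1 + 1) → K, lin a x = 0 → ∀ y : Fin (m + 1 + 1) → K, lin a y = 0 →
      ∀ t : K, x ∘ k.succAbove = t • (y ∘ k.succAbove) → x = t • y := by
    intro x hx y hy t h
    have h1 : ∀ i, x (k.succAbove i) = t * y (k.succAbove i) := fun i => congrFun h i
    funext j
    rcases Fin.eq_self_or_eq_succAbove k j with hj | ⟨i, hj⟩
    · subst hj
      rw [Pi.smul_apply, smul_eq_mul, hdet x hx, hdet y hy]
      have h2 : ∑ i, a (j.succAbove i) * x (j.succAbove i) =
          t * ∑ i, a (j.succAbove i) * y (j.succAbove i) := by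
        rw [Finset.mul_sum]
        refine Finset.sum_congr rfl (fun i _ => ?_)
        rw [h1]
        ring
      rw [h2]
      ring
    · subst hj
      rw [Pi.smul_apply, smul_eq_mul]
      exact h1 i
  have hinj : Set.InjOn (fun x : Fin (m + 1 + 1) → K => x ∘ k.succAbove) X := by
    intro x hx y hy hxy
    have h1 := hprop' x (hX x hx).2.2 y (hX y hy).2.2 1 (by rw [one_smul]; exact hxy)
    rw [one_smul] at h1
    exact h1
  have hcard := Finset.card_image_of_injOn hinj
  have key := hC B hB (X.image (fun x : Fin (m + 1 + 1) → K => x ∘ k.succAbove)) ?_ ?_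
  · rw [hcard] at key
    have h2 : ((m + 1 : ℕ) : ℝ) + η = (m : ℝ) + 1 + η := by push_cast; ring
    rw [h2]
    exact key
  · intro y hy
    rw [Finset.mem_image] at hy
    obtain ⟨x, hx, rfl⟩ := hy
    obtain ⟨h1, h2, h3⟩ := hX x hx
    refine ⟨?_, (mulHeight_comp_le _ _).trans h2⟩
    intro h4
    apply h1
    have h5 := hprop' x h3 x h3 0 (by rw [zero_smul]; exact h4)
    rw [zero_smul] at h5
    exact h5
  · intro u hu w hw hne t h
    rw [Finset.mem_image] at hu hw
    obtain ⟨x, hx, rfl⟩ := hu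
    obtain ⟨y, hy, rfl⟩ := hw
    have hxy : x ≠ y := by
      rintro rfl
      exact hne rfl
    exact hprop x hx y hy hxy t (hprop' x (hX x hx).2.2 y (hX y hy).2.2 t h)

end Pool.Agent.Lib.MP_44a246_ntNG
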