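import Pool.Agent.Lib.MP_44a246_ntNG.Defs

set_option autoImplicit false
set_option linter.unusedSectionVars false

open NumberField IsDedekindDomain Height
open Pool.Agent.Lib.MP_4d5ce1_nt (fa nv ordv)
open Pool.Agent.Lib.MP_44a246_ntNF

namespace Pool.Agent.Lib.MP_44a246_ntNG

variable {K : Type*} [Field K] [NumberField K] {n q : ℕ}

/-- There is no relation between `n + 1` of the forms. -/
private lemma no_rel {L : Fin q → Fin (n + 1) → K}
    (hL : ∀ J : Fin (n + 1) → Fin q, Function.Injective J →
      LinearIndependent K (fun i => L (J i))) (I : Finset (Fin q)) (hI : I.card = n + 1)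
    (d : Fin q → K) (hd : ∀ j, j ∉ I → d j = 0) (h0 : ∑ j, d j • L j = 0) (j : Fin q) :
    d j = 0 := by
  classical
  by_cases hj : j ∈ I
  · have hli := hL (I.orderEmbOfFin hI) (I.orderEmbOfFin hI).injective
    have hsum : ∑ i : Fin (n + 1), d (I.orderEmbOfFin hI i) • L (I.orderEmbOfFin hI i) = 0 := by
      have h1 : ∑ j, d j • L j = ∑ j ∈ I, d j • L j := by
        symm
        apply Finset.sum_subset (Finset.subset_univ _)
        intro k _ hk
        rw [hd k hk, zero_smul]
      have h2 : ∑ j ∈ I, d j • L j =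
          ∑ i : Fin (n + 1), d (I.orderEmbOfFin hI i) • L (I.orderEmbOfFin hI i) := by
        have h3 : I = Finset.univ.map (I.orderEmbOfFin hI).toEmbedding :=
          (Finset.map_orderEmbOfFin_univ I hI).symm
        conv_lhs => rw [h3]
        rw [Finset.sum_map]
        rfl
      rw [← h2, ← h1, h0]
    have h4 := Fintype.linearIndependent_iff.1 hli (fun i => d (I.orderEmbOfFin hI i)) hsum
    have h5 : j ∈ Set.range (I.orderEmbOfFin hI) := by
      rw [Finset.range_orderEmbOfFin]
      exact hj
    obtain ⟨i, rfl⟩ := h5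
    exact h4 i
  · exact hd j hj

private lemma lin_sum (A : Finset (Fin q)) (c : Fin q → K) (L : Fin q → Fin (n + 1) → K)
    (x : Fin (n + 1) → K) :
    lin (∑ j ∈ A, c j • L j) x = ∑ j ∈ A, c j * lin (L j) x := by
  unfold lin
  simp only [Finset.sum_apply, Pi.smul_apply, smul_eq_mul, Finset.sum_mul, Finset.mul_sum]
  rw [Finset.sum_comm]
  apply Finset.sum_congr rfl
  intro j _
  apply Finset.sum_congr rfl
  intro i _
  ring

theorem vanishing_finite {L : Fin q → Fin (n + 1) → K}
    (hL : ∀ J : Fin (n + 1) → Fin q, Function.Injective J →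
      LinearIndependent K (fun i => L (J i))) :
    ∃ A : Finset (Fin (n + 1) → K), (∀ a ∈ A, a ≠ 0) ∧
      ∀ x, VanishingSubsum L x → ∃ a ∈ A, lin a x = 0 := by
  classical
  have hch : ∀ C : Finset (Fin q), ∃ c0 : Fin q → K,
      (∃ c : Fin q → K, (∀ j, c j ≠ 0 ↔ j ∈ C) ∧ ∑ j, c j • L j = 0) →
      (∀ j, c0 j ≠ 0 ↔ j ∈ C) ∧ ∑ j, c0 j • L j = 0 := by
    intro C
    by_cases h : ∃ c : Fin q → K, (∀ j, c j ≠ 0 ↔ j ∈ C) ∧ ∑ j, c j • L j = 0
    · obtain ⟨c, hc⟩ := h
      exact ⟨c, fun _ => hc⟩
    · exact ⟨0, fun h' => absurd h' h⟩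
  choose cc hcc using hch
  refine ⟨((Finset.univ : Finset (Finset (Fin q) × Finset (Fin q))).filter (fun p =>
    p.1.card = n + 2 ∧ p.2 ⊆ p.1 ∧ 2 ≤ p.2.card ∧ p.2.card ≤ n ∧
      ∃ c : Fin q → K, (∀ j, c j ≠ 0 ↔ j ∈ p.1) ∧ ∑ j, c j • L j = 0)).image
        (fun p => ∑ j ∈ p.2, cc p.1 j • L j), ?_, ?_⟩
  · intro a ha ha0
    rw [Finset.mem_image] at ha
    obtain ⟨⟨C, A⟩, hp, rfl⟩ := ha
    rw [Finset.mem_filter] at hp
    obtain ⟨-, hC, hAC, hA2, hAn, hex⟩ := hp
    simp only at hC hAC hA2 hAn hex ha0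
    obtain ⟨h1, h2⟩ := hcc C hex
    obtain ⟨I, hAI, hIC, hI⟩ := Finset.exists_subsuperset_card_eq hAC
      (show A.card ≤ n + 1 by omega) (show n + 1 ≤ C.card by omega)
    have hz := no_rel hL I hI (fun j => if j ∈ A then cc C j else 0)
      (fun j hj => if_neg (fun hjA => hj (hAI hjA))) (by
        rw [← ha0]
        simp only [ite_smul, zero_smul, Finset.sum_ite_mem, Finset.univ_inter])
    obtain ⟨j, hj⟩ : A.Nonempty := Finset.card_pos.1 (by omega)
    have h3 := hz j
    rw [if_pos hj] at h3
    exact (h1 j).2 (hAC hj) h3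
  · rintro x ⟨c, C, A, hC, hc, hrel, hAC, hA2, hAn, hx⟩
    obtain ⟨h1, h2⟩ := hcc C ⟨c, hc, hrel⟩
    refine ⟨∑ j ∈ A, cc C j • L j, ?_, ?_⟩
    · rw [Finset.mem_image]
      refine ⟨(C, A), ?_, rfl⟩
      rw [Finset.mem_filter]
      exact ⟨Finset.mem_univ _, hC, hAC, hA2, hAn, c, hc, hrel⟩
    · rw [lin_sum]
      obtain ⟨k, hk⟩ : C.Nonempty := Finset.card_pos.1 (by omega)
      have hk1 := (h1 k).2 hk
      have hk2 := (hc k).2 hk
      have hz := no_rel hL (C.erase k) (by rw [Finset.card_erase_of_mem hk, hC]; rfl)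
        (fun j => c j - c k / cc C k * cc C j) (by
          intro j hj
          by_cases hjk : j = k
          · subst hjk
            field_simp
            ring
          · have hjC : j ∉ C := fun h => hj (Finset.mem_erase.2 ⟨hjk, h⟩)
            have e1 : c j = 0 := by
              by_contra h
              exact hjC ((hc j).1 h)
            have e2 : cc C j = 0 := by
              by_contra h
              exact hjC ((h1 j).1 h)
            rw [e1, e2]
            ring) (by
          have : ∑ j, (c j - c k / cc C k * cc C j) • L j =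
              ∑ j, c j • L j - (c k / cc C k) • ∑ j, cc C j • L j := by
            rw [Finset.smul_sum, ← Finset.sum_sub_distrib]
            apply Finset.sum_congr rfl
            intro j _
            rw [sub_smul, mul_smul]
          rw [this, hrel, h2]
          simp)
      have ht : c k / cc C k ≠ 0 := div_ne_zero hk2 hk1
      have h3 : ∑ j ∈ A, c j * lin (L j) x =
          c k / cc C k * ∑ j ∈ A, cc C j * lin (L j) x := by
        rw [Finset.mul_sum]
        apply Finset.sum_congr rfl
        intro j _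
        have := hz j
        have e : c j = c k / cc C k * cc C j := by linear_combination this
        rw [e]
        ring
      rw [h3] at hx
      exact (mul_eq_zero.1 hx).resolve_left ht

end Pool.Agent.Lib.MP_44a246_ntNG
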