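import Pool.Agent.Lib.MP_44a246_ntNF.NF1
import Pool.Agent.Lib.MP_44a246_ntNF.NF2
import Pool.Agent.Lib.MP_44a246_ntNG.Defs
import Pool.Agent.Lib.MP_44a246_ntNG.G1

/-!
# MP_44a246_nt: counting codes
-/

set_option autoImplicit false

open NumberField IsDedekindDomain Height
open Pool.Agent.Lib.MP_4d5ce1_nt (fa nv ordv)
open Pool.Agent.Lib.MP_44a246_ntNF

namespace Pool.Agent.Lib.MP_44a246_ntNG

/-- sum over functions supported in `W` -/
private lemma g2_sum_prod {V : Type*} [DecidableEq V] (E : Finset (V →₀ ℕ)) (W : Finset V)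
    (h0 : ∀ g ∈ E, g.support ⊆ W) (h : V → ℕ → ℝ) (hh : ∀ v m, 0 ≤ h v m)
    (B : V → ℝ) (hB : ∀ v, ∀ t : Finset ℕ, ∑ m ∈ t, h v m ≤ B v) :
    ∑ g ∈ E, ∏ v ∈ W, h v (g v) ≤ ∏ v ∈ W, B v := by
  classical
  set t : V → Finset ℕ := fun v => E.image fun g => g v with ht
  have h2 : ∑ g ∈ E, ∏ v ∈ W, h v (g v) ≤ ∏ v ∈ W, ∑ m ∈ t v, h v m := by
    rw [Finset.prod_sum]
    set i : (V →₀ ℕ) → (∀ v ∈ W, ℕ) := fun κ v _ => κ v with hi
    have hinj : Set.InjOn i E := by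
      intro κ hκ κ' hκ' h
      ext v
      by_cases hv : v ∈ W
      · exact congrFun (congrFun h v) hv
      · rw [Finsupp.notMem_support_iff.1 fun hc => hv (h0 κ hκ hc),
          Finsupp.notMem_support_iff.1 fun hc => hv (h0 κ' hκ' hc)]
    have e1 : ∑ κ ∈ E, ∏ v ∈ W, h v (κ v) =
        ∑ p ∈ E.image i, ∏ x ∈ W.attach, h x.1 (p x.1 x.2) := by
      rw [Finset.sum_image hinj]
      apply Finset.sum_congr rfl
      intro κ _
      rw [← Finset.prod_attach W (fun v => h v (κ v))]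
    rw [e1]
    apply Finset.sum_le_sum_of_subset_of_nonneg
    · intro p hp
      rw [Finset.mem_image] at hp
      obtain ⟨κ, hκ, rfl⟩ := hp
      rw [Finset.mem_pi]
      intro v hv
      exact Finset.mem_image_of_mem _ hκ
    · intro p _ _
      exact Finset.prod_nonneg (fun x _ => hh _ _)
  refine h2.trans ?_
  exact Finset.prod_le_prod (fun v _ => Finset.sum_nonneg fun m _ => hh v m) fun v _ => hB v _

private lemma g2_geom (r : ℝ) (hr0 : 0 ≤ r) (hr1 : r < 1) (t : Finset ℕ) :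
    ∑ m ∈ t, r ^ m ≤ (1 - r)⁻¹ := by
  have hs := summable_geometric_of_lt_one hr0 hr1
  have := hs.sum_le_tsum t (fun i _ => by positivity)
  rwa [tsum_geometric_of_lt_one hr0 hr1] at this

private lemma g2_nv_rpow_lt {K : Type*} [Field K] [NumberField K] (s : ℝ) (hs : 0 < s)
    (v : HeightOneSpectrum (𝓞 K)) : 0 < nv v ^ (-s) ∧ nv v ^ (-s) < 1 :=
  ⟨Real.rpow_pos_of_pos (Pool.Agent.Lib.MP_4d5ce1_nt.nv_pos v) _,
    Real.rpow_lt_one_of_one_lt_of_neg (Pool.Agent.Lib.MP_4d5ce1_nt.one_lt_nv v) (by linarith)⟩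

private lemma g2_Nb_eq {K : Type*} [Field K] [NumberField K]
    {W : Finset (HeightOneSpectrum (𝓞 K))} {κ : HeightOneSpectrum (𝓞 K) →₀ ℕ}
    (h : κ.support ⊆ W) : Nb κ = ∏ v ∈ W, nv v ^ κ v := by
  unfold Nb
  refine Finset.prod_subset h fun v _ hv => ?_
  rw [Finsupp.notMem_support_iff.1 hv, pow_zero]

private lemma g2_one_le_Nb {K : Type*} [Field K] [NumberField K]
    (κ : HeightOneSpectrum (𝓞 K) →₀ ℕ) : 1 ≤ Nb κ := by
  unfold Nb
  calc (1 : ℝ) = ∏ _v ∈ κ.support, (1 : ℝ) := by simp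
    _ ≤ _ := Finset.prod_le_prod (fun _ _ => zero_le_one) fun v _ =>
        one_le_pow₀ (Pool.Agent.Lib.MP_4d5ce1_nt.one_lt_nv v).le

private lemma g2_NN_le_Nb {K : Type*} [Field K] [NumberField K]
    (κ : HeightOneSpectrum (𝓞 K) →₀ ℕ) : NN κ.support ≤ Nb κ := by
  unfold Nb NN
  refine Finset.prod_le_prod (fun v _ => (Pool.Agent.Lib.MP_4d5ce1_nt.nv_pos v).le) fun v hv => ?_
  exact le_self_pow₀ (Pool.Agent.Lib.MP_4d5ce1_nt.one_lt_nv v).le
    (Finsupp.mem_support_iff.1 hv)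

/-- Rankin's method. -/
private lemma g2_rankin {K : Type*} [Field K] [NumberField K] (s : ℝ) (hs : 0 < s) (T : ℝ)
    (hT : 1 ≤ T) (W : Finset (HeightOneSpectrum (𝓞 K)))
    (F : Finset (HeightOneSpectrum (𝓞 K) →₀ ℕ)) (hF : ∀ κ ∈ F, κ.support ⊆ W ∧ Nb κ ≤ T) :
    (F.card : ℝ) ≤ T ^ s * ∏ v ∈ W, (1 - nv v ^ (-s))⁻¹ := by
  classical
  have hT0 : 0 < T := by linarith
  set h : HeightOneSpectrum (𝓞 K) → ℕ → ℝ := fun v m => (nv v ^ (-s)) ^ m with hh
  have hnn : ∀ v m, 0 ≤ h v m := fun v m => pow_nonneg (g2_nv_rpow_lt s hs v).1.le _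
  have h1 := g2_sum_prod F W (fun κ hκ => (hF κ hκ).1) h hnn (fun v => (1 - nv v ^ (-s))⁻¹)
    (fun v t => g2_geom _ (g2_nv_rpow_lt s hs v).1.le (g2_nv_rpow_lt s hs v).2 t)
  have h2 : ∀ κ ∈ F, (1 : ℝ) ≤ T ^ s * ∏ v ∈ W, h v (κ v) := by
    intro κ hκ
    have h3 := (hF κ hκ).2
    have hpos : 0 < Nb κ := lt_of_lt_of_le one_pos (g2_one_le_Nb κ)
    have e : ∏ v ∈ W, h v (κ v) = Nb κ ^ (-s) := by
      rw [g2_Nb_eq (hF κ hκ).1, ← Real.finsetProd_rpow _ _ fun v _ => by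
        have := Pool.Agent.Lib.MP_4d5ce1_nt.nv_pos v
        positivity]
      refine Finset.prod_congr rfl fun v _ => ?_
      have hv := Pool.Agent.Lib.MP_4d5ce1_nt.nv_pos v
      simp only [hh]
      rw [← Real.rpow_natCast, ← Real.rpow_mul hv.le, ← Real.rpow_natCast, ← Real.rpow_mul hv.le,
        mul_comm]
    rw [e, Real.rpow_neg hpos.le, ← div_eq_mul_inv, one_le_div (Real.rpow_pos_of_pos hpos _)]
    exact Real.rpow_le_rpow hpos.le h3 hs.le
  calc (F.card : ℝ) = ∑ _g ∈ F, (1 : ℝ) := by simp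
    _ ≤ ∑ κ ∈ F, T ^ s * ∏ v ∈ W, h v (κ v) := Finset.sum_le_sum h2
    _ = T ^ s * ∑ κ ∈ F, ∏ v ∈ W, h v (κ v) := by rw [Finset.mul_sum]
    _ ≤ _ := mul_le_mul_of_nonneg_left h1 (Real.rpow_nonneg hT0.le _)

theorem card_codes_in (K : Type*) [Field K] [NumberField K] (η : ℝ) (hη : 0 < η) :
    ∃ C : ℝ, 0 < C ∧ ∀ T : ℝ, 1 ≤ T → ∀ W : Finset (HeightOneSpectrum (𝓞 K)), NN W ≤ T →
      ∀ F : Finset (HeightOneSpectrum (𝓞 K) →₀ ℕ), (∀ κ ∈ F, κ.support ⊆ W ∧ Nb κ ≤ T) →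
        (F.card : ℝ) ≤ C * T ^ η := by
  classical
  set δ : ℝ := η / 2 with hδ
  have hδ0 : 0 < δ := by positivity
  set r : ℝ := (2 : ℝ) ^ (-δ) with hr
  have hr1 : r < 1 := Real.rpow_lt_one_of_one_lt_of_neg (by norm_num) (by linarith)
  have hr0 : 0 < r := by positivity
  set B : ℝ := 2 / (1 - r) with hB
  have hB2 : 2 ≤ B := by
    rw [hB, le_div_iff₀ (by linarith)]
    linarith
  set β : ℝ := Real.logb 2 B with hβ
  have hβ1 : 1 ≤ β := by
    rw [hβ, Real.le_logb_iff_rpow_le (by norm_num) (by linarith)]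
    simpa using hB2
  obtain ⟨C1, hC1, h2pow⟩ := two_pow_card_le K (η / (2 * β)) (by positivity)
  refine ⟨C1 ^ β, by positivity, ?_⟩
  intro T hT W hW F hF
  have hT0 : 0 < T := by linarith
  have h1 := g2_rankin δ hδ0 T hT W F hF
  have hNN : 0 < NN W := Finset.prod_pos fun v _ => Pool.Agent.Lib.MP_4d5ce1_nt.nv_pos v
  have h3 : ∏ v ∈ W, (1 - nv v ^ (-δ))⁻¹ ≤ B ^ W.card := by
    rw [← Finset.prod_const]
    refine Finset.prod_le_prod (fun v _ => ?_) fun v _ => ?_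
    · have := (g2_nv_rpow_lt δ hδ0 v).2
      exact inv_nonneg.2 (by linarith)
    · have hle : nv v ^ (-δ) ≤ r :=
        Real.rpow_le_rpow_of_nonpos (by norm_num) (Pool.Agent.Lib.MP_4d5ce1_nt.two_le_nv v)
          (by linarith)
      have h5 : (1 - nv v ^ (-δ))⁻¹ ≤ (1 - r)⁻¹ :=
        inv_anti₀ (by linarith) (by linarith)
      have h6 : (0 : ℝ) < (1 - r)⁻¹ := inv_pos.2 (by linarith)
      rw [hB, div_eq_mul_inv]
      linarith
  have h4 : B ^ W.card ≤ C1 ^ β * T ^ (η / 2) := by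
    have e : B = (2 : ℝ) ^ β := by
      rw [hβ, Real.rpow_logb (by norm_num) (by norm_num) (by linarith)]
    have e2 : B ^ W.card = ((2 : ℝ) ^ W.card) ^ β := by
      rw [e, ← Real.rpow_natCast, ← Real.rpow_mul (by norm_num), ← Real.rpow_natCast,
        ← Real.rpow_mul (by norm_num), mul_comm]
    rw [e2]
    calc ((2 : ℝ) ^ W.card) ^ β ≤ (C1 * NN W ^ (η / (2 * β))) ^ β :=
          Real.rpow_le_rpow (by positivity) (h2pow W) (by linarith)
      _ = C1 ^ β * NN W ^ (η / 2) := by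
          rw [Real.mul_rpow hC1.le (Real.rpow_nonneg hNN.le _), ← Real.rpow_mul hNN.le]
          congr 2
          field_simp
      _ ≤ C1 ^ β * T ^ (η / 2) := by
          have := Real.rpow_le_rpow hNN.le hW (show (0 : ℝ) ≤ η / 2 by positivity)
          exact mul_le_mul_of_nonneg_left this (by positivity)
  calc (F.card : ℝ) ≤ T ^ δ * ∏ v ∈ W, (1 - nv v ^ (-δ))⁻¹ := h1
    _ ≤ T ^ δ * (C1 ^ β * T ^ (η / 2)) :=
        mul_le_mul_of_nonneg_left (h3.trans h4) (Real.rpow_nonneg hT0.le _)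
    _ = C1 ^ β * (T ^ δ * T ^ (η / 2)) := by ring
    _ = C1 ^ β * T ^ η := by
        rw [← Real.rpow_add hT0, hδ, add_halves]

theorem card_codes (K : Type*) [Field K] [NumberField K] (q : ℕ) (η : ℝ) (hη : 0 < η) :
    ∃ C : ℝ, 0 < C ∧ ∀ T : ℝ, 1 ≤ T → ∀ Y : ℝ, 1 ≤ Y →
      ∀ F : Finset (Fin q → (HeightOneSpectrum (𝓞 K) →₀ ℕ)), (∀ c ∈ F, Cc c ≤ Y ∧ Nc c ≤ T) →
        (F.card : ℝ) ≤ C * Y ^ (1 + η) * T ^ η := by
  classical
  obtain ⟨C1, hC1, hfam⟩ := card_families K (Fin q) η hη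
  have hη' : 0 < η / (q + 1) := by positivity
  obtain ⟨C2, hC2, hin⟩ := card_codes_in K (η / (q + 1)) hη'
  refine ⟨C1 * C2 ^ q, by positivity, ?_⟩
  intro T hT Y hY F hF
  have hT0 : 0 < T := by linarith
  set Sup : (Fin q → (HeightOneSpectrum (𝓞 K) →₀ ℕ)) → (Fin q → Finset (HeightOneSpectrum (𝓞 K))) :=
    fun c j => (c j).support with hSup
  have hNb : ∀ c ∈ F, ∀ j, Nb (c j) ≤ T := by
    intro c hc j
    refine le_trans ?_ (hF c hc).2
    unfold Nc
    rw [← Finset.mul_prod_erase Finset.univ (fun j => Nb (c j)) (Finset.mem_univ j)]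
    refine le_mul_of_one_le_right (le_trans zero_le_one (g2_one_le_Nb _)) ?_
    calc (1 : ℝ) = ∏ _i ∈ Finset.univ.erase j, (1 : ℝ) := by simp
      _ ≤ _ := Finset.prod_le_prod (fun _ _ => zero_le_one) fun i _ => g2_one_le_Nb _
  have h1 : ((F.image Sup).card : ℝ) ≤ C1 * Y ^ (1 + η) := by
    refine hfam Y hY _ fun R hR => ?_
    obtain ⟨c, hc, rfl⟩ := Finset.mem_image.1 hR
    exact (hF c hc).1
  have h2 : ∀ R ∈ F.image Sup, ((F.filter (fun c => Sup c = R)).card : ℝ) ≤ C2 ^ q * T ^ η := by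
    intro R hR
    obtain ⟨c₀, hc₀, rfl⟩ := Finset.mem_image.1 hR
    set G := F.filter (fun c => Sup c = Sup c₀) with hG
    have hsub : G ⊆ Fintype.piFinset fun j => G.image (fun c => c j) := by
      intro c hc
      exact Fintype.mem_piFinset.2 fun j => Finset.mem_image_of_mem _ hc
    have h3 := Finset.card_le_card hsub
    rw [Fintype.card_piFinset] at h3
    have h4 : (G.card : ℝ) ≤ ∏ j, ((G.image (fun c => c j)).card : ℝ) := by exact_mod_cast h3
    refine h4.trans ?_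
    calc ∏ j, ((G.image (fun c => c j)).card : ℝ) ≤ ∏ _j : Fin q, (C2 * T ^ (η / (q + 1))) := by
          refine Finset.prod_le_prod (fun _ _ => Nat.cast_nonneg _) fun j _ => ?_
          refine hin T hT (Sup c₀ j) ((g2_NN_le_Nb _).trans (hNb c₀ hc₀ j)) _ fun κ hκ => ?_
          obtain ⟨c, hc, rfl⟩ := Finset.mem_image.1 hκ
          rw [hG, Finset.mem_filter] at hc
          refine ⟨?_, hNb c hc.1 j⟩
          have := congrFun hc.2 j
          exact this.subset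
      _ = C2 ^ q * (T ^ (η / (q + 1))) ^ q := by
          rw [Finset.prod_const, Finset.card_univ, Fintype.card_fin, mul_pow]
      _ ≤ C2 ^ q * T ^ η := by
          refine mul_le_mul_of_nonneg_left ?_ (by positivity)
          rw [← Real.rpow_natCast, ← Real.rpow_mul hT0.le]
          refine Real.rpow_le_rpow_of_exponent_le hT ?_
          rw [div_mul_eq_mul_div, div_le_iff₀ (by positivity)]
          nlinarith
  have h5 : (F.card : ℝ) = ∑ R ∈ F.image Sup, ((F.filter (fun c => Sup c = R)).card : ℝ) := by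
    have := Finset.card_eq_sum_card_image Sup F
    exact_mod_cast this
  rw [h5]
  calc ∑ R ∈ F.image Sup, ((F.filter (fun c => Sup c = R)).card : ℝ)
      ≤ ∑ _R ∈ F.image Sup, C2 ^ q * T ^ η := Finset.sum_le_sum h2
    _ = ((F.image Sup).card : ℝ) * (C2 ^ q * T ^ η) := by rw [Finset.sum_const, nsmul_eq_mul]
    _ ≤ C1 * Y ^ (1 + η) * (C2 ^ q * T ^ η) :=
        mul_le_mul_of_nonneg_right h1 (by positivity)
    _ = C1 * C2 ^ q * Y ^ (1 + η) * T ^ η := by ring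

theorem card_Nb (K : Type*) [Field K] [NumberField K] (η : ℝ) (hη : 0 < η) :
    ∃ C : ℝ, 0 < C ∧ ∀ Y : ℝ, 1 ≤ Y → ∀ F : Finset (HeightOneSpectrum (𝓞 K) →₀ ℕ),
      (∀ b ∈ F, Nb b ≤ Y) → (F.card : ℝ) ≤ C * Y ^ (1 + η) := by
  classical
  obtain ⟨C0, hC0, hb⟩ := Pool.Agent.Lib.MP_4d5ce1_nt.sum_nv_bound K (1 + η) (by linarith)
  refine ⟨Real.exp (2 * C0), Real.exp_pos _, ?_⟩
  intro Y hY F hF
  have hY0 : 0 < Y := by linarith
  set W : Finset (HeightOneSpectrum (𝓞 K)) := F.biUnion fun b => b.support with hW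
  have h1 := g2_rankin (1 + η) (by linarith) Y hY W F fun κ hκ =>
    ⟨Finset.subset_biUnion_of_mem (fun b : HeightOneSpectrum (𝓞 K) →₀ ℕ => b.support) hκ, hF κ hκ⟩
  have h2 : ∏ v ∈ W, (1 - nv v ^ (-(1 + η)))⁻¹ ≤ Real.exp (2 * C0) := by
    calc ∏ v ∈ W, (1 - nv v ^ (-(1 + η)))⁻¹ ≤ ∏ v ∈ W, Real.exp (2 * nv v ^ (-(1 + η))) := by
          refine Finset.prod_le_prod (fun v _ => ?_) fun v _ => ?_
          · have := (g2_nv_rpow_lt (1 + η) (by linarith) v).2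
            exact inv_nonneg.2 (by linarith)
          · have hx0 := (g2_nv_rpow_lt (1 + η) (by linarith) v).1
            have hx1 : nv v ^ (-(1 + η)) ≤ 1 / 2 := by
              have h5 : nv v ^ (-(1 + η)) ≤ nv v ^ (-1 : ℝ) :=
                Real.rpow_le_rpow_of_exponent_le (Pool.Agent.Lib.MP_4d5ce1_nt.one_lt_nv v).le
                  (by linarith)
              have h6 := Pool.Agent.Lib.MP_4d5ce1_nt.two_le_nv v
              rw [Real.rpow_neg_one] at h5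
              refine h5.trans ?_
              rw [one_div]
              exact inv_anti₀ (by norm_num) h6
            set x := nv v ^ (-(1 + η)) with hx
            have h7 : (1 - x)⁻¹ ≤ 2 * x + 1 := by
              rw [inv_le_iff_one_le_mul₀ (by linarith)]
              nlinarith
            exact h7.trans (Real.add_one_le_exp _)
      _ = Real.exp (∑ v ∈ W, 2 * nv v ^ (-(1 + η))) := (Real.exp_sum W _).symm
      _ ≤ Real.exp (2 * C0) := by
          rw [Real.exp_le_exp, ← Finset.mul_sum]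
          have := hb W
          linarith
  calc (F.card : ℝ) ≤ Y ^ (1 + η) * ∏ v ∈ W, (1 - nv v ^ (-(1 + η)))⁻¹ := h1
    _ ≤ Y ^ (1 + η) * Real.exp (2 * C0) :=
        mul_le_mul_of_nonneg_left h2 (Real.rpow_nonneg hY0.le _)
    _ = Real.exp (2 * C0) * Y ^ (1 + η) := mul_comm _ _

theorem parts_int {X ι : Type*} [Fintype ι] (A η : ℝ) (hη : 0 < η) :
    ∃ C : ℝ, 0 < C ∧ ∀ T : ℝ, 1 ≤ T → ∀ (F : Finset X) (f : X → ι → ℤ),
      (∀ x ∈ F, ∀ i, |(f x i : ℝ)| ≤ A * (1 + Real.log T)) →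
        Parts F (C * T ^ η) (fun x y => f x = f y) := by
  classical
  set d : ℝ := η / (Fintype.card ι + 1) with hd
  have hd0 : 0 < d := by positivity
  set D : ℝ := 2 * |A| * (1 + 1 / d) + 1 with hD
  have hD0 : 0 < D := by positivity
  refine ⟨D ^ Fintype.card ι, by positivity, ?_⟩
  intro T hT F f hf
  have hT0 : 0 < T := by linarith
  have hlog : 0 ≤ Real.log T := Real.log_nonneg hT
  set R : ℝ := |A| * (1 + Real.log T) with hR
  have hR0 : 0 ≤ R := by positivity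
  refine Parts.of_image F f _ ?_
  have hsub : F.image f ⊆ Fintype.piFinset fun _ : ι => Finset.Icc (-⌊R⌋) ⌊R⌋ := by
    intro z hz
    obtain ⟨x, hx, rfl⟩ := Finset.mem_image.1 hz
    refine Fintype.mem_piFinset.2 fun i => ?_
    have h1 : |(f x i : ℝ)| ≤ R := by
      refine (hf x hx i).trans ?_
      exact mul_le_mul_of_nonneg_right (le_abs_self A) (by positivity)
    rw [abs_le] at h1
    rw [Finset.mem_Icc]
    have h2 : f x i ≤ ⌊R⌋ := Int.le_floor.2 h1.2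
    have h3 : -f x i ≤ ⌊R⌋ := Int.le_floor.2 (by push_cast; linarith)
    exact ⟨by linarith, h2⟩
  have h2 := Finset.card_le_card hsub
  rw [Fintype.card_piFinset, Finset.prod_const, Finset.card_univ, Int.card_Icc] at h2
  have h3 : ((F.image f).card : ℝ) ≤ (((⌊R⌋ + 1 - -⌊R⌋).toNat : ℕ) : ℝ) ^ Fintype.card ι := by
    exact_mod_cast h2
  refine h3.trans ?_
  have h4 : (((⌊R⌋ + 1 - -⌊R⌋).toNat : ℕ) : ℝ) ≤ D * T ^ d := by
    have h5 : 0 ≤ ⌊R⌋ := Int.floor_nonneg.2 hR0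
    have h6 : (((⌊R⌋ + 1 - -⌊R⌋).toNat : ℕ) : ℝ) = 2 * (⌊R⌋ : ℝ) + 1 := by
      have h7 : (((⌊R⌋ + 1 - -⌊R⌋).toNat : ℕ) : ℤ) = 2 * ⌊R⌋ + 1 := by
        rw [Int.toNat_of_nonneg (by linarith)]
        ring
      exact_mod_cast h7
    rw [h6]
    have h8 : (⌊R⌋ : ℝ) ≤ R := Int.floor_le R
    have h9 : (1 : ℝ) ≤ T ^ d := Real.one_le_rpow hT hd0.le
    have h10 : Real.log T ≤ T ^ d / d := Real.log_le_rpow_div hT0.le hd0
    have h11 : R ≤ |A| * (T ^ d + T ^ d / d) := by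
      rw [hR]
      refine mul_le_mul_of_nonneg_left ?_ (abs_nonneg A)
      linarith
    calc 2 * (⌊R⌋ : ℝ) + 1 ≤ 2 * (|A| * (T ^ d + T ^ d / d)) + T ^ d := by linarith
      _ = D * T ^ d := by rw [hD]; ring
  calc (((⌊R⌋ + 1 - -⌊R⌋).toNat : ℕ) : ℝ) ^ Fintype.card ι ≤ (D * T ^ d) ^ Fintype.card ι :=
        pow_le_pow_left₀ (Nat.cast_nonneg _) h4 _
    _ = D ^ Fintype.card ι * (T ^ d) ^ Fintype.card ι := mul_pow _ _ _
    _ ≤ D ^ Fintype.card ι * T ^ η := by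
        refine mul_le_mul_of_nonneg_left ?_ (by positivity)
        rw [← Real.rpow_natCast, ← Real.rpow_mul hT0.le]
        refine Real.rpow_le_rpow_of_exponent_le hT ?_
        rw [hd, div_mul_eq_mul_div, div_le_iff₀ (by positivity)]
        nlinarith

end Pool.Agent.Lib.MP_44a246_ntNG
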