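import Pool.Agent.Lib.MP_44a246_ntNG.Defs
import Pool.Agent.Lib.MP_44a246_ntNF.NF6d

/-!
# MP_44a246_nt: local facts
-/

set_option autoImplicit false

open NumberField IsDedekindDomain Height
open Pool.Agent.Lib.MP_4d5ce1_nt (fa nv ordv fa_pos fa_eq finite_fa_ne_one nv_pos one_lt_nv
  log_nv_pos product_formula fa_zero)
open Pool.Agent.Lib.MP_44a246_ntNF

namespace Pool.Agent.Lib.MP_44a246_ntNG

variable {K : Type*} [Field K] [NumberField K] {n q : ℕ}

theorem exists_zpow_sz (v : HeightOneSpectrum (𝓞 K)) {x : Fin (n + 1) → K} (hx : x ≠ 0) :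
    ∃ m : ℤ, sz v x = nv v ^ m := by
  obtain ⟨i, hi⟩ := exists_sz_eq v x
  have hxi : x i ≠ 0 := by
    intro h0
    rw [h0, fa_zero] at hi
    exact (sz_pos v hx).ne' hi
  exact ⟨-ordv v (x i), by rw [hi, fa_eq v hxi]⟩

theorem finite_sz_ne_one {x : Fin (n + 1) → K} (hx : x ≠ 0) :
    {v : HeightOneSpectrum (𝓞 K) | sz v x ≠ 1}.Finite :=
  MP_44a246_ntNF.finite_sz_ne_one hx

theorem logHeight_eq_sum {x : Fin (n + 1) → K} (hx : x ≠ 0) :
    logHeight x = ∑ w : InfinitePlace K, (w.mult : ℝ) * Real.log (szi w x) +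
      ∑ᶠ v : HeightOneSpectrum (𝓞 K), Real.log (sz v x) :=
  MP_44a246_ntNF.logHeight_eq' hx

theorem ex_spec {L : Fin q → Fin (n + 1) → K} {cc : Finset (Fin q) → Fin q → K}
    {S : Finset (HeightOneSpectrum (𝓞 K))} (hS : Good L cc S) {x : Fin (n + 1) → K} {j : Fin q}
    (hx : lin (L j) x ≠ 0) {v : HeightOneSpectrum (𝓞 K)} (hv : v ∉ S) :
    fa v (lin (L j) x) * nv v ^ (ex L x j v) = sz v x ∧
      lf L x v j = ex L x j v * Real.log (nv v) ∧ (j ∈ IS L x v ↔ ex L x j v ≠ 0) := by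
  have hx0 : x ≠ 0 := ne_zero_of_lin hx
  obtain ⟨m, hm⟩ := exists_zpow_sz v hx0
  have hfa := fa_eq v hx
  have hnv := nv_pos v
  have hnv1 := one_lt_nv v
  have hle := hS.le v hv j x
  rw [hm, hfa, zpow_le_zpow_iff_right₀ hnv1] at hle
  obtain ⟨t, ht⟩ : ∃ t : ℕ, (t : ℤ) = m + ordv v (lin (L j) x) :=
    ⟨(m + ordv v (lin (L j) x)).toNat, Int.toNat_of_nonneg (by omega)⟩
  have hlog := log_nv_pos v
  have hq : sz v x / fa v (lin (L j) x) = nv v ^ t := by
    rw [hm, hfa, ← zpow_sub₀ hnv.ne', ← zpow_natCast, ht]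
    congr 1
    ring
  have hlf : lf L x v j = t * Real.log (nv v) := by
    unfold lf
    rw [hq, Real.log_pow]
  have hex : ex L x j v = t := by
    unfold ex
    rw [hlf, mul_div_assoc, div_self hlog.ne', mul_one, Nat.floor_natCast]
  have hfp := fa_pos v hx
  have hsz : fa v (lin (L j) x) * nv v ^ t = sz v x := by
    rw [← hq, mul_div_cancel₀ _ hfp.ne']
  refine ⟨by rw [hex]; exact hsz, by rw [hex]; exact hlf, ?_⟩
  rw [hex]
  simp only [IS, Finset.mem_filter, Finset.mem_univ, true_and]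
  constructor
  · rintro h rfl
    rw [pow_zero, mul_one] at hsz
    linarith
  · intro h
    rw [← hsz]
    have h1 : 1 < nv v ^ t := one_lt_pow₀ hnv1 h
    nlinarith

theorem fmt_good {L : Fin q → Fin (n + 1) → K} {cc : Finset (Fin q) → Fin q → K}
    {S : Finset (HeightOneSpectrum (𝓞 K))} (hS : Good L cc S) {x : Fin (n + 1) → K}
    (hx : ∀ j, lin (L j) x ≠ 0) (j : Fin q) :
    logHeight x = ∑ I ∈ (Finset.univ : Finset (Finset (Fin q))).filter (fun I => I.Nonempty),
        ∑ v ∈ RR L S x I, (ex L x j v : ℝ) * Real.log (nv v) +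
      ∑ v ∈ S, lf L x v j + ∑ w : InfinitePlace K, (w.mult : ℝ) * li L x w j := by
  classical
  have hx0 : x ≠ 0 := ne_zero_of_lin (hx j)
  have hprod := product_formula (hx j)
  have hli : ∑ w : InfinitePlace K, (w.mult : ℝ) * li L x w j =
      ∑ w : InfinitePlace K, (w.mult : ℝ) * Real.log (szi w x) -
        ∑ w : InfinitePlace K, (w.mult : ℝ) * Real.log (w (lin (L j) x)) := by
    rw [← Finset.sum_sub_distrib]
    refine Finset.sum_congr rfl fun w _ => ?_
    unfold li
    have h1 : 0 < szi w x := az_pos w hx0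
    have h2 : 0 < w (lin (L j) x) := InfinitePlace.pos_iff.mpr (hx j)
    rw [Real.log_div h1.ne' h2.ne']
    ring
  let Y : Finset (HeightOneSpectrum (𝓞 K)) :=
    ((Finset.univ : Finset (Finset (Fin q))).filter (fun I => I.Nonempty)).biUnion
      (fun I => RR L S x I)
  let Z : Finset (HeightOneSpectrum (𝓞 K)) :=
    (finite_sz_ne_one hx0).toFinset ∪ (finite_fa_ne_one (hx j)).toFinset ∪ S ∪ Y
  have h1 : ∑ᶠ v : HeightOneSpectrum (𝓞 K), Real.log (sz v x) = ∑ v ∈ Z, Real.log (sz v x) := by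
    refine finsum_eq_sum_of_support_subset _ ?_
    intro v hv
    have : sz v x ≠ 1 := by
      intro h
      apply hv
      show Real.log (sz v x) = 0
      rw [h, Real.log_one]
    simp only [Z, Finset.coe_union, Set.Finite.coe_toFinset, Set.mem_union]
    exact Or.inl (Or.inl (Or.inl this))
  have h2 : ∑ᶠ v : HeightOneSpectrum (𝓞 K), Real.log (fa v (lin (L j) x)) =
      ∑ v ∈ Z, Real.log (fa v (lin (L j) x)) := by
    refine finsum_eq_sum_of_support_subset _ ?_
    intro v hv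
    have : fa v (lin (L j) x) ≠ 1 := by
      intro h
      apply hv
      show Real.log (fa v (lin (L j) x)) = 0
      rw [h, Real.log_one]
    simp only [Z, Finset.coe_union, Set.Finite.coe_toFinset, Set.mem_union]
    exact Or.inl (Or.inl (Or.inr this))
  have h3 : ∑ v ∈ Z, lf L x v j =
      ∑ v ∈ Z, Real.log (sz v x) - ∑ v ∈ Z, Real.log (fa v (lin (L j) x)) := by
    rw [← Finset.sum_sub_distrib]
    refine Finset.sum_congr rfl fun v _ => ?_
    unfold lf
    rw [Real.log_div (sz_pos v hx0).ne' (fa_pos v (hx j)).ne']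
  have hdisj : Disjoint S Y := by
    rw [Finset.disjoint_left]
    intro v hvS hvY
    simp only [Y, Finset.mem_biUnion, Finset.mem_filter, Finset.mem_univ, true_and] at hvY
    obtain ⟨I, hI, hv⟩ := hvY
    exact ((MP_44a246_ntNF.mem_RR hS hx hI v).1 hv).1 hvS
  have h4 : ∑ v ∈ Z, lf L x v j = ∑ v ∈ S ∪ Y, lf L x v j := by
    symm
    refine Finset.sum_subset ?_ ?_
    · intro v hv
      simp only [Z, Finset.mem_union] at hv ⊢
      rcases hv with h | h
      · exact Or.inl (Or.inr h)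
      · exact Or.inr h
    · intro v _ hv
      rw [Finset.mem_union, not_or] at hv
      obtain ⟨hvS, hvY⟩ := hv
      obtain ⟨-, e2, e3⟩ := ex_spec hS (hx j) hvS
      rw [e2]
      have he : ex L x j v = 0 := by
        by_contra hne
        have hj := e3.2 hne
        apply hvY
        simp only [Y, Finset.mem_biUnion, Finset.mem_filter, Finset.mem_univ, true_and]
        exact ⟨IS L x v, ⟨j, hj⟩, (MP_44a246_ntNF.mem_RR hS hx ⟨j, hj⟩ v).2 ⟨hvS, rfl⟩⟩
      rw [he]
      simp
  have hpd : Set.PairwiseDisjoint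
      (((Finset.univ : Finset (Finset (Fin q))).filter (fun I => I.Nonempty) :
        Finset (Finset (Fin q))) : Set (Finset (Fin q))) (fun I => RR L S x I) := by
    intro I hI I' hI' hne
    rw [Finset.mem_coe, Finset.mem_filter] at hI hI'
    rw [Function.onFun, Finset.disjoint_left]
    intro v hv hv'
    exact hne (((MP_44a246_ntNF.mem_RR hS hx hI.2 v).1 hv).2.symm.trans
      ((MP_44a246_ntNF.mem_RR hS hx hI'.2 v).1 hv').2)
  have h5 : ∑ v ∈ Y, lf L x v j =
      ∑ I ∈ (Finset.univ : Finset (Finset (Fin q))).filter (fun I => I.Nonempty),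
        ∑ v ∈ RR L S x I, (ex L x j v : ℝ) * Real.log (nv v) := by
    rw [Finset.sum_biUnion hpd]
    refine Finset.sum_congr rfl fun I hI => Finset.sum_congr rfl fun v hv => ?_
    rw [Finset.mem_filter] at hI
    have hvS := ((MP_44a246_ntNF.mem_RR hS hx hI.2 v).1 hv).1
    exact (ex_spec hS (hx j) hvS).2.1
  rw [Finset.sum_union hdisj, h5] at h4
  rw [logHeight_eq_sum hx0, h1, hli]
  rw [h2] at hprod
  linarith

end Pool.Agent.Lib.MP_44a246_ntNG
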