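import Pool.Agent.Lib.MP_44a246_ntNG.Defs

/-!
# Packing in dimension two, abstract part
-/

set_option autoImplicit false

open NumberField

namespace Pool.Agent.Lib.MP_44a246_ntNG

namespace Pack

variable (K : Type*) [Field K]

/-- The statement of `arch_grid` for all places. -/
def AG : Prop := ∀ w : InfinitePlace K, ∃ C : ℝ, 0 < C ∧ ∀ A σ : ℝ, 0 < A → 0 < σ → σ ≤ 1 →
    ∃ N : ℕ, (N : ℝ) ≤ C / σ ^ w.mult ∧ ∃ f : K → Fin N, ∀ z z' : K, w z ≤ A → w z' ≤ A →
      f z = f z' → w (z - z') ≤ σ * A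

/-- The degree. -/
noncomputable def dg [NumberField K] : ℕ := ∑ w : InfinitePlace K, w.mult

lemma dg_pos [NumberField K] : 0 < dg K := by
  have hne : Nonempty (InfinitePlace K) := inferInstance
  exact Finset.sum_pos (fun w _ => InfinitePlace.mult_pos) Finset.univ_nonempty

variable {K}

lemma inf_sub_le (w : InfinitePlace K) (a b : K) : w (a - b) ≤ w a + w b := by
  have h := w.1.add_le a (-b)
  rw [← sub_eq_add_neg] at h
  have h2 : w.1 (-b) = w.1 b := w.1.map_neg b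
  rw [h2] at h
  exact h

lemma grid [NumberField K] (h : AG K) : ∃ C : ℝ, 1 ≤ C ∧ ∀ (A : InfinitePlace K → ℝ), (∀ w, 0 < A w) →
    ∀ σ : ℝ, 0 < σ → σ ≤ 1 → ∃ N : ℕ, (N : ℝ) ≤ C / σ ^ dg K ∧ ∃ f : K → Fin N, ∀ z z' : K,
      (∀ w : InfinitePlace K, w z ≤ A w) → (∀ w : InfinitePlace K, w z' ≤ A w) → f z = f z' →
        ∀ w : InfinitePlace K, w (z - z') ≤ σ * A w := by
  classical
  choose C hC hf using h
  refine ⟨max 1 (∏ w, C w), le_max_left _ _, ?_⟩
  intro A hA σ hσ hσ1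
  choose N hN f hfN using fun w => hf w (A w) σ (hA w) hσ hσ1
  refine ⟨Fintype.card (∀ w : InfinitePlace K, Fin (N w)), ?_,
    fun z => Fintype.equivFin _ (fun w => f w z), ?_⟩
  · rw [Fintype.card_pi]
    push_cast
    have h1 : ∏ w : InfinitePlace K, ((Fintype.card (Fin (N w)) : ℕ) : ℝ) ≤
        ∏ w : InfinitePlace K, (C w / σ ^ w.mult) := by
      apply Finset.prod_le_prod
      · intro w _; positivity
      · intro w _
        rw [Fintype.card_fin]
        exact hN w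
    refine h1.trans ?_
    rw [Finset.prod_div_distrib, Finset.prod_pow_eq_pow_sum]
    exact div_le_div_of_nonneg_right (le_max_right _ _) (by positivity)
  · intro z z' hz hz' hzz w
    have h1 := (Fintype.equivFin _).injective hzz
    exact hfN w z z' (hz w) (hz' w) (congrFun h1 w)

/-- relative size at one place -/
noncomputable def rw' (R : InfinitePlace K → ℝ) (w : InfinitePlace K) (u : K × K) : ℝ :=
  max (w u.1) (w u.2) / R w

/-- relative size -/
noncomputable def rr (R : InfinitePlace K → ℝ) (u : K × K) : ℝ := ⨆ w, rw' R w u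

lemma rw'_nonneg {R : InfinitePlace K → ℝ} (hR : ∀ w, 0 < R w) (w : InfinitePlace K) (u : K × K) :
    0 ≤ rw' R w u :=
  div_nonneg (le_max_of_le_left (apply_nonneg w u.1)) (hR w).le

lemma rw'_le_rr [NumberField K] (R : InfinitePlace K → ℝ) (w : InfinitePlace K) (u : K × K) :
    rw' R w u ≤ rr R u :=
  le_ciSup (f := fun w => rw' R w u) (Set.finite_range _).bddAbove w

lemma rr_le [NumberField K] {R : InfinitePlace K → ℝ} {u : K × K} {t : ℝ} (h : ∀ w, rw' R w u ≤ t) :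
    rr R u ≤ t := by
  have hne : Nonempty (InfinitePlace K) := inferInstance
  exact ciSup_le h

lemma rw'_pos {R : InfinitePlace K → ℝ} (hR : ∀ w, 0 < R w) (w : InfinitePlace K) {u : K × K}
    (hu : u ≠ 0) : 0 < rw' R w u := by
  refine div_pos ?_ (hR w)
  by_contra hc
  rw [not_lt, max_le_iff] at hc
  apply hu
  have h1 : w u.1 = 0 := le_antisymm hc.1 (apply_nonneg w _)
  have h2 : w u.2 = 0 := le_antisymm hc.2 (apply_nonneg w _)
  exact Prod.ext ((map_eq_zero w).1 h1) ((map_eq_zero w).1 h2)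

lemma rw'_smul (R : InfinitePlace K → ℝ) (w : InfinitePlace K) (t : K) (u : K × K) :
    rw' R w (t * u.1, t * u.2) = w t * rw' R w u := by
  unfold rw'
  simp only [map_mul]
  rw [← mul_max_of_nonneg _ _ (apply_nonneg w t), mul_div_assoc]

/-- Points on a line whose differences are at least `r₁`. -/
lemma line_card [NumberField K] {C : ℝ}
    (hg : ∀ (A : InfinitePlace K → ℝ), (∀ w, 0 < A w) →
      ∀ σ : ℝ, 0 < σ → σ ≤ 1 → ∃ N : ℕ, (N : ℝ) ≤ C / σ ^ dg K ∧ ∃ f : K → Fin N, ∀ z z' : K,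
      (∀ w : InfinitePlace K, w z ≤ A w) → (∀ w : InfinitePlace K, w z' ≤ A w) → f z = f z' →
        ∀ w : InfinitePlace K, w (z - z') ≤ σ * A w)
    (hC : 1 ≤ C) {R : InfinitePlace K → ℝ} (hR : ∀ w, 0 < R w) (Y : Finset (K × K)) {u : K × K}
    (hu : u ≠ 0) {r₁ ρ : ℝ} (hr : 0 < r₁) (hρ : r₁ ≤ 2 * ρ)
    (hmin : ∀ p ∈ Y, ∀ s ∈ Y, p ≠ s → r₁ ≤ rr R (p - s))
    (hmax : ∀ p ∈ Y, ∀ s ∈ Y, rr R (p - s) ≤ ρ)
    (hpar : ∀ p ∈ Y, ∀ s ∈ Y, ∃ t : K, p - s = (t * u.1, t * u.2)) :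
    (Y.card : ℝ) ≤ C * (2 * ρ / r₁) ^ dg K := by
  classical
  have hρ0 : 0 < ρ := by linarith
  rcases Y.eq_empty_or_nonempty with rfl | ⟨p₀, hp₀⟩
  · simp only [Finset.card_empty, Nat.cast_zero]
    positivity
  obtain ⟨N, hN, f, hf⟩ := hg (fun w => ρ / rw' R w u)
    (fun w => div_pos hρ0 (rw'_pos hR w hu)) (r₁ / (2 * ρ)) (by positivity)
    (by rw [div_le_one (by positivity)]; exact hρ)
  choose! t ht using fun p (hp : p ∈ Y) => hpar p hp p₀ hp₀
  have hinj : Set.InjOn (fun p => f (t p)) (Y : Set (K × K)) := by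
    intro p hp s hs hps
    by_contra hne
    have hA : ∀ p ∈ Y, ∀ w : InfinitePlace K, w (t p) ≤ ρ / rw' R w u := by
      intro p hp w
      rw [le_div_iff₀ (rw'_pos hR w hu), ← rw'_smul, ← ht p hp]
      exact (rw'_le_rr R w _).trans (hmax p hp p₀ hp₀)
    have h1 := hf (t p) (t s) (hA p hp) (hA s hs) hps
    have h2 : p - s = ((t p - t s) * u.1, (t p - t s) * u.2) := by
      have e1 := ht p hp
      have e2 := ht s hs
      have e3 : p - s = (p - p₀) - (s - p₀) := by abel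
      rw [e3, e1, e2]
      ext <;> simp [sub_mul]
    have h3 : rr R (p - s) ≤ r₁ / 2 := by
      apply rr_le
      intro w
      rw [h2, rw'_smul]
      have h4 := h1 w
      have h5 := rw'_pos hR w hu
      calc w (t p - t s) * rw' R w u ≤ (r₁ / (2 * ρ) * (ρ / rw' R w u)) * rw' R w u :=
            mul_le_mul_of_nonneg_right h4 h5.le
        _ = r₁ / 2 := by field_simp
    have h6 := hmin p hp s hs hne
    linarith
  have h7 : Y.card ≤ N := by
    have := Finset.card_le_card_of_injOn (s := Y) (t := (Finset.univ : Finset (Fin N)))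
      (fun p => f (t p)) (fun _ _ => Finset.mem_coe.2 (Finset.mem_univ _)) hinj
    simpa using this
  calc (Y.card : ℝ) ≤ N := by exact_mod_cast h7
    _ ≤ C / (r₁ / (2 * ρ)) ^ dg K := hN
    _ = C * (2 * ρ / r₁) ^ dg K := by
        rw [div_pow, div_pow]
        field_simp

/-- Parallel vectors. -/
lemma exists_par {u v : K × K} (hu : u ≠ 0) (h : v.1 * u.2 = v.2 * u.1) :
    ∃ t : K, v = (t * u.1, t * u.2) := by
  by_cases h1 : u.1 = 0
  · have h2 : u.2 ≠ 0 := fun h2 => hu (Prod.ext h1 h2)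
    refine ⟨v.2 / u.2, ?_⟩
    rw [h1, mul_zero] at h
    have h3 : v.1 = 0 := by
      rcases mul_eq_zero.1 h with h | h
      · exact h
      · exact absurd h h2
    ext
    · simp [h1, h3]
    · simp [div_mul_cancel₀ _ h2]
  · refine ⟨v.1 / u.1, ?_⟩
    ext
    · simp [div_mul_cancel₀ _ h1]
    · simp only
      rw [div_mul_eq_mul_div, h, mul_div_assoc, div_self h1, mul_one]

end Pack

open Pack

/-- Packing in dimension two. -/
theorem pack_abs_of (K : Type*) [Field K] [NumberField K] (hAG : AG K) : ∃ C : ℝ, 0 < C ∧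
    ∀ (R : InfinitePlace K → ℝ), (∀ w, 0 < R w) → ∀ X : Finset (K × K),
    (∀ p ∈ X, ∀ w : InfinitePlace K, w p.1 ≤ R w ∧ w p.2 ≤ R w) → ∀ lam : ℝ, 0 < lam →
    (∀ p ∈ X, ∀ p' ∈ X, ∀ s ∈ X, ∀ s' ∈ X,
      (p.1 - p'.1) * (s.2 - s'.2) ≠ (p.2 - p'.2) * (s.1 - s'.1) →
      lam ≤ ∏ w : InfinitePlace K, ((max (w (p.1 - p'.1)) (w (p.2 - p'.2)) / R w) *
        (max (w (s.1 - s'.1)) (w (s.2 - s'.2)) / R w)) ^ w.mult) →
    (X.card : ℝ) ≤ C * max 1 (1 / lam) ∨
    ∃ p ∈ X, ∃ s ∈ X, p ≠ s ∧ (X.card : ℝ) *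
      ∏ w : InfinitePlace K, (max (w (p.1 - s.1)) (w (p.2 - s.2)) / R w) ^ w.mult ≤ C := by
  classical
  obtain ⟨G, hG, hg⟩ := grid hAG
  set d := dg K with hd
  have hdpos : 0 < d := dg_pos K
  have hG0 : 0 < G := by linarith
  refine ⟨G ^ 3 * (4 ^ d) ^ 2 * 2 ^ d, by positivity, ?_⟩
  intro R hR X hX lam hlam hD
  have h2d : (1 : ℝ) ≤ 2 ^ d := one_le_pow₀ (by norm_num)
  have h4d : (1 : ℝ) ≤ 4 ^ d := one_le_pow₀ (by norm_num)
  have hC1 : 1 ≤ G ^ 3 * ((4 : ℝ) ^ d) ^ 2 * 2 ^ d := by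
    have := one_le_pow₀ (n := 3) hG
    have h4 := one_le_pow₀ (n := 2) h4d
    have h5 : (1 : ℝ) ≤ G ^ 3 * ((4 : ℝ) ^ d) ^ 2 := by nlinarith
    nlinarith
  by_cases hcard : X.card ≤ 1
  · left
    have h1 : (X.card : ℝ) ≤ 1 := by exact_mod_cast hcard
    have h2 : (1 : ℝ) ≤ max 1 (1 / lam) := le_max_left _ _
    calc (X.card : ℝ) ≤ 1 * 1 := by linarith
      _ ≤ _ := mul_le_mul hC1 h2 zero_le_one (by linarith)
  have hoff : X.offDiag.Nonempty := by
    obtain ⟨a, ha, b, hb, hab⟩ := Finset.one_lt_card.1 (show 1 < X.card by omega)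
    exact ⟨(a, b), Finset.mem_offDiag.2 ⟨ha, hb, hab⟩⟩
  obtain ⟨⟨p₁, s₁⟩, hps₁, hmin'⟩ := Finset.exists_min_image X.offDiag
    (fun z => rr R (z.1 - z.2)) hoff
  rw [Finset.mem_offDiag] at hps₁
  obtain ⟨hp₁, hs₁, hne₁⟩ := hps₁
  simp only at hp₁ hs₁ hne₁ hmin'
  set u := p₁ - s₁ with hu
  have hu0 : u ≠ 0 := sub_ne_zero.2 hne₁
  set r₁ := rr R u with hr₁
  have hne : Nonempty (InfinitePlace K) := inferInstance
  have hr0 : 0 < r₁ := by
    obtain ⟨w⟩ := hne
    exact (rw'_pos hR w hu0).trans_le (rw'_le_rr R w u)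
  have hmin : ∀ p ∈ X, ∀ s ∈ X, p ≠ s → r₁ ≤ rr R (p - s) := by
    intro p hp s hs hps
    exact hmin' (p, s) (Finset.mem_offDiag.2 ⟨hp, hs, hps⟩)
  have hmax : ∀ p ∈ X, ∀ s ∈ X, rr R (p - s) ≤ 2 := by
    intro p hp s hs
    apply rr_le
    intro w
    unfold rw'
    rw [div_le_iff₀ (hR w)]
    obtain ⟨a1, a2⟩ := hX p hp w
    obtain ⟨b1, b2⟩ := hX s hs w
    apply max_le
    · have := inf_sub_le w p.1 s.1
      simp only [Prod.fst_sub]
      linarith
    · have := inf_sub_le w p.2 s.2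
      simp only [Prod.snd_sub]
      linarith
  have hr2 : r₁ ≤ 2 := hmax p₁ hp₁ s₁ hs₁
  -- the number s
  obtain ⟨s, hs0, hsd⟩ : ∃ s : ℝ, 0 < s ∧ s ^ d * r₁ ^ d = lam := by
    refine ⟨(lam / r₁ ^ d) ^ ((d : ℝ)⁻¹), by positivity, ?_⟩
    rw [Real.rpow_inv_natCast_pow (by positivity) hdpos.ne']
    field_simp
  have hkey : ∀ p ∈ X, ∀ p' ∈ X, rr R (p - p') < s → ∃ t : K, p - p' = (t * u.1, t * u.2) := by
    intro p hp p' hp' hlt
    apply exists_par hu0
    by_contra hcross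
    have h1 := hD p hp p' hp' p₁ hp₁ s₁ hs₁ hcross
    have h0 : 0 ≤ rr R (p - p') := by
      obtain ⟨w⟩ := hne
      exact (rw'_nonneg hR w _).trans (rw'_le_rr R w _)
    have h2 : ∏ w : InfinitePlace K, ((max (w (p.1 - p'.1)) (w (p.2 - p'.2)) / R w) *
        (max (w (p₁.1 - s₁.1)) (w (p₁.2 - s₁.2)) / R w)) ^ w.mult ≤
        ∏ w : InfinitePlace K, (rr R (p - p') * r₁) ^ w.mult := by
      apply Finset.prod_le_prod
      · intro w _
        exact pow_nonneg (mul_nonneg (rw'_nonneg hR w (p - p')) (rw'_nonneg hR w u)) _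
      · intro w _
        exact pow_le_pow_left₀ (mul_nonneg (rw'_nonneg hR w (p - p')) (rw'_nonneg hR w u))
          (mul_le_mul (rw'_le_rr R w (p - p')) (rw'_le_rr R w u) (rw'_nonneg hR w u) h0) _
    rw [Finset.prod_pow_eq_pow_sum] at h2
    have h3 : lam ≤ (rr R (p - p') * r₁) ^ d := h1.trans h2
    rw [mul_pow, ← hsd] at h3
    have h4 : s ^ d ≤ rr R (p - p') ^ d := le_of_mul_le_mul_right h3 (by positivity)
    have := pow_lt_pow_left₀ hlt h0 hdpos.ne'
    linarith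
  -- the grid on `X`
  have hgrid : ∀ σ : ℝ, 0 < σ → σ ≤ 1 → ∃ (N : ℕ) (f : K × K → Fin N × Fin N),
      (N : ℝ) ≤ G / σ ^ d ∧ ∀ p ∈ X, ∀ s ∈ X, f p = f s → rr R (p - s) ≤ σ := by
    intro σ hσ hσ1
    obtain ⟨N, hN, f, hf⟩ := hg R hR σ hσ hσ1
    refine ⟨N, fun p => (f p.1, f p.2), hN, ?_⟩
    intro p hp s hs hps
    rw [Prod.mk.injEq] at hps
    apply rr_le
    intro w
    unfold rw'
    rw [div_le_iff₀ (hR w)]
    apply max_le
    · exact hf p.1 s.1 (fun w => (hX p hp w).1) (fun w => (hX s hs w).1) hps.1 w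
    · exact hf p.2 s.2 (fun w => (hX p hp w).2) (fun w => (hX s hs w).2) hps.2 w
  by_cases hs2 : 2 < s
  · -- all on a line
    right
    refine ⟨p₁, hp₁, s₁, hs₁, hne₁, ?_⟩
    have h1 := line_card hg hG hR X hu0 (ρ := 2) hr0 (by linarith) hmin hmax
      (fun p hp s hs => hkey p hp s hs ((hmax p hp s hs).trans_lt hs2))
    have h2 : ∏ w : InfinitePlace K, (max (w (p₁.1 - s₁.1)) (w (p₁.2 - s₁.2)) / R w) ^ w.mult ≤
        r₁ ^ d := by
      rw [hd]
      unfold dg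
      rw [← Finset.prod_pow_eq_pow_sum]
      apply Finset.prod_le_prod
      · intro w _
        exact pow_nonneg (rw'_nonneg hR w u) _
      · intro w _
        exact pow_le_pow_left₀ (rw'_nonneg hR w u) (rw'_le_rr R w u) _
    calc (X.card : ℝ) * _ ≤ (G * (2 * 2 / r₁) ^ d) * r₁ ^ d :=
          mul_le_mul h1 h2 (Finset.prod_nonneg fun w _ => pow_nonneg (rw'_nonneg hR w u) _)
            (by positivity)
      _ = G * 4 ^ d := by
          rw [div_pow]
          have : r₁ ^ d ≠ 0 := by positivity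
          field_simp
          norm_num
      _ ≤ G ^ 3 * (4 ^ d) ^ 2 * 2 ^ d := by
          have e1 : G ≤ G ^ 3 := by nlinarith [mul_pos hG0 hG0]
          have e2 : (4 : ℝ) ^ d ≤ (4 ^ d) ^ 2 := by nlinarith
          calc G * 4 ^ d ≤ G ^ 3 * (4 ^ d) ^ 2 := mul_le_mul e1 e2 (by positivity) (by positivity)
            _ ≤ G ^ 3 * (4 ^ d) ^ 2 * 2 ^ d := le_mul_of_one_le_right (by positivity) h2d
  rw [not_lt] at hs2
  left
  have hmul : (1 : ℝ) / lam ≤ max 1 (1 / lam) := le_max_right _ _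
  suffices h : (X.card : ℝ) ≤ G ^ 3 * (4 ^ d) ^ 2 * 2 ^ d * (1 / lam) from
    h.trans (mul_le_mul_of_nonneg_left hmul (by positivity))
  rcases le_or_gt s r₁ with hsr | hsr
  · obtain ⟨N, f, hN, hf⟩ := hgrid (r₁ / 4) (by positivity) (by linarith)
    have hinj : Set.InjOn f (X : Set (K × K)) := by
      intro p hp s hs hps
      by_contra hne
      have h1 := hf p hp s hs hps
      have h2 := hmin p hp s hs hne
      linarith
    have h1 : X.card ≤ N * N := by
      have := Finset.card_le_card_of_injOn (s := X)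
        (t := (Finset.univ : Finset (Fin N × Fin N))) f
        (fun _ _ => Finset.mem_coe.2 (Finset.mem_univ _)) hinj
      simpa using this
    have h2 : (X.card : ℝ) ≤ N * N := by exact_mod_cast h1
    have h3 : (N : ℝ) * N ≤ (G / (r₁ / 4) ^ d) * (G / (r₁ / 4) ^ d) :=
      mul_le_mul hN hN (Nat.cast_nonneg _) (by positivity)
    have h4 : lam ≤ r₁ ^ d * r₁ ^ d := by
      rw [← hsd]
      exact mul_le_mul_of_nonneg_right (pow_le_pow_left₀ hs0.le hsr d) (by positivity)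
    have h5 : (G / (r₁ / 4) ^ d) * (G / (r₁ / 4) ^ d) = G ^ 2 * (4 ^ d) ^ 2 *
        (1 / (r₁ ^ d * r₁ ^ d)) := by
      rw [div_pow]
      field_simp
    have h6 : 1 / (r₁ ^ d * r₁ ^ d) ≤ 1 / lam := one_div_le_one_div_of_le hlam h4
    calc (X.card : ℝ) ≤ G ^ 2 * (4 ^ d) ^ 2 * (1 / (r₁ ^ d * r₁ ^ d)) := by
          rw [← h5]; exact h2.trans h3
      _ ≤ G ^ 2 * (4 ^ d) ^ 2 * (1 / lam) := mul_le_mul_of_nonneg_left h6 (by positivity)
      _ ≤ G ^ 3 * (4 ^ d) ^ 2 * 2 ^ d * (1 / lam) := by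
          apply mul_le_mul_of_nonneg_right _ (by positivity)
          have e1 : G ^ 2 ≤ G ^ 3 := pow_le_pow_right₀ hG (by norm_num)
          calc G ^ 2 * ((4 : ℝ) ^ d) ^ 2 ≤ G ^ 3 * (4 ^ d) ^ 2 :=
                mul_le_mul_of_nonneg_right e1 (by positivity)
            _ ≤ G ^ 3 * (4 ^ d) ^ 2 * 2 ^ d := le_mul_of_one_le_right (by positivity) h2d
  · obtain ⟨N, f, hN, hf⟩ := hgrid (s / 4) (by positivity) (by linarith)
    have hfib : ∀ b ∈ (Finset.univ : Finset (Fin N × Fin N)),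
        ((X.filter fun p => f p = b).card : ℝ) ≤ G * (2 * s / r₁) ^ d := by
      intro b _
      apply line_card hg hG hR (X.filter fun p => f p = b) hu0 hr0 (by linarith)
      · intro p hp s hs
        exact hmin p (Finset.mem_filter.1 hp).1 s (Finset.mem_filter.1 hs).1
      · intro p hp q hq
        rw [Finset.mem_filter] at hp hq
        have := hf p hp.1 q hq.1 (hp.2.trans hq.2.symm)
        linarith
      · intro p hp q hq
        rw [Finset.mem_filter] at hp hq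
        apply hkey p hp.1 q hq.1
        have := hf p hp.1 q hq.1 (hp.2.trans hq.2.symm)
        linarith
    have h1 : (X.card : ℝ) ≤ (N * N) * (G * (2 * s / r₁) ^ d) := by
      have e1 := Finset.card_eq_sum_card_fiberwise (f := f) (s := X)
        (t := (Finset.univ : Finset (Fin N × Fin N))) (fun _ _ => Finset.mem_coe.2
          (Finset.mem_univ _))
      have e2 : (X.card : ℝ) = ∑ b : Fin N × Fin N, ((X.filter fun p => f p = b).card : ℝ) := by
        rw [e1]; push_cast; rfl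
      rw [e2]
      refine (Finset.sum_le_card_nsmul _ _ _ hfib).trans ?_
      rw [nsmul_eq_mul]
      simp
    have h3 : (N : ℝ) * N ≤ (G / (s / 4) ^ d) * (G / (s / 4) ^ d) :=
      mul_le_mul hN hN (Nat.cast_nonneg _) (by positivity)
    calc (X.card : ℝ) ≤ ((G / (s / 4) ^ d) * (G / (s / 4) ^ d)) * (G * (2 * s / r₁) ^ d) :=
          h1.trans (mul_le_mul_of_nonneg_right h3 (by positivity))
      _ = G ^ 3 * (4 ^ d) ^ 2 * 2 ^ d * (1 / lam) := by
          rw [← hsd, div_pow, div_pow, mul_pow]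
          have e1 : s ^ d ≠ 0 := by positivity
          have e2 : r₁ ^ d ≠ 0 := by positivity
          field_simp
      _ ≤ _ := le_rfl

end Pool.Agent.Lib.MP_44a246_ntNG
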