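import Pool.Agent.Lib.MP_44a246_ntNG.Defs

/-!
# G7c: directions

Two vectors of small height on the plane `M = {L_j = 0, j ∈ J}` which satisfy the congruences of the
same code of large norm are parallel.
-/

set_option autoImplicit false
set_option linter.unusedSectionVars false

open NumberField IsDedekindDomain Height
open Pool.Agent.Lib.MP_4d5ce1_nt (fa nv ordv)
open Pool.Agent.Lib.MP_44a246_ntNF

namespace Pool.Agent.Lib.MP_44a246_ntNG

variable {K : Type*} [Field K] [NumberField K] {n q : ℕ}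

private lemma g7c_fa_le_sz (v : HeightOneSpectrum (𝓞 K)) (x : Fin (n + 1) → K) (i : Fin (n + 1)) :
    fa v (x i) ≤ sz v x :=
  le_ciSup (f := fun i => fa v (x i)) (Set.finite_range _).bddAbove i

private lemma g7c_sz_nonneg (v : HeightOneSpectrum (𝓞 K)) (x : Fin (n + 1) → K) : 0 ≤ sz v x :=
  (Pool.Agent.Lib.MP_4d5ce1_nt.fa_nonneg v (x 0)).trans (g7c_fa_le_sz v x 0)

private lemma g7c_le_szi (w : InfinitePlace K) (x : Fin (n + 1) → K) (i : Fin (n + 1)) :
    w (x i) ≤ szi w x :=
  le_ciSup (f := fun i => w (x i)) (Set.finite_range _).bddAbove i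

private lemma g7c_szi_nonneg (w : InfinitePlace K) (x : Fin (n + 1) → K) : 0 ≤ szi w x :=
  (apply_nonneg w (x 0)).trans (g7c_le_szi w x 0)

private lemma g7c_w_add (w : InfinitePlace K) (x y : K) : w (x + y) ≤ w x + w y :=
  w.1.add_le x y

private lemma g7c_w_sub (w : InfinitePlace K) (x y : K) : w (x - y) ≤ w x + w y := by
  rw [sub_eq_add_neg]
  have h1 := g7c_w_add w x (-y)
  have h2 : w (-y) = w y := w.1.map_neg y
  rwa [h2] at h1

private lemma g7c_fa_lin_le (v : HeightOneSpectrum (𝓞 K)) (a x : Fin (n + 1) → K) :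
    fa v (lin a x) ≤ sz v a * sz v x := by
  unfold lin
  refine Pool.Agent.Lib.MP_4d5ce1_nt.fa_sum_le v Finset.univ _ _
    (mul_nonneg (g7c_sz_nonneg v a) (g7c_sz_nonneg v x)) fun i _ => ?_
  rw [Pool.Agent.Lib.MP_4d5ce1_nt.fa_mul]
  exact mul_le_mul (g7c_fa_le_sz v a i) (g7c_fa_le_sz v x i)
    (Pool.Agent.Lib.MP_4d5ce1_nt.fa_nonneg v _) (g7c_sz_nonneg v a)

private lemma g7c_w_lin_le (w : InfinitePlace K) (a x : Fin (n + 1) → K) :
    w (lin a x) ≤ (∑ i, w (a i)) * szi w x := by
  unfold lin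
  calc w (∑ i, a i * x i) ≤ ∑ i, w (a i * x i) := by
        have : ∀ s : Finset (Fin (n + 1)), w (∑ i ∈ s, a i * x i) ≤ ∑ i ∈ s, w (a i * x i) := by
          intro s
          classical
          induction s using Finset.induction_on with
          | empty => simp
          | insert i s hi ih =>
            rw [Finset.sum_insert hi, Finset.sum_insert hi]
            exact (g7c_w_add w _ _).trans (by linarith)
        exact this _
    _ ≤ ∑ i, w (a i) * szi w x := by
        refine Finset.sum_le_sum fun i _ => ?_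
        rw [map_mul]
        exact mul_le_mul_of_nonneg_left (g7c_le_szi w x i) (apply_nonneg w _)
    _ = (∑ i, w (a i)) * szi w x := by rw [Finset.sum_mul]

private lemma g7c_finite_sz {x : Fin (n + 1) → K} (hx : x ≠ 0) :
    {v : HeightOneSpectrum (𝓞 K) | sz v x ≠ 1}.Finite := by
  classical
  obtain ⟨i₀, hi₀⟩ : ∃ i, x i ≠ 0 := by
    by_contra h
    push Not at h
    exact hx (funext h)
  have hfin : (⋃ i ∈ (Finset.univ.filter fun i => x i ≠ 0 : Finset (Fin (n + 1))),
      {v : HeightOneSpectrum (𝓞 K) | fa v (x i) ≠ 1}).Finite := by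
    refine Set.Finite.biUnion (Finset.finite_toSet _) fun i hi => ?_
    refine Pool.Agent.Lib.MP_4d5ce1_nt.finite_fa_ne_one ?_
    simpa using hi
  refine hfin.subset ?_
  intro v hv
  by_contra hno
  apply hv
  simp only [Set.mem_iUnion, not_exists] at hno
  have h1 : ∀ i, x i ≠ 0 → fa v (x i) = 1 := by
    intro i hi
    by_contra h
    exact hno i (by simpa using hi) h
  refine le_antisymm ?_ ?_
  · refine ciSup_le fun i => ?_
    by_cases hi : x i = 0
    · rw [hi, Pool.Agent.Lib.MP_4d5ce1_nt.fa_zero]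
      exact zero_le_one
    · exact (h1 i hi).le
  · rw [← h1 i₀ hi₀]
    exact g7c_fa_le_sz v x i₀

private lemma g7c_mulHeight {x : Fin (n + 1) → K} (hx : x ≠ 0) :
    mulHeight x = (∏ w : InfinitePlace K, szi w x ^ w.mult) *
      ∏ᶠ v : HeightOneSpectrum (𝓞 K), sz v x := by
  rw [NumberField.mulHeight_eq hx]
  congr 1
  rw [← finprod_comp_equiv (FinitePlace.equivHeightOneSpectrum (K := K)).symm]
  rfl

private lemma g7c_product {x : K} (hx : x ≠ 0) :
    (∏ w : InfinitePlace K, w x ^ w.mult) * ∏ᶠ v : HeightOneSpectrum (𝓞 K), fa v x = 1 := by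
  have h := NumberField.prod_abs_eq_one (K := K) hx
  have hfin : ∏ᶠ w : FinitePlace K, w x =
      ∏ᶠ v : HeightOneSpectrum (𝓞 K), fa v x := by
    rw [← finprod_comp_equiv (FinitePlace.equivHeightOneSpectrum (K := K)).symm]
    rfl
  rw [hfin] at h
  exact h

private lemma g7c_lin_sub (a x y : Fin (n + 1) → K) : lin a (x - y) = lin a x - lin a y := by
  unfold lin
  simp only [Pi.sub_apply, mul_sub, Finset.sum_sub_distrib]

private lemma g7c_lin_smul (a x : Fin (n + 1) → K) (t : K) : lin a (t • x) = t * lin a x := by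
  unfold lin
  rw [Finset.mul_sum]
  apply Finset.sum_congr rfl
  intro i _
  simp only [Pi.smul_apply, smul_eq_mul]
  ring

private lemma g7c_eq_zero {L : Fin (n + 1) → Fin (n + 1) → K} (hL : LinearIndependent K L)
    {x : Fin (n + 1) → K} (h : ∀ i, lin (L i) x = 0) : x = 0 := by
  have h1 : IsUnit (Matrix.of L).det := by
    have := (Matrix.linearIndependent_rows_iff_isUnit (A := Matrix.of L)).mp hL
    exact (Matrix.isUnit_iff_isUnit_det _).mp this
  have h2 : (Matrix.of L).mulVec x = 0 := by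
    funext i
    exact h i
  exact Matrix.eq_zero_of_mulVec_eq_zero h1.ne_zero h2

/-- A vector at which all forms of a set with `n + 1` elements vanish is zero. -/
private lemma g7c_eq_zero' {L : Fin q → Fin (n + 1) → K}
    (hL : ∀ J : Fin (n + 1) → Fin q, Function.Injective J →
      LinearIndependent K (fun i => L (J i))) {E : Finset (Fin q)} (hE : E.card = n + 1)
    {x : Fin (n + 1) → K} (h : ∀ j ∈ E, lin (L j) x = 0) : x = 0 := by
  have e := (E.equivFinOfCardEq hE).symm
  refine g7c_eq_zero (hL (fun i => (e i : Fin q)) ?_) fun i => h _ (e i).2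
  intro i i' hii
  exact e.injective (Subtype.ext hii)

/-- The value of a relation at a vector. -/
private lemma g7c_rel {L : Fin q → Fin (n + 1) → K} {c : Fin q → K} (h : ∑ j, c j • L j = 0)
    (x : Fin (n + 1) → K) : ∑ j, c j * lin (L j) x = 0 := by
  have h1 : ∑ j, c j * lin (L j) x = ∑ i, (∑ j, c j • L j) i * x i := by
    unfold lin
    simp only [Finset.mul_sum, Finset.sum_apply, Pi.smul_apply, smul_eq_mul, Finset.sum_mul]
    rw [Finset.sum_comm]
    refine Finset.sum_congr rfl fun i _ => Finset.sum_congr rfl fun j _ => ?_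
    ring
  rw [h1, h]
  simp

/-- The relation between three forms on the plane where the forms in `J` vanish. -/
private lemma g7c_rel3 {L : Fin q → Fin (n + 1) → K} {c : Fin q → K} {J : Finset (Fin q)}
    {i₁ i₂ j : Fin q} (h12 : i₁ ≠ i₂) (hj1 : j ≠ i₁) (hj2 : j ≠ i₂)
    (h : ∑ j, c j • L j = 0) (hs : ∀ l, c l ≠ 0 → l ∈ J ∨ l = i₁ ∨ l = i₂ ∨ l = j)
    {x : Fin (n + 1) → K} (hx : ∀ l ∈ J, lin (L l) x = 0) :
    c i₁ * lin (L i₁) x + c i₂ * lin (L i₂) x + c j * lin (L j) x = 0 := by
  classical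
  have h0 := g7c_rel h x
  have h3 : ∑ l, c l * lin (L l) x = ∑ l ∈ ({i₁, i₂, j} : Finset (Fin q)), c l * lin (L l) x := by
    symm
    refine Finset.sum_subset (Finset.subset_univ _) ?_
    intro l _ hl
    simp only [Finset.mem_insert, Finset.mem_singleton, not_or] at hl
    by_cases hc : c l = 0
    · rw [hc, zero_mul]
    · rcases hs l hc with h | h | h | h
      · rw [hx l h, mul_zero]
      · exact absurd h hl.1
      · exact absurd h hl.2.1
      · exact absurd h hl.2.2
  rw [h3, Finset.sum_insert (by simp [h12, hj1.symm]), Finset.sum_insert (by simp [hj2.symm]),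
    Finset.sum_singleton] at h0
  linear_combination h0

private lemma g7c_Nb_eq (b : HeightOneSpectrum (𝓞 K) →₀ ℕ)
    {W : Finset (HeightOneSpectrum (𝓞 K))} (h : b.support ⊆ W) :
    Nb b = ∏ v ∈ W, nv v ^ b v := by
  unfold Nb
  refine Finset.prod_subset h ?_
  intro v _ hv
  rw [Finsupp.notMem_support_iff.1 hv, pow_zero]

/-- If the products of the two pairs are small, so is the determinant. -/
private lemma g7c_det_le (v : HeightOneSpectrum (𝓞 K)) {a b a' b' : K} {M : ℝ}
    (h1 : fa v a * fa v b' ≤ M) (h2 : fa v b * fa v a' ≤ M) : fa v (a * b' - b * a') ≤ M := by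
  refine (Pool.Agent.Lib.MP_4d5ce1_nt.fa_sub_le v _ _).trans (max_le ?_ ?_)
  · rw [Pool.Agent.Lib.MP_4d5ce1_nt.fa_mul]
    exact h1
  · rw [Pool.Agent.Lib.MP_4d5ce1_nt.fa_mul]
    exact h2

/-- G7c: two vectors which satisfy the congruences of a code of large norm are parallel. -/
theorem direction_unique {L : Fin q → Fin (n + 1) → K} {cc : Finset (Fin q) → Fin q → K}
    {S : Finset (HeightOneSpectrum (𝓞 K))} (hq : n + 1 ≤ q)
    (hL : ∀ J : Fin (n + 1) → Fin q, Function.Injective J →
      LinearIndependent K (fun i => L (J i))) (hcc : IsRel L cc) (hS : Good L cc S) :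
    ∃ C : ℝ, 0 < C ∧ ∀ J : Finset (Fin q), J.card + 1 = n → ∀ u u' : Fin (n + 1) → K, u ≠ 0 →
      u' ≠ 0 → (∀ j ∈ J, lin (L j) u = 0) → (∀ j ∈ J, lin (L j) u' = 0) →
      ∀ f, IsCode S J f → Close L f u → Close L f u' →
      C * (mulHeight u * mulHeight u') < Nc f → ∃ t : K, u' = t • u := by
  classical
  set A : InfinitePlace K → ℝ := fun w => 1 + ∑ j, ∑ i, w (L j i) with hA
  set B : HeightOneSpectrum (𝓞 K) → ℝ := fun v => 1 + ∑ j, sz v (L j) with hB
  have hA0 : ∀ w, 0 < A w := fun w => by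
    have : 0 ≤ ∑ j, ∑ i, w (L j i) :=
      Finset.sum_nonneg fun j _ => Finset.sum_nonneg fun i _ => apply_nonneg w _
    simp only [hA]
    linarith
  have hB0 : ∀ v, 0 < B v := fun v => by
    have : 0 ≤ ∑ j, sz v (L j) := Finset.sum_nonneg fun j _ => g7c_sz_nonneg v _
    simp only [hB]
    linarith
  have hAj : ∀ w j (x : Fin (n + 1) → K), w (lin (L j) x) ≤ A w * szi w x := by
    intro w j x
    refine (g7c_w_lin_le w (L j) x).trans (mul_le_mul_of_nonneg_right ?_ (g7c_szi_nonneg w x))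
    have := Finset.single_le_sum (f := fun j => ∑ i, w (L j i))
      (fun j _ => Finset.sum_nonneg fun i _ => apply_nonneg w _) (Finset.mem_univ j)
    simp only [hA] at this ⊢
    linarith
  have hBj : ∀ v j (x : Fin (n + 1) → K), fa v (lin (L j) x) ≤ B v * sz v x := by
    intro v j x
    refine (g7c_fa_lin_le v (L j) x).trans (mul_le_mul_of_nonneg_right ?_ (g7c_sz_nonneg v x))
    have := Finset.single_le_sum (f := fun j => sz v (L j))
      (fun j _ => g7c_sz_nonneg v _) (Finset.mem_univ j)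
    simp only [hB] at this ⊢
    linarith
  refine ⟨(∏ w : InfinitePlace K, (2 * A w ^ 2) ^ w.mult) * ∏ v ∈ S, B v ^ 2,
    mul_pos (Finset.prod_pos fun w _ => pow_pos (by have := hA0 w; positivity) _)
      (Finset.prod_pos fun v _ => pow_pos (hB0 v) 2), ?_⟩
  intro J hJ u u' hu hu' hJu hJu' f hf hcl hcl' hN
  -- two forms outside `J`
  have hcard : 2 ≤ (Jᶜ).card := by
    rw [Finset.card_compl, Fintype.card_fin]
    omega
  obtain ⟨i₁, hi1, i₂, hi2, h12⟩ := Finset.one_lt_card.1 (show 1 < (Jᶜ).card by omega)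
  rw [Finset.mem_compl] at hi1 hi2
  set D : K := lin (L i₁) u * lin (L i₂) u' - lin (L i₂) u * lin (L i₁) u' with hD
  have hzero : ∀ x : Fin (n + 1) → K, (∀ j ∈ J, lin (L j) x = 0) → lin (L i₁) x = 0 →
      lin (L i₂) x = 0 → x = 0 := by
    intro x hxJ hx1 hx2
    refine g7c_eq_zero' hL (E := insert i₁ (insert i₂ J)) ?_ ?_
    · rw [Finset.card_insert_of_notMem (by simp [h12, hi1]), Finset.card_insert_of_notMem hi2]
      omega
    · intro j hj
      rw [Finset.mem_insert, Finset.mem_insert] at hj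
      rcases hj with rfl | rfl | hj
      · exact hx1
      · exact hx2
      · exact hxJ j hj
  by_cases hD0 : D = 0
  · -- parallel
    by_cases h2 : lin (L i₂) u = 0
    · have h1 : lin (L i₁) u ≠ 0 := fun h1 => hu (hzero u hJu h1 h2)
      have h2' : lin (L i₂) u' = 0 := by
        rw [hD, h2, zero_mul, sub_zero] at hD0
        exact (mul_eq_zero.1 hD0).resolve_left h1
      refine ⟨lin (L i₁) u' / lin (L i₁) u, ?_⟩
      rw [← sub_eq_zero]
      refine hzero _ ?_ ?_ ?_
      · intro j hj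
        rw [g7c_lin_sub, g7c_lin_smul, hJu j hj, hJu' j hj]
        simp
      · rw [g7c_lin_sub, g7c_lin_smul, div_mul_cancel₀ _ h1, sub_self]
      · rw [g7c_lin_sub, g7c_lin_smul, h2, h2']
        simp
    · refine ⟨lin (L i₂) u' / lin (L i₂) u, ?_⟩
      rw [← sub_eq_zero]
      refine hzero _ ?_ ?_ ?_
      · intro j hj
        rw [g7c_lin_sub, g7c_lin_smul, hJu j hj, hJu' j hj]
        simp
      · rw [g7c_lin_sub, g7c_lin_smul, sub_eq_zero, div_mul_eq_mul_div, eq_div_iff h2]
        rw [hD, sub_eq_zero] at hD0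
        rw [mul_comm (lin (L i₂) u') (lin (L i₁) u), hD0]
        ring
      · rw [g7c_lin_sub, g7c_lin_smul, div_mul_cancel₀ _ h2, sub_self]
  exfalso
  -- the bounds for `D`
  have hDw : ∀ w : InfinitePlace K, w D ≤ 2 * A w ^ 2 * (szi w u * szi w u') := by
    intro w
    have h1 : w D ≤ w (lin (L i₁) u * lin (L i₂) u') + w (lin (L i₂) u * lin (L i₁) u') :=
      g7c_w_sub w _ _
    rw [map_mul, map_mul] at h1
    have h3 : ∀ a b, w (lin (L a) u) * w (lin (L b) u') ≤ A w ^ 2 * (szi w u * szi w u') := by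
      intro a b
      calc w (lin (L a) u) * w (lin (L b) u') ≤ (A w * szi w u) * (A w * szi w u') :=
            mul_le_mul (hAj w a u) (hAj w b u') (apply_nonneg w _)
              (mul_nonneg (hA0 w).le (g7c_szi_nonneg w u))
        _ = _ := by ring
    have h4 := h3 i₁ i₂
    have h5 := h3 i₂ i₁
    calc w D ≤ _ := h1
      _ ≤ A w ^ 2 * (szi w u * szi w u') + A w ^ 2 * (szi w u * szi w u') := add_le_add h4 h5
      _ = _ := by ring
  have hDS : ∀ v, fa v D ≤ B v ^ 2 * (sz v u * sz v u') := by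
    intro v
    have h3 : ∀ a b, fa v (lin (L a) u) * fa v (lin (L b) u') ≤ B v ^ 2 * (sz v u * sz v u') := by
      intro a b
      calc fa v (lin (L a) u) * fa v (lin (L b) u') ≤ (B v * sz v u) * (B v * sz v u') :=
            mul_le_mul (hBj v a u) (hBj v b u') (Pool.Agent.Lib.MP_4d5ce1_nt.fa_nonneg v _)
              (mul_nonneg (hB0 v).le (g7c_sz_nonneg v u))
        _ = _ := by ring
    exact g7c_det_le v (h3 i₁ i₂) (h3 i₂ i₁)
  have hDv : ∀ v, v ∉ S → fa v D ≤ sz v u * sz v u' := by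
    intro v hv
    have h3 : ∀ a b, fa v (lin (L a) u) * fa v (lin (L b) u') ≤ sz v u * sz v u' := fun a b =>
      mul_le_mul (hS.le v hv a u) (hS.le v hv b u') (Pool.Agent.Lib.MP_4d5ce1_nt.fa_nonneg v _)
        (g7c_sz_nonneg v u)
    exact g7c_det_le v (h3 i₁ i₂) (h3 i₂ i₁)
  have hDf : ∀ v j, f j v ≠ 0 → fa v D * nv v ^ (f j v) ≤ sz v u * sz v u' := by
    intro v j hfj
    obtain ⟨hv, hjJ⟩ := hf.good j v hfj
    have hp : 0 < nv v ^ (f j v) := pow_pos (Pool.Agent.Lib.MP_4d5ce1_nt.nv_pos v) _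
    have hc := hcl j v hfj
    have hc' := hcl' j v hfj
    have a1 : fa v (lin (L j) u) ≤ sz v u / nv v ^ (f j v) := by
      rw [le_div_iff₀ hp]
      exact hc
    have a2 : fa v (lin (L j) u') ≤ sz v u' / nv v ^ (f j v) := by
      rw [le_div_iff₀ hp]
      exact hc'
    rw [← le_div_iff₀ hp]
    -- products with the form `j`
    have b1 : ∀ b, fa v (lin (L j) u) * fa v (lin (L b) u') ≤
        sz v u * sz v u' / nv v ^ (f j v) := by
      intro b
      calc fa v (lin (L j) u) * fa v (lin (L b) u') ≤ (sz v u / nv v ^ (f j v)) * sz v u' :=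
            mul_le_mul a1 (hS.le v hv b u') (Pool.Agent.Lib.MP_4d5ce1_nt.fa_nonneg v _)
              (div_nonneg (g7c_sz_nonneg v u) hp.le)
        _ = _ := by ring
    have b2 : ∀ b, fa v (lin (L b) u) * fa v (lin (L j) u') ≤
        sz v u * sz v u' / nv v ^ (f j v) := by
      intro b
      calc fa v (lin (L b) u) * fa v (lin (L j) u') ≤ sz v u * (sz v u' / nv v ^ (f j v)) :=
            mul_le_mul (hS.le v hv b u) a2 (Pool.Agent.Lib.MP_4d5ce1_nt.fa_nonneg v _)
              (g7c_sz_nonneg v u)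
        _ = _ := by ring
    by_cases hj1 : j = i₁
    · subst hj1
      exact g7c_det_le v (b1 i₂) (b2 i₂)
    by_cases hj2 : j = i₂
    · subst hj2
      exact g7c_det_le v (b2 i₁) (b1 i₁)
    -- the general case
    set E : Finset (Fin q) := insert j (insert i₁ (insert i₂ J)) with hE
    have hEc : E.card = n + 2 := by
      rw [hE, Finset.card_insert_of_notMem (by simp [hj1, hj2, hjJ]),
        Finset.card_insert_of_notMem (by simp [h12, hi1]), Finset.card_insert_of_notMem hi2]
      omega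
    obtain ⟨hne, hrel⟩ := hcc E hEc
    have hsupp : ∀ l, cc E l ≠ 0 → l ∈ J ∨ l = i₁ ∨ l = i₂ ∨ l = j := by
      intro l hl
      have := (hne l).1 hl
      rw [hE, Finset.mem_insert, Finset.mem_insert, Finset.mem_insert] at this
      tauto
    have r1 := g7c_rel3 h12 hj1 hj2 hrel hsupp hJu
    have r2 := g7c_rel3 h12 hj1 hj2 hrel hsupp hJu'
    have e1 : cc E i₁ * D = - (cc E j * (lin (L j) u * lin (L i₂) u' -
        lin (L i₂) u * lin (L j) u')) := by
      rw [hD]
      linear_combination lin (L i₂) u' * r1 - lin (L i₂) u * r2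
    have u1 : fa v (cc E i₁) = 1 := hS.cone v hv E hEc i₁ (by simp [hE])
    have uj : fa v (cc E j) = 1 := hS.cone v hv E hEc j (by simp [hE])
    have e2 : fa v D = fa v (lin (L j) u * lin (L i₂) u' - lin (L i₂) u * lin (L j) u') := by
      have := congrArg (fa v) e1
      rw [Pool.Agent.Lib.MP_4d5ce1_nt.fa_mul, u1, one_mul, Pool.Agent.Lib.MP_4d5ce1_nt.fa_neg,
        Pool.Agent.Lib.MP_4d5ce1_nt.fa_mul, uj, one_mul] at this
      exact this
    rw [e2]
    exact g7c_det_le v (b1 i₂) (b2 i₂)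
  -- the total exponent at a place
  have htot : ∀ v, v ∉ S → fa v D * ∏ j, nv v ^ (f j v) ≤ sz v u * sz v u' := by
    intro v hv
    by_cases h : ∃ j, f j v ≠ 0
    · obtain ⟨j, hj⟩ := h
      rw [Finset.prod_eq_single j]
      · exact hDf v j hj
      · intro l _ hl
        have : f l v = 0 := by
          by_contra h
          exact hl (hf.disj l j v h hj)
        rw [this, pow_zero]
      · intro h
        exact absurd (Finset.mem_univ j) h
    · push Not at h
      rw [Finset.prod_eq_one (fun j _ => by rw [h j, pow_zero]), mul_one]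
      exact hDv v hv
  have hSf : ∀ v ∈ S, ∏ j, nv v ^ (f j v) = 1 := by
    intro v hv
    refine Finset.prod_eq_one fun j _ => ?_
    have : f j v = 0 := by
      by_contra h
      exact (hf.good j v h).1 hv
    rw [this, pow_zero]
  -- a finite set of places
  set W : Finset (HeightOneSpectrum (𝓞 K)) := S ∪
    ((Finset.univ.biUnion fun j => (f j).support) ∪
    ((Pool.Agent.Lib.MP_4d5ce1_nt.finite_fa_ne_one hD0).toFinset ∪
    ((g7c_finite_sz hu).toFinset ∪ (g7c_finite_sz hu').toFinset))) with hW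
  have hSW : S ⊆ W := Finset.subset_union_left
  have hsuppW : ∀ j, (f j).support ⊆ W := by
    intro j v hv
    rw [hW, Finset.mem_union, Finset.mem_union]
    exact Or.inr (Or.inl (Finset.mem_biUnion.2 ⟨j, Finset.mem_univ j, hv⟩))
  have p1 : ∏ᶠ v : HeightOneSpectrum (𝓞 K), fa v D = ∏ v ∈ W, fa v D := by
    refine finprod_eq_prod_of_mulSupport_subset _ fun v hv => ?_
    rw [hW]
    simp only [Finset.coe_union, Set.mem_union, Set.Finite.coe_toFinset]
    exact Or.inr (Or.inr (Or.inl hv))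
  have p2 : ∏ᶠ v : HeightOneSpectrum (𝓞 K), sz v u = ∏ v ∈ W, sz v u := by
    refine finprod_eq_prod_of_mulSupport_subset _ fun v hv => ?_
    rw [hW]
    simp only [Finset.coe_union, Set.mem_union, Set.Finite.coe_toFinset]
    exact Or.inr (Or.inr (Or.inr (Or.inl hv)))
  have p3 : ∏ᶠ v : HeightOneSpectrum (𝓞 K), sz v u' = ∏ v ∈ W, sz v u' := by
    refine finprod_eq_prod_of_mulSupport_subset _ fun v hv => ?_
    rw [hW]
    simp only [Finset.coe_union, Set.mem_union, Set.Finite.coe_toFinset]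
    exact Or.inr (Or.inr (Or.inr (Or.inr hv)))
  have hNc : Nc f = ∏ v ∈ W, ∏ j, nv v ^ (f j v) := by
    unfold Nc
    rw [Finset.prod_comm]
    exact Finset.prod_congr rfl fun j _ => g7c_Nb_eq (f j) (hsuppW j)
  -- the finite places
  have key1 : (∏ v ∈ W, fa v D) * Nc f ≤
      (∏ v ∈ S, B v ^ 2) * ∏ v ∈ W, (sz v u * sz v u') := by
    rw [hNc, ← Finset.prod_mul_distrib]
    have h1 : ∏ v ∈ S, B v ^ 2 = ∏ v ∈ W, if v ∈ S then B v ^ 2 else 1 := by
      rw [Finset.prod_ite_mem, Finset.inter_eq_right.2 hSW]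
    rw [h1, ← Finset.prod_mul_distrib]
    refine Finset.prod_le_prod (fun v _ => mul_nonneg (Pool.Agent.Lib.MP_4d5ce1_nt.fa_nonneg v _)
      (Finset.prod_nonneg fun j _ => pow_nonneg (Pool.Agent.Lib.MP_4d5ce1_nt.nv_pos v).le _))
      fun v _ => ?_
    by_cases hv : v ∈ S
    · rw [if_pos hv, hSf v hv, mul_one]
      exact hDS v
    · rw [if_neg hv, one_mul]
      exact htot v hv
  have key2 : ∏ w : InfinitePlace K, w D ^ w.mult ≤
      (∏ w : InfinitePlace K, (2 * A w ^ 2) ^ w.mult) *
        ∏ w : InfinitePlace K, (szi w u ^ w.mult * szi w u' ^ w.mult) := by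
    rw [← Finset.prod_mul_distrib]
    refine Finset.prod_le_prod (fun w _ => pow_nonneg (apply_nonneg w _) _) fun w _ => ?_
    rw [← mul_pow, ← mul_pow]
    exact pow_le_pow_left₀ (apply_nonneg w _) (hDw w) _
  have hpf := g7c_product hD0
  rw [p1] at hpf
  have hfin0 : 0 ≤ ∏ v ∈ W, fa v D :=
    Finset.prod_nonneg fun v _ => Pool.Agent.Lib.MP_4d5ce1_nt.fa_nonneg v _
  have hNc0 : 0 ≤ Nc f := by
    rw [hNc]
    exact Finset.prod_nonneg fun v _ => Finset.prod_nonneg fun j _ =>
      pow_nonneg (Pool.Agent.Lib.MP_4d5ce1_nt.nv_pos v).le _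
  have key3 : Nc f ≤ (∏ w : InfinitePlace K, (2 * A w ^ 2) ^ w.mult) * (∏ v ∈ S, B v ^ 2) *
      (mulHeight u * mulHeight u') := by
    calc Nc f = (∏ w : InfinitePlace K, w D ^ w.mult) * ((∏ v ∈ W, fa v D) * Nc f) := by
          rw [← mul_assoc, hpf, one_mul]
      _ ≤ ((∏ w : InfinitePlace K, (2 * A w ^ 2) ^ w.mult) *
            ∏ w : InfinitePlace K, (szi w u ^ w.mult * szi w u' ^ w.mult)) *
          ((∏ v ∈ S, B v ^ 2) * ∏ v ∈ W, (sz v u * sz v u')) := by
          refine mul_le_mul key2 key1 (mul_nonneg hfin0 hNc0) ?_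
          refine mul_nonneg (Finset.prod_nonneg fun w _ => pow_nonneg (by have := hA0 w; positivity) _)
            (Finset.prod_nonneg fun w _ => mul_nonneg (pow_nonneg (g7c_szi_nonneg w u) _)
              (pow_nonneg (g7c_szi_nonneg w u') _))
      _ = _ := by
          rw [g7c_mulHeight hu, g7c_mulHeight hu', p2, p3, Finset.prod_mul_distrib,
            Finset.prod_mul_distrib (f := fun v => sz v u)]
          ring
  exact absurd hN (not_lt.2 key3)

end Pool.Agent.Lib.MP_44a246_ntNG
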