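import Pool.Agent.Lib.MP_44a246_ntNG.Defs
import Pool.Agent.Lib.MP_44a246_ntNF.NF4
import Pool.Agent.Lib.MP_44a246_ntNG.G2
import Pool.Agent.Lib.MP_44a246_ntNG.G7c

/-!
# Counting skew codes
-/

set_option autoImplicit false
set_option linter.unusedSectionVars false

open NumberField IsDedekindDomain Height
open Pool.Agent.Lib.MP_4d5ce1_nt (fa nv ordv)
open Pool.Agent.Lib.MP_44a246_ntNF

namespace Pool.Agent.Lib.MP_44a246_ntNG

variable {K : Type*} [Field K] [NumberField K] {n q : ℕ}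

/-! ### Norms of codes -/

namespace G8

open Pool.Agent.Lib.MP_4d5ce1_nt (nv_pos one_lt_nv two_le_nv)

lemma one_le_prod {ι : Type*} (s : Finset ι) (f : ι → ℝ) (h : ∀ i ∈ s, 1 ≤ f i) :
    1 ≤ ∏ i ∈ s, f i := by
  calc (1 : ℝ) = ∏ i ∈ s, (1 : ℝ) := by simp
    _ ≤ ∏ i ∈ s, f i := Finset.prod_le_prod (fun _ _ => zero_le_one) h

lemma prod_le_of_subset {ι : Type*} {s t : Finset ι} (hst : s ⊆ t) (f : ι → ℝ)
    (h : ∀ i ∈ t, 1 ≤ f i) : ∏ i ∈ s, f i ≤ ∏ i ∈ t, f i := by
  classical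
  rw [← Finset.prod_sdiff hst]
  have h1 : (1 : ℝ) ≤ ∏ i ∈ t \ s, f i := one_le_prod _ _ (fun i hi => h i (Finset.sdiff_subset hi))
  have h2 : (0 : ℝ) ≤ ∏ i ∈ s, f i :=
    Finset.prod_nonneg (fun i hi => zero_le_one.trans (h i (hst hi)))
  nlinarith

lemma NN_pos (R : Finset (HeightOneSpectrum (𝓞 K))) : 0 < NN R :=
  Finset.prod_pos fun v _ => nv_pos v

lemma one_le_NN (R : Finset (HeightOneSpectrum (𝓞 K))) : 1 ≤ NN R :=
  one_le_prod _ _ (fun v _ => (one_lt_nv v).le)

lemma NN_mono {R R' : Finset (HeightOneSpectrum (𝓞 K))} (h : R ⊆ R') : NN R ≤ NN R' :=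
  prod_le_of_subset h _ (fun v _ => (one_lt_nv v).le)

lemma NN_union_le [DecidableEq (HeightOneSpectrum (𝓞 K))]
    (R R' : Finset (HeightOneSpectrum (𝓞 K))) : NN (R ∪ R') ≤ NN R * NN R' := by
  unfold NN
  rw [← Finset.prod_union_inter]
  have h1 : (1 : ℝ) ≤ ∏ v ∈ R ∩ R', nv v := one_le_NN _
  have h2 : (0 : ℝ) < ∏ v ∈ R ∪ R', nv v := NN_pos _
  nlinarith

lemma Nb_eq {b : HeightOneSpectrum (𝓞 K) →₀ ℕ} {W : Finset (HeightOneSpectrum (𝓞 K))}
    (h : b.support ⊆ W) : Nb b = ∏ v ∈ W, nv v ^ b v := by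
  unfold Nb
  refine Finset.prod_subset h ?_
  intro v _ hv
  rw [Finsupp.notMem_support_iff.mp hv, pow_zero]

lemma one_le_Nb (b : HeightOneSpectrum (𝓞 K) →₀ ℕ) : 1 ≤ Nb b :=
  one_le_prod _ _ (fun v _ => one_le_pow₀ (one_lt_nv v).le)

lemma Nb_pos (b : HeightOneSpectrum (𝓞 K) →₀ ℕ) : 0 < Nb b := zero_lt_one.trans_le (one_le_Nb b)

lemma Nb_mono {b b' : HeightOneSpectrum (𝓞 K) →₀ ℕ} (h : ∀ v, b v ≤ b' v) : Nb b ≤ Nb b' := by
  have hs : b.support ⊆ b'.support := by
    intro v hv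
    rw [Finsupp.mem_support_iff] at hv ⊢
    have := h v
    omega
  rw [Nb_eq hs, Nb]
  refine Finset.prod_le_prod (fun v _ => (pow_pos (nv_pos v) _).le) ?_
  intro v _
  exact pow_le_pow_right₀ (one_lt_nv v).le (h v)

lemma NN_support_le_Nb (b : HeightOneSpectrum (𝓞 K) →₀ ℕ) : NN b.support ≤ Nb b := by
  unfold NN Nb
  refine Finset.prod_le_prod (fun v _ => (nv_pos v).le) ?_
  intro v hv
  rw [Finsupp.mem_support_iff] at hv
  calc nv v = nv v ^ 1 := (pow_one _).symm
    _ ≤ nv v ^ b v := pow_le_pow_right₀ (one_lt_nv v).le (by omega)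

lemma one_le_Nc (c : Fin q → (HeightOneSpectrum (𝓞 K) →₀ ℕ)) : 1 ≤ Nc c :=
  one_le_prod _ _ (fun _ _ => one_le_Nb _)

lemma Nc_pos (c : Fin q → (HeightOneSpectrum (𝓞 K) →₀ ℕ)) : 0 < Nc c :=
  zero_lt_one.trans_le (one_le_Nc c)

lemma Nc_mono {c c' : Fin q → (HeightOneSpectrum (𝓞 K) →₀ ℕ)} (h : ∀ j v, c j v ≤ c' j v) :
    Nc c ≤ Nc c' :=
  Finset.prod_le_prod (fun _ _ => (Nb_pos _).le) (fun j _ => Nb_mono (h j))

lemma Nb_le_Nc (c : Fin q → (HeightOneSpectrum (𝓞 K) →₀ ℕ)) (j : Fin q) : Nb (c j) ≤ Nc c := by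
  have := prod_le_of_subset (s := {j}) (t := Finset.univ) (Finset.subset_univ _)
    (fun j => Nb (c j)) (fun _ _ => one_le_Nb _)
  simpa [Nc] using this

lemma Nc_eq {c : Fin q → (HeightOneSpectrum (𝓞 K) →₀ ℕ)} {W : Finset (HeightOneSpectrum (𝓞 K))}
    (h : ∀ j, (c j).support ⊆ W) : Nc c = ∏ v ∈ W, nv v ^ (∑ j, c j v) := by
  unfold Nc
  rw [Finset.prod_congr rfl (fun j _ => Nb_eq (h j)), Finset.prod_comm]
  refine Finset.prod_congr rfl (fun v _ => ?_)
  rw [Finset.prod_pow_eq_pow_sum]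

/-- The sum of the exponents at a prime, for a code. -/
lemma sum_code {S : Finset (HeightOneSpectrum (𝓞 K))} {J : Finset (Fin q)}
    {c : Fin q → (HeightOneSpectrum (𝓞 K) →₀ ℕ)} (hc : IsCode S J c) {j : Fin q}
    {v : HeightOneSpectrum (𝓞 K)} (h : c j v ≠ 0) : ∑ i, c i v = c j v := by
  rw [Finset.sum_eq_single j]
  · intro i _ hij
    by_contra h1
    exact hij (hc.disj i j v h1 h)
  · intro h1
    exact absurd (Finset.mem_univ j) h1

lemma Nc_le_mul_Nb {S : Finset (HeightOneSpectrum (𝓞 K))} {J : Finset (Fin q)}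
    {c : Fin q → (HeightOneSpectrum (𝓞 K) →₀ ℕ)} (hc : IsCode S J c)
    (b : HeightOneSpectrum (𝓞 K) →₀ ℕ) : Nc c ≤ Nc (fun j => c j - b) * Nb b := by
  classical
  set W : Finset (HeightOneSpectrum (𝓞 K)) :=
    b.support ∪ Finset.univ.biUnion (fun j => (c j).support) with hW
  have h1 : ∀ j, (c j).support ⊆ W := by
    intro j v hv
    rw [hW, Finset.mem_union]
    right
    exact Finset.mem_biUnion.mpr ⟨j, Finset.mem_univ _, hv⟩
  have h2 : ∀ j, (c j - b).support ⊆ W := by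
    intro j v hv
    refine h1 j ?_
    rw [Finsupp.mem_support_iff] at hv ⊢
    rw [Finsupp.tsub_apply] at hv
    omega
  rw [Nc_eq h1, Nc_eq (c := fun j => c j - b) h2, Nb_eq (b := b) (W := W) Finset.subset_union_left,
    ← Finset.prod_mul_distrib]
  refine Finset.prod_le_prod (fun v _ => (pow_pos (nv_pos v) _).le) ?_
  intro v _
  rw [← pow_add]
  refine pow_le_pow_right₀ (one_lt_nv v).le ?_
  by_cases h3 : ∃ j, c j v ≠ 0
  · obtain ⟨j, hj⟩ := h3
    rw [sum_code hc hj]
    have h4 : (c j - b) v ≤ ∑ i, (c i - b) v :=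
      Finset.single_le_sum (f := fun i => (c i - b) v) (fun i _ => Nat.zero_le _)
        (Finset.mem_univ j)
    rw [Finsupp.tsub_apply] at h4
    omega
  · push Not at h3
    rw [Finset.sum_eq_zero (fun j _ => h3 j)]
    exact Nat.zero_le _

/-! ### Restriction -/

open Classical in
/-- Restriction to the primes in `W`. -/
noncomputable def rs (W : Finset (HeightOneSpectrum (𝓞 K))) (b : HeightOneSpectrum (𝓞 K) →₀ ℕ) :
    HeightOneSpectrum (𝓞 K) →₀ ℕ := b.filter (fun v => v ∈ W)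

open Classical in
lemma rs_mem {W : Finset (HeightOneSpectrum (𝓞 K))} {b : HeightOneSpectrum (𝓞 K) →₀ ℕ}
    {v : HeightOneSpectrum (𝓞 K)} (h : v ∈ W) : rs W b v = b v := by
  unfold rs
  exact Finsupp.filter_apply_pos (fun v => v ∈ W) b h

open Classical in
lemma rs_notMem {W : Finset (HeightOneSpectrum (𝓞 K))} {b : HeightOneSpectrum (𝓞 K) →₀ ℕ}
    {v : HeightOneSpectrum (𝓞 K)} (h : v ∉ W) : rs W b v = 0 := by
  unfold rs
  exact Finsupp.filter_apply_neg (fun v => v ∈ W) b h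

lemma rs_le (W : Finset (HeightOneSpectrum (𝓞 K))) (b : HeightOneSpectrum (𝓞 K) →₀ ℕ)
    (v : HeightOneSpectrum (𝓞 K)) : rs W b v ≤ b v := by
  by_cases h : v ∈ W
  · rw [rs_mem h]
  · rw [rs_notMem h]; exact Nat.zero_le _

lemma rs_support_subset (W : Finset (HeightOneSpectrum (𝓞 K)))
    (b : HeightOneSpectrum (𝓞 K) →₀ ℕ) : (rs W b).support ⊆ W := by
  intro v hv
  by_contra h
  rw [Finsupp.mem_support_iff] at hv
  exact hv (rs_notMem h)

lemma IsCode.of_le {S : Finset (HeightOneSpectrum (𝓞 K))} {J : Finset (Fin q)}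
    {c c' : Fin q → (HeightOneSpectrum (𝓞 K) →₀ ℕ)} (hc : IsCode S J c)
    (h : ∀ j v, c' j v ≠ 0 → c j v ≠ 0) : IsCode S J c' where
  good := fun j v h1 => hc.good j v (h j v h1)
  disj := fun i j v h1 h2 => hc.disj i j v (h i v h1) (h j v h2)

/-- The cost of the restriction of a code. -/
lemma Cc_rs_le {S : Finset (HeightOneSpectrum (𝓞 K))} {J : Finset (Fin q)}
    {c : Fin q → (HeightOneSpectrum (𝓞 K) →₀ ℕ)} (hc : IsCode S J c)
    (U : Finset (HeightOneSpectrum (𝓞 K))) : Cc (fun j => rs U (c j)) ≤ NN U := by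
  classical
  unfold Cc NN
  rw [← Finset.prod_biUnion]
  · refine prod_le_of_subset ?_ _ (fun v _ => (one_lt_nv v).le)
    intro v hv
    obtain ⟨j, _, hj⟩ := Finset.mem_biUnion.mp hv
    exact rs_support_subset U (c j) hj
  · intro i _ j _ hij
    rw [Function.onFun, Finset.disjoint_left]
    intro v h1 h2
    have h1 : rs U (c i) v ≠ 0 := Finsupp.mem_support_iff.mp h1
    have h2 : rs U (c j) v ≠ 0 := Finsupp.mem_support_iff.mp h2
    refine hij (hc.disj i j v ?_ ?_)
    · have := rs_le U (c i) v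
      omega
    · have := rs_le U (c j) v
      omega

/-! ### Counting tools -/

lemma card_le_of_fiber {X Y : Type*} [DecidableEq Y] (F : Finset X) (f : X → Y) (M M' : ℝ)
    (hM' : 0 ≤ M') (h1 : ((F.image f).card : ℝ) ≤ M)
    (h2 : ∀ y, ((F.filter (fun x => f x = y)).card : ℝ) ≤ M') : (F.card : ℝ) ≤ M * M' := by
  rw [Finset.card_eq_sum_card_image f F]
  push_cast
  calc ∑ y ∈ F.image f, ((F.filter (fun x => f x = y)).card : ℝ) ≤ ∑ y ∈ F.image f, M' :=
        Finset.sum_le_sum (fun y _ => h2 y)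
    _ = (F.image f).card * M' := by rw [Finset.sum_const, nsmul_eq_mul]
    _ ≤ M * M' := mul_le_mul_of_nonneg_right h1 hM'

lemma card_pi_le {Z : Type*} (F : Finset (Fin q → Z)) (M : ℝ)
    (h : ∀ j, ∀ G : Finset Z, (∀ z ∈ G, ∃ c ∈ F, c j = z) → (G.card : ℝ) ≤ M) :
    (F.card : ℝ) ≤ M ^ q := by
  classical
  have h1 : F ⊆ Fintype.piFinset (fun j => F.image (fun c => c j)) := by
    intro c hc
    rw [Fintype.mem_piFinset]
    intro j
    exact Finset.mem_image_of_mem _ hc
  have h2 := Finset.card_le_card h1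
  rw [Fintype.card_piFinset] at h2
  calc (F.card : ℝ) ≤ ((∏ j, (F.image (fun c => c j)).card : ℕ) : ℝ) := by exact_mod_cast h2
    _ = ∏ j, ((F.image (fun c => c j)).card : ℝ) := by push_cast; rfl
    _ ≤ ∏ _j : Fin q, M := by
        refine Finset.prod_le_prod (fun _ _ => by positivity) ?_
        intro j _
        refine h j _ ?_
        intro z hz
        obtain ⟨c, hc, hcz⟩ := Finset.mem_image.mp hz
        exact ⟨c, hc, hcz⟩
    _ = M ^ q := by simp

lemma rpow_one_add_le {a T η : ℝ} (ha : 0 < a) (haT : a ≤ T) (hη : 0 < η) :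
    a ^ (1 + η) ≤ a * T ^ η := by
  rw [Real.rpow_add ha, Real.rpow_one]
  exact mul_le_mul_of_nonneg_left (Real.rpow_le_rpow ha.le haT hη.le) ha.le

/-! ### Heights -/

lemma height_ratio (L : Fin q → Fin (n + 1) → K) : ∃ C : ℝ, 1 ≤ C ∧
    ∀ (i j : Fin q) (u : Fin (n + 1) → K),
      mulHeight₁ (lin (L i) u / lin (L j) u) ≤ C * mulHeight u := by
  classical
  set A : Fin q → Fin q → Fin 2 × Fin (n + 1) → K :=
    fun i j p => if p.1 = 0 then L i p.2 else L j p.2 with hA
  set B : Fin q → Fin q → ℝ := fun i j =>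
    (Nat.card (Fin (n + 1)) : ℝ) ^ totalWeight K * mulHeight (A i j) with hB
  refine ⟨1 + ∑ i, ∑ j, B i j, ?_, ?_⟩
  · have : 0 ≤ ∑ i, ∑ j, B i j := by
      refine Finset.sum_nonneg fun i _ => Finset.sum_nonneg fun j _ => ?_
      have := mulHeight_pos (A i j)
      positivity
    linarith
  · intro i j u
    rw [mulHeight₁_div_eq_mulHeight]
    have h1 := mulHeight_linearMap_apply_le (A i j) u
    have h2 : (fun k => ∑ l, A i j (k, l) * u l) = ![lin (L i) u, lin (L j) u] := by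
      funext k
      fin_cases k
      · simp [hA, lin]
      · simp [hA, lin]
    rw [h2] at h1
    refine h1.trans ?_
    have hu := mulHeight_pos u
    refine mul_le_mul_of_nonneg_right ?_ hu.le
    have h3 : B i j ≤ ∑ j, B i j := by
      refine Finset.single_le_sum (f := fun j => B i j) (fun k _ => ?_) (Finset.mem_univ j)
      have := mulHeight_pos (A i k)
      simp only [hB]
      positivity
    have h4 : ∑ j, B i j ≤ ∑ i, ∑ j, B i j := by
      refine Finset.single_le_sum (f := fun i => ∑ j, B i j) (fun k _ => ?_) (Finset.mem_univ i)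
      refine Finset.sum_nonneg fun l _ => ?_
      have := mulHeight_pos (A k l)
      simp only [hB]
      positivity
    simp only [hB] at h3 h4
    linarith

lemma sz_pos (v : HeightOneSpectrum (𝓞 K)) {x : Fin (n + 1) → K} (hx : x ≠ 0) : 0 < sz v x := by
  obtain ⟨i, hi⟩ := Function.ne_iff.mp hx
  refine (Pool.Agent.Lib.MP_4d5ce1_nt.fa_pos v hi).trans_le ?_
  exact le_ciSup (f := fun i => fa v (x i)) (Set.finite_range _).bddAbove i

lemma ge_of_vanish {L : Fin q → Fin (n + 1) → K} {cc : Finset (Fin q) → Fin q → K}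
    {S : Finset (HeightOneSpectrum (𝓞 K))} (hS : Good L cc S) {J : Finset (Fin q)}
    (hJ : J.card + 1 = n) {j j' : Fin q} (hj : j ∉ J) (hj' : j' ∉ J) (hjj' : j ≠ j')
    {u : Fin (n + 1) → K} (hu : u ≠ 0) (hJu : ∀ i ∈ J, lin (L i) u = 0)
    {v : HeightOneSpectrum (𝓞 K)} (hv : v ∉ S) :
    sz v u ≤ fa v (lin (L j) u) ∨ sz v u ≤ fa v (lin (L j') u) := by
  classical
  have hE : (insert j (insert j' J)).card = n + 1 := by
    rw [Finset.card_insert_of_notMem, Finset.card_insert_of_notMem hj']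
    · omega
    · rw [Finset.mem_insert]
      push Not
      exact ⟨hjj', hj⟩
  obtain ⟨i, hi⟩ := hS.ge v hv ((insert j (insert j' J)).orderEmbOfFin hE)
    ((insert j (insert j' J)).orderEmbOfFin hE).injective u
  have hmem := (insert j (insert j' J)).orderEmbOfFin_mem hE i
  rw [Finset.mem_insert, Finset.mem_insert] at hmem
  rcases hmem with h | h | h
  · left; rw [h] at hi; exact hi
  · right; rw [h] at hi; exact hi
  · exfalso
    rw [hJu _ h, Pool.Agent.Lib.MP_4d5ce1_nt.fa_zero] at hi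
    exact absurd (sz_pos v hu) (not_lt.mpr hi)

lemma lin_smul' (a x : Fin (n + 1) → K) (t : K) : lin a (t • x) = t * lin a x := by
  unfold lin
  rw [Finset.mul_sum]
  apply Finset.sum_congr rfl
  intro i _
  simp only [Pi.smul_apply, smul_eq_mul]
  ring

lemma one_form (K : Type*) [Field K] [NumberField K] (η : ℝ) (hη : 0 < η) :
    ∃ C : ℝ, 0 < C ∧ ∀ T : ℝ, 1 ≤ T → ∀ Y : ℝ, 1 ≤ Y →
      ∀ F : Finset (HeightOneSpectrum (𝓞 K) →₀ ℕ), (∀ κ ∈ F, NN κ.support ≤ Y ∧ Nb κ ≤ T) →
        (F.card : ℝ) ≤ C * Y ^ (1 + η) * T ^ η := by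
  classical
  obtain ⟨C, hC, h⟩ := card_codes K 1 η hη
  refine ⟨C, hC, fun T hT Y hY F hF => ?_⟩
  have h1 : (F.image (fun κ => fun _ : Fin 1 => κ)).card = F.card := by
    refine Finset.card_image_of_injective _ ?_
    intro a b hab
    exact congrFun hab 0
  rw [← h1]
  refine h T hT Y hY _ ?_
  intro c hc
  obtain ⟨κ, hκ, rfl⟩ := Finset.mem_image.mp hc
  have := hF κ hκ
  simpa [Cc, Nc] using this

lemma rpow_div_pow {T η : ℝ} (hT : 1 ≤ T) (k : ℕ) (hk : 0 < k) :
    (T ^ (η / (k : ℝ))) ^ k = T ^ η := by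
  have hk' : (k : ℝ) ≠ 0 := by exact_mod_cast hk.ne'
  rw [← Real.rpow_natCast, ← Real.rpow_mul (by linarith), div_mul_cancel₀ _ hk']

/-- Case B. -/
lemma caseB (K : Type*) [Field K] [NumberField K] (q : ℕ) (η : ℝ) (hη : 0 < η) :
    ∃ C : ℝ, 0 ≤ C ∧ ∀ T : ℝ, 1 ≤ T → ∀ m6 D : ℝ, 0 ≤ m6 → 0 ≤ D → Real.exp m6 ≤ T →
        Real.exp D ≤ T →
      ∀ F : Finset (Fin q → (HeightOneSpectrum (𝓞 K) →₀ ℕ)),
      (∀ c ∈ F, Nc c ≤ T ∧ (∀ j, NN (c j).support ≤ Real.exp D) ∧
        ∃ (b : HeightOneSpectrum (𝓞 K) →₀ ℕ) (j₀ : Fin q), Nb b ≤ Real.exp m6 ∧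
          ∀ j, j ≠ j₀ → ∀ v, c j v ≤ b v) →
      (F.card : ℝ) ≤ C * T ^ η * Real.exp (m6 + D) := by
  classical
  set ε : ℝ := η / ((q + 3 : ℕ) : ℝ) with hε
  have hε0 : 0 < ε := by positivity
  obtain ⟨C1, hC1, h1⟩ := card_Nb K ε hε0
  obtain ⟨C2, hC2, h2⟩ := one_form K ε hε0
  obtain ⟨C3, hC3, h3⟩ := card_codes_in K ε hε0
  refine ⟨C1 * (q * (C2 * (1 + C3) ^ q)), by positivity, ?_⟩
  intro T hT m6 D hm6 hD hm6T hDT F hF
  have hT0 : 0 < T := by linarith
  have hTe : 1 ≤ T ^ ε := Real.one_le_rpow hT hε0.le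
  rcases Nat.eq_zero_or_pos q with hq0 | hq0
  · have : F = ∅ := by
      rw [Finset.eq_empty_iff_forall_notMem]
      intro c hc
      obtain ⟨_, _, _, j₀, _⟩ := hF c hc
      subst hq0
      exact Fin.elim0 j₀
    rw [this]
    simp only [Finset.card_empty, Nat.cast_zero]
    positivity
  have : Nonempty (Fin q) := ⟨⟨0, hq0⟩⟩
  choose! hN hD' b j₀ hb hj₀ using hF
  have key : (F.card : ℝ) ≤ (C1 * Real.exp m6 ^ (1 + ε)) *
      (q * ((C2 * Real.exp D ^ (1 + ε) * T ^ ε) * ((1 + C3) * T ^ ε) ^ q)) := by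
    refine card_le_of_fiber F b _ _ (by positivity) ?_ ?_
    · refine h1 _ (Real.one_le_exp hm6) _ ?_
      intro β hβ
      obtain ⟨c, hc, rfl⟩ := Finset.mem_image.mp hβ
      exact hb c hc
    intro β
    refine card_le_of_fiber _ j₀ _ _ (by positivity) ?_ ?_
    · have := Finset.card_le_card
        (Finset.subset_univ ((F.filter (fun x => b x = β)).image j₀))
      rw [Finset.card_univ, Fintype.card_fin] at this
      exact_mod_cast this
    intro ι
    refine card_le_of_fiber _ (fun c => c ι) _ _ (by positivity) ?_ ?_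
    · refine h2 T hT _ (Real.one_le_exp hD) _ ?_
      intro κ hκ
      obtain ⟨c, hc, rfl⟩ := Finset.mem_image.mp hκ
      have hcF : c ∈ F := (Finset.mem_filter.mp (Finset.mem_filter.mp hc).1).1
      exact ⟨hD' c hcF ι, (Nb_le_Nc c ι).trans (hN c hcF)⟩
    intro κ
    refine card_pi_le _ _ ?_
    intro j G hG
    by_cases hj : j = ι
    · have hsub : G ⊆ {κ} := by
        intro z hz
        obtain ⟨c, hc, rfl⟩ := hG z hz
        rw [Finset.mem_singleton, hj]
        exact (Finset.mem_filter.mp hc).2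
      have := Finset.card_le_card hsub
      rw [Finset.card_singleton] at this
      have h4 : (G.card : ℝ) ≤ 1 := by exact_mod_cast this
      nlinarith
    · have h4 : (G.card : ℝ) ≤ C3 * T ^ ε := by
        rcases G.eq_empty_or_nonempty with hGe | ⟨z, hz⟩
        · rw [hGe]
          simp only [Finset.card_empty, Nat.cast_zero]
          positivity
        refine h3 T hT β.support ?_ G ?_
        · obtain ⟨c, hc, rfl⟩ := hG z hz
          have hc1 := (Finset.mem_filter.mp hc).1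
          have hc2 := Finset.mem_filter.mp hc1
          have hc3 := Finset.mem_filter.mp hc2.1
          rw [← hc3.2]
          exact ((NN_support_le_Nb _).trans (hb c hc3.1)).trans hm6T
        · intro z hz
          obtain ⟨c, hc, rfl⟩ := hG z hz
          have hc1 := (Finset.mem_filter.mp hc).1
          have hc2 := Finset.mem_filter.mp hc1
          have hc3 := Finset.mem_filter.mp hc2.1
          refine ⟨?_, (Nb_le_Nc c j).trans (hN c hc3.1)⟩
          intro v hv
          rw [Finsupp.mem_support_iff] at hv ⊢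
          have h5 := hj₀ c hc3.1 j (by rw [hc2.2]; exact hj) v
          rw [hc3.2] at h5
          omega
      nlinarith
  refine key.trans ?_
  have e1 : Real.exp m6 ^ (1 + ε) ≤ Real.exp m6 * T ^ ε :=
    rpow_one_add_le (Real.exp_pos _) hm6T hε0
  have e2 : Real.exp D ^ (1 + ε) ≤ Real.exp D * T ^ ε :=
    rpow_one_add_le (Real.exp_pos _) hDT hε0
  calc (C1 * Real.exp m6 ^ (1 + ε)) *
      (q * ((C2 * Real.exp D ^ (1 + ε) * T ^ ε) * ((1 + C3) * T ^ ε) ^ q))
      ≤ (C1 * (Real.exp m6 * T ^ ε)) *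
      (q * ((C2 * (Real.exp D * T ^ ε) * T ^ ε) * ((1 + C3) * T ^ ε) ^ q)) := by
        gcongr
    _ = C1 * (q * (C2 * (1 + C3) ^ q)) * (T ^ ε) ^ (q + 3) * (Real.exp m6 * Real.exp D) := by
        rw [mul_pow]; ring
    _ = C1 * (q * (C2 * (1 + C3) ^ q)) * T ^ η * Real.exp (m6 + D) := by
        rw [hε, rpow_div_pow hT (q + 3) (by omega), Real.exp_add]

open Classical in
lemma exists_U {c : Fin q → (HeightOneSpectrum (𝓞 K) →₀ ℕ)} (hc2 : ∀ j v, c j v ≠ 0 → 2 ≤ c j v)
    {D : ℝ} (hD0 : 0 ≤ D)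
    (hD : ∀ j, NN (c j).support ≤ Real.exp D) (b : HeightOneSpectrum (𝓞 K) →₀ ℕ) {Y M : ℝ}
    (hM : 1 ≤ M) (hYM : Y ≤ M ^ 2) (hY : Y < Nc (fun j => c j - b)) :
    ∃ U : Finset (HeightOneSpectrum (𝓞 K)), (∀ v ∈ U, b v = 0) ∧
      Y < Nc (fun j => rs (b.support ∪ U) (c j - b)) ∧ NN U ≤ M * Real.exp D := by
  set Z : Finset (HeightOneSpectrum (𝓞 K)) :=
    (Finset.univ.biUnion (fun j => (c j).support)) \ b.support with hZ
  have hZ1 : ∀ v ∈ Z, b v = 0 ∧ ∃ j, c j v ≠ 0 := by
    intro v hv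
    rw [hZ, Finset.mem_sdiff, Finset.mem_biUnion] at hv
    obtain ⟨⟨j, _, hj⟩, h2⟩ := hv
    exact ⟨Finsupp.notMem_support_iff.mp h2, j, Finsupp.mem_support_iff.mp hj⟩
  have hZ2 : ∀ j v, c j v ≠ 0 → v ∈ b.support ∪ Z := by
    intro j v hv
    by_cases h : v ∈ b.support
    · exact Finset.mem_union_left _ h
    · refine Finset.mem_union_right _ ?_
      rw [hZ, Finset.mem_sdiff, Finset.mem_biUnion]
      exact ⟨⟨j, Finset.mem_univ _, Finsupp.mem_support_iff.mpr hv⟩, h⟩
  set Cand : Finset (Finset (HeightOneSpectrum (𝓞 K))) :=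
    Z.powerset.filter (fun U => Y < Nc (fun j => rs (b.support ∪ U) (c j - b))) with hCand
  have hne : Cand.Nonempty := by
    refine ⟨Z, ?_⟩
    rw [hCand, Finset.mem_filter]
    refine ⟨Finset.mem_powerset_self _, hY.trans_le ?_⟩
    refine Nc_mono ?_
    intro j v
    by_cases h : v ∈ b.support ∪ Z
    · rw [rs_mem h]
    · rw [rs_notMem h]
      have h1 : c j v = 0 := by
        by_contra h2
        exact h (hZ2 j v h2)
      rw [Finsupp.tsub_apply, h1]
      omega
  obtain ⟨U, hU, hmin⟩ := Finset.exists_min_image Cand (fun U => U.card) hne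
  rw [hCand, Finset.mem_filter, Finset.mem_powerset] at hU
  refine ⟨U, fun v hv => (hZ1 v (hU.1 hv)).1, hU.2, ?_⟩
  rcases U.eq_empty_or_nonempty with hUe | ⟨v, hv⟩
  · rw [hUe]
    have : NN (∅ : Finset (HeightOneSpectrum (𝓞 K))) = 1 := by simp [NN]
    rw [this]
    have := Real.one_le_exp hD0
    nlinarith
  have hnot : U.erase v ∉ Cand := by
    intro h
    have h1 := hmin _ h
    have h2 := Finset.card_erase_lt_of_mem hv
    omega
  have hle : Nc (fun j => rs (b.support ∪ U.erase v) (c j - b)) ≤ Y := by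
    by_contra h
    push Not at h
    refine hnot ?_
    rw [hCand, Finset.mem_filter, Finset.mem_powerset]
    exact ⟨(Finset.erase_subset _ _).trans hU.1, h⟩
  have hsq : NN (U.erase v) ^ 2 ≤ Nc (fun j => rs (b.support ∪ U.erase v) (c j - b)) := by
    rw [Nc_eq (c := fun j => rs (b.support ∪ U.erase v) (c j - b))
      (fun j => rs_support_subset _ _)]
    refine le_trans ?_ (prod_le_of_subset (s := U.erase v) Finset.subset_union_right _
      (fun v' _ => one_le_pow₀ (one_lt_nv v').le))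
    unfold NN
    rw [← Finset.prod_pow]
    refine Finset.prod_le_prod (fun v' _ => (pow_pos (nv_pos v') _).le) ?_
    intro v' hv'
    refine pow_le_pow_right₀ (one_lt_nv v').le ?_
    obtain ⟨hb0, j, hj⟩ := hZ1 v' (hU.1 (Finset.mem_of_mem_erase hv'))
    have h4 : rs (b.support ∪ U.erase v) (c j - b) v' ≤
        ∑ i, rs (b.support ∪ U.erase v) (c i - b) v' :=
      Finset.single_le_sum (f := fun i => rs (b.support ∪ U.erase v) (c i - b) v')
        (fun i _ => Nat.zero_le _) (Finset.mem_univ j)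
    rw [rs_mem (Finset.mem_union_right _ hv'), Finsupp.tsub_apply, hb0] at h4
    have := hc2 j v' hj
    omega
  have hNM : NN (U.erase v) ≤ M := by
    by_contra h
    push Not at h
    have : M ^ 2 < NN (U.erase v) ^ 2 := pow_lt_pow_left₀ h (by linarith) (by norm_num)
    linarith
  have hnv : nv v ≤ Real.exp D := by
    obtain ⟨_, j, hj⟩ := hZ1 v (hU.1 hv)
    refine le_trans ?_ (hD j)
    have h5 : ({v} : Finset (HeightOneSpectrum (𝓞 K))) ⊆ (c j).support := by
      rw [Finset.singleton_subset_iff, Finsupp.mem_support_iff]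
      exact hj
    have := NN_mono h5
    simpa [NN] using this
  have hprod : NN U = nv v * NN (U.erase v) := by
    unfold NN
    rw [Finset.mul_prod_erase _ _ hv]
  rw [hprod, mul_comm M]
  have := NN_pos (U.erase v)
  have := Real.exp_pos D
  have := nv_pos v
  gcongr

lemma Close_rs {L : Fin q → Fin (n + 1) → K} {c : Fin q → (HeightOneSpectrum (𝓞 K) →₀ ℕ)}
    {u : Fin (n + 1) → K} (h : Close L c u) (W : Finset (HeightOneSpectrum (𝓞 K))) :
    Close L (fun j => rs W (c j)) u := by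
  intro j v hv
  have hv' : rs W (c j) v ≠ 0 := hv
  have hmem : v ∈ W := by
    by_contra h1
    exact hv' (rs_notMem h1)
  have h2 : rs W (c j) v = c j v := rs_mem hmem
  change fa v (lin (L j) u) * nv v ^ (rs W (c j) v) ≤ sz v u
  rw [h2]
  rw [h2] at hv'
  exact h j v hv'

open Classical in
/-- Case A. -/
lemma caseA {L : Fin q → Fin (n + 1) → K} {cc : Finset (Fin q) → Fin q → K}
    {S : Finset (HeightOneSpectrum (𝓞 K))} (hq : n + 1 ≤ q)
    (hL : ∀ J : Fin (n + 1) → Fin q, Function.Injective J →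
      LinearIndependent K (fun i => L (J i))) (hcc : IsRel L cc) (hS : Good L cc S) (η : ℝ)
    (hη : 0 < η) :
    ∃ C C₂ : ℝ, 0 ≤ C ∧ 1 ≤ C₂ ∧ ∀ T : ℝ, 1 ≤ T → ∀ J : Finset (Fin q), J.card + 1 = n →
      ∀ m5 m6 D : ℝ, 0 ≤ m5 → 0 ≤ m6 → 0 ≤ D → Real.exp m5 ≤ T → Real.exp m6 ≤ T →
        Real.exp D ≤ T →
      ∀ F : Finset (Fin q → (HeightOneSpectrum (𝓞 K) →₀ ℕ)),
      (∀ c ∈ F, IsCode S J c ∧ (∀ j v, c j v ≠ 0 → 2 ≤ c j v) ∧ Nc c ≤ T ∧
        (∀ j, NN (c j).support ≤ Real.exp D) ∧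
        ∃ (u : Fin (n + 1) → K) (b : HeightOneSpectrum (𝓞 K) →₀ ℕ), u ≠ 0 ∧
          (∀ j ∈ J, lin (L j) u = 0) ∧ (∀ j, j ∉ J → lin (L j) u ≠ 0) ∧
          Close L (fun j => c j - b) u ∧ Nb b ≤ Real.exp m6 ∧
          mulHeight u ≤ Real.exp m5 ∧ C₂ * Real.exp (2 * m5) < Nc c / Nb b) →
      (F.card : ℝ) ≤ C * T ^ η * Real.exp (m5 + m6 + D) := by
  set ε : ℝ := η / ((3 * q + 4 : ℕ) : ℝ) with hε
  have hε0 : 0 < ε := by positivity
  obtain ⟨C1, hC1, h1⟩ := card_Nb K ε hε0
  obtain ⟨C2, hC2, h2⟩ := card_codes K q ε hε0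
  obtain ⟨C3, hC3, h3⟩ := card_codes_in K ε hε0
  obtain ⟨CH, hCH, hH⟩ := height_ratio (K := K) L
  obtain ⟨CD, hCD, hdir⟩ := direction_unique hq hL hcc hS
  set M : ℝ := max 1 CD with hM
  have hM1 : 1 ≤ M := le_max_left _ _
  refine ⟨C1 * ((C2 * M ^ (1 + ε)) * (C3 ^ q * (C3 * CH ^ ε) ^ q)), M, by positivity, hM1, ?_⟩
  intro T hT J hJ m5 m6 D hm5 hm6 hD hm5T hm6T hDT F hF
  have hT0 : 0 < T := by linarith
  have hTe : 1 ≤ T ^ ε := Real.one_le_rpow hT hε0.le
  choose! hcode hc2 hN hD' u b hu hJu hnu hcl hb hmu hbig using hF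
  have hUex : ∀ c ∈ F, ∃ U : Finset (HeightOneSpectrum (𝓞 K)), (∀ v ∈ U, b c v = 0) ∧
      M * Real.exp (2 * m5) < Nc (fun j => rs ((b c).support ∪ U) (c j - b c)) ∧
      NN U ≤ (M * Real.exp m5) * Real.exp D := by
    intro c hc
    refine exists_U (hc2 c hc) hD (hD' c hc) (b c) ?_ ?_ ?_
    · have := Real.one_le_exp hm5
      nlinarith
    · rw [mul_pow, ← Real.exp_nat_mul]
      push_cast
      have h6 : M ≤ M ^ 2 := by nlinarith
      exact mul_le_mul_of_nonneg_right h6 (Real.exp_pos _).le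
    · refine (hbig c hc).trans_le ?_
      rw [div_le_iff₀ (Nb_pos _)]
      exact Nc_le_mul_Nb (hcode c hc) (b c)
  choose! U hU0 hUY hUN using hUex
  have hY1 : 1 ≤ M * Real.exp m5 * Real.exp D := by
    have h5 := Real.one_le_exp hm5
    have h6 := Real.one_le_exp hD
    have h7 : 1 ≤ M * Real.exp m5 := by nlinarith
    nlinarith
  have key : (F.card : ℝ) ≤ (C1 * Real.exp m6 ^ (1 + ε)) *
      ((C2 * (M * Real.exp m5 * Real.exp D) ^ (1 + ε) * T ^ ε) *
        ((C3 * T ^ ε) ^ q * (C3 * (CH * T ^ 2) ^ ε) ^ q)) := by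
    refine card_le_of_fiber F b _ _ (by positivity) ?_ ?_
    · refine h1 _ (Real.one_le_exp hm6) _ ?_
      intro β hβ
      obtain ⟨c, hc, rfl⟩ := Finset.mem_image.mp hβ
      exact hb c hc
    intro β
    refine card_le_of_fiber _ (fun c j => rs (U c) (c j)) _ _ (by positivity) ?_ ?_
    · refine h2 T hT _ hY1 _ ?_
      intro κ hκ
      obtain ⟨c, hc, rfl⟩ := Finset.mem_image.mp hκ
      have hcF : c ∈ F := (Finset.mem_filter.mp hc).1
      exact ⟨(Cc_rs_le (hcode c hcF) _).trans (hUN c hcF),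
        (Nc_mono (fun j v => rs_le _ _ v)).trans (hN c hcF)⟩
    intro κ
    refine card_le_of_fiber _ (fun c j => rs β.support (c j)) _ _ (by positivity) ?_ ?_
    · refine card_pi_le _ _ ?_
      intro j G hG
      rcases G.eq_empty_or_nonempty with hGe | ⟨z, hz⟩
      · rw [hGe]
        simp only [Finset.card_empty, Nat.cast_zero]
        positivity
      refine h3 T hT β.support ?_ G ?_
      · obtain ⟨_, hd, _⟩ := hG z hz
        obtain ⟨c, hc, _⟩ := Finset.mem_image.mp hd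
        have hc1 := Finset.mem_filter.mp hc
        have hc2 := Finset.mem_filter.mp hc1.1
        rw [← hc2.2]
        exact ((NN_support_le_Nb _).trans (hb c hc2.1)).trans hm6T
      · intro z hz
        obtain ⟨_, hd, rfl⟩ := hG z hz
        obtain ⟨c, hc, rfl⟩ := Finset.mem_image.mp hd
        have hc1 := Finset.mem_filter.mp hc
        have hc2 := Finset.mem_filter.mp hc1.1
        exact ⟨rs_support_subset _ _,
          (Nb_mono (rs_le _ _)).trans ((Nb_le_Nc c j).trans (hN c hc2.1))⟩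
    intro lam
    -- the last fibre
    have gen : ∀ FF : Finset (Fin q → (HeightOneSpectrum (𝓞 K) →₀ ℕ)),
        (∀ c ∈ FF, c ∈ F ∧ b c = β ∧ (fun j => rs (U c) (c j)) = κ ∧
          (fun j => rs β.support (c j)) = lam) →
        (FF.card : ℝ) ≤ (C3 * (CH * T ^ 2) ^ ε) ^ q := by
      intro FF hFF
      rcases FF.eq_empty_or_nonempty with he | ⟨c₀, hc₀⟩
      · rw [he]
        simp only [Finset.card_empty, Nat.cast_zero]
        positivity
      have hf : ∀ c ∈ FF, ∀ j v, rs (β.support ∪ U c) (c j - β) v =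
          if v ∈ β.support then lam j v - β v else κ j v := by
        intro c hc j v
        obtain ⟨_, _, h5, h6⟩ := hFF c hc
        split_ifs with hv
        · rw [rs_mem (Finset.mem_union_left _ hv), Finsupp.tsub_apply, ← congrFun h6 j,
            rs_mem hv]
        · have hβv : β v = 0 := Finsupp.notMem_support_iff.mp hv
          rw [← congrFun h5 j]
          by_cases hvU : v ∈ U c
          · rw [rs_mem (Finset.mem_union_right _ hvU), rs_mem hvU, Finsupp.tsub_apply, hβv]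
            omega
          · rw [rs_notMem hvU, rs_notMem]
            rw [Finset.mem_union]
            push Not
            exact ⟨hv, hvU⟩
      obtain ⟨hc₀F, hc₀b, _, _⟩ := hFF c₀ hc₀
      set f : Fin q → (HeightOneSpectrum (𝓞 K) →₀ ℕ) :=
        fun j => rs (β.support ∪ U c₀) (c₀ j - β) with hfdef
      have hfeq : ∀ c ∈ FF, f = fun j => rs (β.support ∪ U c) (c j - β) := by
        intro c hc
        funext j
        ext v
        rw [hfdef]
        simp only []
        rw [hf c₀ hc₀, hf c hc]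
      have hfcode : IsCode S J f := by
        refine IsCode.of_le (hcode c₀ hc₀F) ?_
        intro j v h5 h6
        have h7 : f j v ≤ (c₀ j - β) v := rs_le _ _ v
        rw [Finsupp.tsub_apply, h6] at h7
        omega
      have hfclose : ∀ c ∈ FF, Close L f (u c) := by
        intro c hc
        obtain ⟨hcF, hcb, _, _⟩ := hFF c hc
        rw [hfeq c hc]
        have h5 := hcl c hcF
        rw [hcb] at h5
        exact Close_rs h5 _
      have hfbig : M * Real.exp (2 * m5) < Nc f := by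
        have h5 := hUY c₀ hc₀F
        rw [hc₀b] at h5
        exact h5
      have hline : ∀ c ∈ FF, ∃ t : K, u c = t • u c₀ := by
        intro c hc
        obtain ⟨hcF, _, _, _⟩ := hFF c hc
        refine hdir J hJ (u c₀) (u c) (hu c₀ hc₀F) (hu c hcF) (hJu c₀ hc₀F) (hJu c hcF) f hfcode
          (hfclose c₀ hc₀) (hfclose c hc) (lt_of_le_of_lt ?_ hfbig)
        have h5 := hmu c₀ hc₀F
        have h6 := hmu c hcF
        have h7 := mulHeight_pos (u c₀)
        have h8 := mulHeight_pos (u c)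
        calc CD * (mulHeight (u c₀) * mulHeight (u c)) ≤ M * (Real.exp m5 * Real.exp m5) := by
              have h9 : CD ≤ M := le_max_right _ _
              gcongr
          _ = M * Real.exp (2 * m5) := by rw [← Real.exp_add]; congr 2; ring
      have hT' : 1 ≤ CH * T ^ 2 := by nlinarith
      have hTT' : T ≤ CH * T ^ 2 := by nlinarith
      refine card_pi_le _ _ ?_
      intro j G hG
      by_cases hj : j ∈ J
      · refine h3 (CH * T ^ 2) hT' ∅ (by simpa [NN] using hT') G ?_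
        intro z hz
        obtain ⟨c, hc, rfl⟩ := hG z hz
        obtain ⟨hcF, _, _, _⟩ := hFF c hc
        refine ⟨?_, ((Nb_le_Nc c j).trans (hN c hcF)).trans hTT'⟩
        intro v hv
        rw [Finsupp.mem_support_iff] at hv
        exact absurd hj ((hcode c hcF).good j v hv).2
      · obtain ⟨j', hj'J, hjj'⟩ : ∃ j', j' ∉ J ∧ j ≠ j' := by
          by_contra hcon
          push Not at hcon
          have h5 : (Finset.univ : Finset (Fin q)) ⊆ insert j J := by
            intro i _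
            by_cases hi : i ∈ J
            · exact Finset.mem_insert_of_mem hi
            · rw [← hcon i hi]
              exact Finset.mem_insert_self _ _
          have h6 := Finset.card_le_card h5
          rw [Finset.card_univ, Fintype.card_fin, Finset.card_insert_of_notMem hj] at h6
          omega
        set z₀ : K := lin (L j) (u c₀) / lin (L j') (u c₀) with hz₀
        have hz₀0 : z₀ ≠ 0 := div_ne_zero (hnu c₀ hc₀F j hj) (hnu c₀ hc₀F j' hj'J)
        have hfin : {v : HeightOneSpectrum (𝓞 K) | fa v z₀ < 1}.Finite := by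
          refine (Pool.Agent.Lib.MP_4d5ce1_nt.finite_fa_ne_one hz₀0).subset ?_
          intro v hv
          exact ne_of_lt hv
        have hNZ : NN hfin.toFinset ≤ CH * Real.exp m5 := by
          refine (NN_le_mulHeight₁ hz₀0 hfin.toFinset ?_).trans ((hH j j' (u c₀)).trans ?_)
          · intro v hv
            exact hfin.mem_toFinset.mp hv
          · exact mul_le_mul_of_nonneg_left (hmu c₀ hc₀F) (by linarith)
        refine h3 (CH * T ^ 2) hT' (β.support ∪ hfin.toFinset) ?_ G ?_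
        · refine (NN_union_le _ _).trans ?_
          have h5 : NN β.support ≤ T := by
            rw [← hc₀b]
            exact ((NN_support_le_Nb _).trans (hb c₀ hc₀F)).trans hm6T
          have h6 : NN hfin.toFinset ≤ CH * T := by
            refine hNZ.trans ?_
            exact mul_le_mul_of_nonneg_left hm5T (by linarith)
          have h7 := NN_pos β.support
          have h8 := NN_pos hfin.toFinset
          calc NN β.support * NN hfin.toFinset ≤ T * (CH * T) := by gcongr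
            _ = CH * T ^ 2 := by ring
        · intro z hz
          obtain ⟨c, hc, rfl⟩ := hG z hz
          obtain ⟨hcF, hcb, _, _⟩ := hFF c hc
          refine ⟨?_, ((Nb_le_Nc c j).trans (hN c hcF)).trans hTT'⟩
          intro v hv
          rw [Finsupp.mem_support_iff] at hv
          by_cases hvβ : v ∈ β.support
          · exact Finset.mem_union_left _ hvβ
          refine Finset.mem_union_right _ ?_
          rw [Set.Finite.mem_toFinset]
          have hβv : β v = 0 := Finsupp.notMem_support_iff.mp hvβ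
          have hvS : v ∉ S := ((hcode c hcF).good j v hv).1
          have hval : (c j - b c) v = c j v := by
            rw [Finsupp.tsub_apply, hcb, hβv]
            omega
          have h5 : fa v (lin (L j) (u c)) * nv v ^ (c j v) ≤ sz v (u c) := by
            have := hcl c hcF j v (by simp only []; rw [hval]; exact hv)
            simp only [] at this
            rw [hval] at this
            exact this
          have hsz := sz_pos v (hu c hcF)
          have h6 : ¬ sz v (u c) ≤ fa v (lin (L j) (u c)) := by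
            intro h7
            have h8 : 1 < nv v ^ (c j v) := one_lt_pow₀ (one_lt_nv v) hv
            nlinarith
          have h7 : sz v (u c) ≤ fa v (lin (L j') (u c)) :=
            (ge_of_vanish hS hJ hj hj'J hjj' (hu c hcF) (hJu c hcF) hvS).resolve_left h6
          obtain ⟨t, ht⟩ := hline c hc
          have h8 : fa v (lin (L j) (u c)) < fa v (lin (L j') (u c)) :=
            (not_le.mp h6).trans_le h7
          rw [ht, lin_smul', lin_smul', Pool.Agent.Lib.MP_4d5ce1_nt.fa_mul,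
            Pool.Agent.Lib.MP_4d5ce1_nt.fa_mul] at h8
          have h9 := lt_of_mul_lt_mul_left h8 (Pool.Agent.Lib.MP_4d5ce1_nt.fa_nonneg v t)
          change fa v z₀ < 1
          rw [hz₀, Pool.Agent.Lib.MP_4d5ce1_nt.fa_div, div_lt_one
            (Pool.Agent.Lib.MP_4d5ce1_nt.fa_pos v (hnu c₀ hc₀F j' hj'J))]
          exact h9
    refine gen _ ?_
    intro c hc
    have hc1 := Finset.mem_filter.mp hc
    have hc2 := Finset.mem_filter.mp hc1.1
    have hc3 := Finset.mem_filter.mp hc2.1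
    exact ⟨hc3.1, hc3.2, hc2.2, hc1.2⟩
  refine key.trans ?_
  have e1 : Real.exp m6 ^ (1 + ε) ≤ Real.exp m6 * T ^ ε :=
    rpow_one_add_le (Real.exp_pos _) hm6T hε0
  have e2 : Real.exp D ^ (1 + ε) ≤ Real.exp D * T ^ ε :=
    rpow_one_add_le (Real.exp_pos _) hDT hε0
  have e3 : Real.exp m5 ^ (1 + ε) ≤ Real.exp m5 * T ^ ε :=
    rpow_one_add_le (Real.exp_pos _) hm5T hε0
  have e4 : (M * Real.exp m5 * Real.exp D) ^ (1 + ε) ≤
      M ^ (1 + ε) * (Real.exp m5 * T ^ ε) * (Real.exp D * T ^ ε) := by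
    rw [Real.mul_rpow (by positivity) (by positivity), Real.mul_rpow (by positivity)
      (by positivity)]
    gcongr
  have e5 : (CH * T ^ 2) ^ ε = CH ^ ε * (T ^ ε) ^ 2 := by
    rw [Real.mul_rpow (by positivity) (by positivity)]
    congr 1
    rw [← Real.rpow_natCast, ← Real.rpow_mul hT0.le, ← Real.rpow_natCast, ← Real.rpow_mul hT0.le,
      mul_comm]
  calc (C1 * Real.exp m6 ^ (1 + ε)) *
      ((C2 * (M * Real.exp m5 * Real.exp D) ^ (1 + ε) * T ^ ε) *
        ((C3 * T ^ ε) ^ q * (C3 * (CH * T ^ 2) ^ ε) ^ q))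
      ≤ (C1 * (Real.exp m6 * T ^ ε)) *
      ((C2 * (M ^ (1 + ε) * (Real.exp m5 * T ^ ε) * (Real.exp D * T ^ ε)) * T ^ ε) *
        ((C3 * T ^ ε) ^ q * (C3 * (CH * T ^ 2) ^ ε) ^ q)) := by
        gcongr
    _ = C1 * ((C2 * M ^ (1 + ε)) * (C3 ^ q * (C3 * CH ^ ε) ^ q)) * (T ^ ε) ^ (3 * q + 4) *
        (Real.exp m5 * Real.exp m6 * Real.exp D) := by
        rw [e5]
        simp only [mul_pow, pow_add, ← pow_mul]
        ring
    _ = _ := by
        rw [hε, rpow_div_pow hT (3 * q + 4) (by omega), Real.exp_add, Real.exp_add]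

end G8

/-! ### The theorem -/

open G8

open Classical in
theorem card_skew {L : Fin q → Fin (n + 1) → K} {cc : Finset (Fin q) → Fin q → K}
    {S : Finset (HeightOneSpectrum (𝓞 K))} (hq : n + 1 ≤ q)
    (hL : ∀ J : Fin (n + 1) → Fin q, Function.Injective J →
      LinearIndependent K (fun i => L (J i))) (hcc : IsRel L cc) (hS : Good L cc S) (η : ℝ)
    (hη : 0 < η) :
    ∃ C C₂ : ℝ, 0 < C ∧ 0 < C₂ ∧ ∀ T : ℝ, 1 ≤ T → ∀ J : Finset (Fin q), J.card + 1 = n →
      ∀ m5 m6 D : ℝ, 0 ≤ m5 → 0 ≤ m6 → 0 ≤ D → Real.exp m5 ≤ T → Real.exp m6 ≤ T →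
        Real.exp D ≤ T →
      ∀ F : Finset (Fin q → (HeightOneSpectrum (𝓞 K) →₀ ℕ)),
      (∀ c ∈ F, IsCode S J c ∧ (∀ j v, c j v ≠ 0 → 2 ≤ c j v) ∧ Nc c ≤ T ∧
        (∀ j, NN (c j).support ≤ Real.exp D) ∧
        ∃ (u : Fin (n + 1) → K) (b : HeightOneSpectrum (𝓞 K) →₀ ℕ), u ≠ 0 ∧
          (∀ j ∈ J, lin (L j) u = 0) ∧ Close L (fun j => c j - b) u ∧ Nb b ≤ Real.exp m6 ∧
          mulHeight u ≤ Real.exp m5 ∧ C₂ * Real.exp (2 * m5) < Nc c / Nb b) →
      (F.card : ℝ) ≤ C * T ^ η * Real.exp (m5 + m6 + D) := by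
  obtain ⟨CA, C₂, hCA, hC₂, hA⟩ := caseA hq hL hcc hS η hη
  obtain ⟨CB, hCB, hB⟩ := caseB K q η hη
  refine ⟨CA + CB + 1, C₂, by positivity, by linarith, ?_⟩
  intro T hT J hJ m5 m6 D hm5 hm6 hD hm5T hm6T hDT F hF
  have hT0 : 0 < T := by linarith
  set PB : (Fin q → (HeightOneSpectrum (𝓞 K) →₀ ℕ)) → Prop := fun c =>
    ∃ (b : HeightOneSpectrum (𝓞 K) →₀ ℕ) (j₀ : Fin q), Nb b ≤ Real.exp m6 ∧
          ∀ j, j ≠ j₀ → ∀ v, c j v ≤ b v with hPB
  have h1 := hB T hT m6 D hm6 hD hm6T hDT (F.filter PB) (by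
    intro c hc
    obtain ⟨hc, hp⟩ := Finset.mem_filter.mp hc
    obtain ⟨_, _, h3, h4, _⟩ := hF c hc
    exact ⟨h3, h4, hp⟩)
  have h2 := hA T hT J hJ m5 m6 D hm5 hm6 hD hm5T hm6T hDT (F.filter (fun c => ¬ PB c)) (by
    intro c hc
    obtain ⟨hc, hp⟩ := Finset.mem_filter.mp hc
    obtain ⟨hcode, h2, h3, h4, u, b, hu, hJu, hcl, hb, hmu, hbig⟩ := hF c hc
    refine ⟨hcode, h2, h3, h4, u, b, hu, hJu, ?_, hcl, hb, hmu, hbig⟩
    intro j₀ hj₀ h0
    refine hp ⟨b, j₀, hb, ?_⟩
    intro j hj v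
    by_contra hlt
    push Not at hlt
    have hne : c j v ≠ 0 := by omega
    obtain ⟨hvS, hjJ⟩ := hcode.good j v hne
    have hval : (c j - b) v = c j v - b v := Finsupp.tsub_apply _ _ _
    have h5 : fa v (lin (L j) u) * nv v ^ (c j v - b v) ≤ sz v u := by
      have := hcl j v (by simp only []; rw [hval]; omega)
      simp only [] at this
      rw [hval] at this
      exact this
    have hsz := sz_pos v hu
    have h6 : sz v u ≤ fa v (lin (L j) u) := by
      rcases ge_of_vanish hS hJ hjJ hj₀ hj hu hJu hvS with h7 | h7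
      · exact h7
      · rw [h0, Pool.Agent.Lib.MP_4d5ce1_nt.fa_zero] at h7
        linarith
    have h8 : 1 < nv v ^ (c j v - b v) :=
      one_lt_pow₀ (Pool.Agent.Lib.MP_4d5ce1_nt.one_lt_nv v) (by omega)
    nlinarith)
  have h3 : (F.card : ℝ) = ((F.filter PB).card : ℝ) + ((F.filter (fun c => ¬ PB c)).card : ℝ) := by
    rw [← Nat.cast_add, Finset.card_filter_add_card_filter_not]
  have h4 : Real.exp (m6 + D) ≤ Real.exp (m5 + m6 + D) := Real.exp_le_exp.mpr (by linarith)
  have h5 : 0 < T ^ η := Real.rpow_pos_of_pos hT0 η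
  have h6 := Real.exp_pos (m5 + m6 + D)
  rw [h3]
  calc ((F.filter PB).card : ℝ) + ((F.filter (fun c => ¬ PB c)).card : ℝ)
      ≤ CB * T ^ η * Real.exp (m5 + m6 + D) + CA * T ^ η * Real.exp (m5 + m6 + D) := by
        refine add_le_add (h1.trans ?_) h2
        gcongr
    _ ≤ (CA + CB + 1) * T ^ η * Real.exp (m5 + m6 + D) := by
        have h7 : 0 < T ^ η * Real.exp (m5 + m6 + D) := by positivity
        nlinarith

end Pool.Agent.Lib.MP_44a246_ntNG
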